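import Pool.Agent.H72.PSV.T1
import Pool.Agent.H67.BF.AAR

/-!
Module RKK of the board psv_modules (MP_3cf473_nt, PowerSaving): relations over the small field.
-/

set_option autoImplicit false

open Finset Filter Polynomial

namespace Pool.Agent.H72.PSV

open Pool.Agent.H72.BF

lemma snoc_ev3 {H : ℕ → ℝ} (P : Pkg H) {r : ℕ} (ξ : ℕ → Fin r → ℂ) (z : ℕ → ℂ) :
    (fun i => P.ev (fun j => (Fin.snoc (ξ j) (z j) : Fin (r + 1) → ℂ) i)) =
      (Fin.snoc (fun i => P.ev (fun j => ξ j i)) (P.ev z) : Fin (r + 1) → P.F) := by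
  funext i
  refine Fin.lastCases ?_ (fun j => ?_) i
  · simp
  · simp

/-- a sequence of points which are bad at almost all scales satisfies a relation in the residue
field -/
lemma rel_kk (hEVP : T_EVP) {H : ℕ → ℝ} (P : Pkg H) {r : ℕ} (d : ℕ) (A : ℝ)
    (ξ : ℕ → Fin r → ℂ) (hξ : ∀ j i, ‖ξ j i‖ ≤ H j) (z : ℕ → ℂ) (hzO : z ∈ P.O)
    (h : ∀ᶠ j : ℕ in (hyperfilter ℕ : Filter ℕ), badR (ξ j) d A ((j : ℝ) + 1) (H j) (z j)) :
    RelR P.kk (fun i => P.ev (fun j => ξ j i)) d (P.ev z) := by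
  classical
  have key : ∀ j, ∃ Q : MvPolynomial (Fin (r + 1)) ℤ, Q.totalDegree ≤ d ∧
      (∀ m : Fin (r + 1) →₀ ℕ, |((Q.coeff m : ℤ) : ℝ)| ≤ H j) ∧
      (badR (ξ j) d A ((j : ℝ) + 1) (H j) (z j) →
        H j ^ ((j : ℝ) + 1) * ‖MvPolynomial.aeval (Fin.snoc (ξ j) (z j) : Fin (r + 1) → ℂ) Q‖ < 1 ∧
        ∃ i : ℕ, 1 ≤ H j ^ A *
        ‖(MvPolynomial.aeval (Fin.snoc (fun i => Polynomial.C (ξ j i)) Polynomial.X :
          Fin (r + 1) → ℂ[X]) Q).coeff i‖) := by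
    intro j
    by_cases hb : badR (ξ j) d A ((j : ℝ) + 1) (H j) (z j)
    · obtain ⟨Q, h1, h2, h3, h4⟩ := hb
      exact ⟨Q, h1, h2, fun _ => ⟨h3, h4⟩⟩
    · refine ⟨0, by simp, ?_, fun h => absurd h hb⟩
      intro m
      have h2 := P.hH j
      simp
      linarith
  choose Q h1 h2 h3 using key
  have hco' : ∀ j, ∀ m : Fin (r + 1) →₀ ℕ, |(((Q j).coeff m : ℤ) : ℝ)| ≤ H j ^ 1 := by
    intro j m; rw [pow_one]; exact h2 j m
  obtain ⟨Q', hQd, hQc, hQe⟩ := hEVP H P (Fin (r + 1)) d 1 Q h1 hco'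
  have hξO : ∀ i, (fun j => ξ j i) ∈ P.O := fun i =>
    P.mem_of_le 1 fun j => by rw [pow_one]; exact hξ j i
  have hxO : ∀ (y : ℕ → ℂ), y ∈ P.O → ∀ (i : Fin (r + 1)),
      (fun j => (Fin.snoc (ξ j) (y j) : Fin (r + 1) → ℂ) i) ∈ P.O := by
    intro y hy i
    refine Fin.lastCases ?_ (fun j => ?_) i
    · simpa using hy
    · simpa using hξO j
  have hEv : ∀ y : ℕ → ℂ, y ∈ P.O →
      (fun j => MvPolynomial.aeval (Fin.snoc (ξ j) (y j) : Fin (r + 1) → ℂ) (Q j)) ∈ P.O ∧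
      MvPolynomial.aeval (Fin.snoc (fun i => P.ev (fun j => ξ j i)) (P.ev y) :
        Fin (r + 1) → P.F) Q' =
      P.ev (fun j => MvPolynomial.aeval (Fin.snoc (ξ j) (y j) : Fin (r + 1) → ℂ) (Q j)) := by
    intro y hy
    have := hQe (fun j => (Fin.snoc (ξ j) (y j) : Fin (r + 1) → ℂ)) (hxO y hy)
    rw [snoc_ev3] at this
    exact this
  refine ⟨Q', hQd, ?_, ?_⟩
  · rw [(hEv z hzO).2, P.ev_eq_zero (hEv z hzO).1]
    intro c
    filter_upwards [Pool.Agent.H67.BF.AAR.ev_ge c, h] with j hj hb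
    have h4 := (h3 j hb).1
    have h1 := P.hH j
    have h2 : H j ^ c ≤ H j ^ ((j : ℝ) + 1) := by
      rw [← Real.rpow_natCast]
      refine Real.rpow_le_rpow_of_exponent_le (by linarith) ?_
      have : (c : ℝ) ≤ j := by exact_mod_cast hj
      linarith
    have h3 : 0 ≤ ‖MvPolynomial.aeval (Fin.snoc (ξ j) (z j) : Fin (r + 1) → ℂ) (Q j)‖ :=
      norm_nonneg _
    nlinarith [mul_le_mul_of_nonneg_right h2 h3]
  · intro hz
    have hc0 : ∀ c : ℕ, P.ev (fun j => MvPolynomial.aeval (Fin.snoc (ξ j) (c : ℂ) :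
        Fin (r + 1) → ℂ) (Q j)) = 0 := by
      intro c
      rw [← (hEv (fun _ => (c : ℂ)) (P.const_mem _)).2]
      have h5 := congrArg (fun p => Polynomial.eval (P.ev (fun _ => (c : ℂ))) p) hz
      simp only [Polynomial.eval_zero] at h5
      rw [Pool.Agent.H67.BF.AAR.eval_aeval_snoc] at h5
      exact h5
    obtain ⟨M, hM0, hM⟩ := Pool.Agent.H67.BF.AAR.lagr d
    obtain ⟨m, hm⟩ := pow_unbounded_of_one_lt M (by norm_num : (1 : ℝ) < 2)
    set n : ℕ := ⌈|A|⌉₊ with hn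
    have hev : ∀ᶠ j in (hyperfilter ℕ : Filter ℕ), ∀ c ∈ Finset.range (d + 1),
        ‖MvPolynomial.aeval (Fin.snoc (ξ j) (c : ℂ) : Fin (r + 1) → ℂ) (Q j)‖ *
          H j ^ (n + m) ≤ 1 :=
      (Filter.eventually_all_finset _).2 fun c _ =>
        (P.ev_eq_zero (hEv (fun _ => (c : ℂ)) (P.const_mem _)).1).1 (hc0 c) (n + m)
    obtain ⟨j, hj, hb⟩ := (hev.and h).exists
    obtain ⟨-, i, hi⟩ := h3 j hb
    have hH := P.hH j
    have hHp : 0 < H j := by linarith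
    have hnm : 0 < H j ^ (n + m) := pow_pos hHp _
    set p := MvPolynomial.aeval (Fin.snoc (fun i => Polynomial.C (ξ j i)) Polynomial.X :
          Fin (r + 1) → ℂ[X]) (Q j) with hp
    have hpd : p.natDegree ≤ d := by
      refine Pool.Agent.H67.BF.AAR.aeval_natDegree (Q j) (h1 j) _ fun i => ?_
      refine Fin.lastCases ?_ (fun j => ?_) i
      · simp
      · simp
    have hb2 : ∀ c ≤ d, ‖p.eval (c : ℂ)‖ ≤ (H j ^ (n + m))⁻¹ := by
      intro c hc
      rw [hp, Pool.Agent.H67.BF.AAR.eval_aeval_snoc]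
      have := hj c (Finset.mem_range.2 (by omega))
      rw [← one_div, le_div_iff₀ hnm]
      exact this
    have h6 := hM p hpd _ hb2 i
    have h7 : H j ^ A ≤ H j ^ n := by
      rw [← Real.rpow_natCast]
      refine Real.rpow_le_rpow_of_exponent_le (by linarith) ?_
      exact (le_abs_self A).trans (Nat.le_ceil _)
    have h8 : 1 ≤ H j ^ n * ((H j ^ (n + m))⁻¹ * M) := by
      refine hi.trans ?_
      exact mul_le_mul h7 h6 (norm_nonneg _) (pow_pos hHp _).le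
    have h9 : H j ^ n * ((H j ^ (n + m))⁻¹ * M) = M / H j ^ m := by
      rw [pow_add]
      field_simp
    rw [h9, le_div_iff₀ (pow_pos hHp _), one_mul] at h8
    have h10 : (2 : ℝ) ^ m ≤ H j ^ m := pow_le_pow_left₀ (by norm_num) hH m
    linarith

end Pool.Agent.H72.PSV
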