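import Pool.Agent.H72.PSV.RKK

/-!
Module LFTQ of the board psv_modules (MP_3cf473_nt, PowerSaving): a relation over the small field
comes from a sequence of integer polynomials.
-/

set_option autoImplicit false

open Finset Filter

namespace Pool.Agent.H72.PSV

open Pool.Agent.H72.BF

lemma lift_rel (hCLR : T_CLR) (hEVP : T_EVP) {H : ℕ → ℝ} (P : Pkg H) {s : ℕ} (D : ℕ)
    (Q : MvPolynomial (Fin s) P.kk) (hQ0 : Q ≠ 0) (hQD : Q.totalDegree ≤ D)
    (z : ℕ → Fin s → ℂ) (hz : ∀ i, (fun j => z j i) ∈ P.O)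
    (hQz : MvPolynomial.aeval (fun i => P.ev (fun j => z j i)) Q = 0) :
    ∃ (c : ℕ) (R : ℕ → MvPolynomial (Fin s) ℤ), (∀ j, (R j).totalDegree ≤ D) ∧
      (∀ j, ∀ m : Fin s →₀ ℕ, |(((R j).coeff m : ℤ) : ℝ)| ≤ H j ^ c) ∧
      (∀ᶠ j in (hyperfilter ℕ : Filter ℕ), R j ≠ 0) ∧
      ∀ c' : ℕ, ∀ᶠ j in (hyperfilter ℕ : Filter ℕ),
        ‖MvPolynomial.aeval (z j) (R j)‖ * H j ^ c' ≤ 1 := by
  classical
  obtain ⟨q, R0, c, hq, hq0, hR, hrq⟩ := hCLR H P {m : Fin s →₀ ℕ // m ∈ Q.support}
    (fun m => Q.coeff m.1)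
  set R : ℕ → MvPolynomial (Fin s) ℤ := fun j =>
    ∑ m : {m : Fin s →₀ ℕ // m ∈ Q.support}, MvPolynomial.monomial m.1 (R0 m j) with hRdef
  have hcoeff : ∀ j (m : Fin s →₀ ℕ), (R j).coeff m =
      if h : m ∈ Q.support then R0 ⟨m, h⟩ j else 0 := by
    intro j m
    simp only [hRdef, MvPolynomial.coeff_sum, MvPolynomial.coeff_monomial]
    by_cases h : m ∈ Q.support
    · rw [dif_pos h, Finset.sum_eq_single ⟨m, h⟩]
      · simp
      · rintro ⟨m', h'⟩ _ hne
        rw [if_neg]
        intro he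
        apply hne
        exact Subtype.ext he
      · intro hn
        exact absurd (Finset.mem_univ _) hn
    · rw [dif_neg h]
      refine Finset.sum_eq_zero fun m' _ => ?_
      rw [if_neg]
      intro he
      exact h (he ▸ m'.2)
  have hRD : ∀ j, (R j).totalDegree ≤ D := by
    intro j
    refine (Finset.sup_mono ?_).trans hQD
    intro m hm
    rw [MvPolynomial.mem_support_iff, hcoeff] at hm
    by_contra h
    rw [dif_neg h] at hm
    exact hm rfl
  have hRH : ∀ j, ∀ m : Fin s →₀ ℕ, |(((R j).coeff m : ℤ) : ℝ)| ≤ H j ^ c := by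
    intro j m
    rw [hcoeff]
    by_cases h : m ∈ Q.support
    · rw [dif_pos h]
      exact hR _ _
    · rw [dif_neg h]
      simp only [Int.cast_zero, abs_zero]
      exact (P.one_le_pow j c).trans' zero_le_one
  obtain ⟨Q', -, hQc, hQe⟩ := hEVP H P (Fin s) D c R hRD hRH
  have hQ'c : ∀ m : Fin s →₀ ℕ, ((Q'.coeff m : P.kk) : P.F) = ((Q.coeff m : P.kk) : P.F) *
      P.evZ q := by
    intro m
    rw [hQc m]
    by_cases h : m ∈ Q.support
    · have h1 := hrq ⟨m, h⟩
      simp only at h1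
      rw [h1]
      congr 1
      funext j
      rw [hcoeff, dif_pos h]
    · have h1 : (fun j => (R j).coeff m) = fun _ => (0 : ℤ) := by
        funext j
        rw [hcoeff, dif_neg h]
      rw [h1, P.evZ_const]
      have h2 : Q.coeff m = 0 := by
        rw [MvPolynomial.notMem_support_iff] at h
        exact h
      rw [h2]
      simp
  have hval : MvPolynomial.aeval (fun i => P.ev (fun j => z j i)) Q' = 0 := by
    have h1 : MvPolynomial.map (algebraMap P.kk P.F) Q' =
        MvPolynomial.C (P.evZ q) * MvPolynomial.map (algebraMap P.kk P.F) Q := by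
      ext m
      rw [MvPolynomial.coeff_C_mul, MvPolynomial.coeff_map, MvPolynomial.coeff_map, mul_comm]
      exact hQ'c m
    rw [MvPolynomial.aeval_def, MvPolynomial.eval₂_eq_eval_map, h1, map_mul,
      ← MvPolynomial.eval₂_eq_eval_map, ← MvPolynomial.aeval_def, hQz, mul_zero]
  have hE := hQe z hz
  refine ⟨c, R, hRD, hRH, ?_, ?_⟩
  · obtain ⟨m, hm⟩ := MvPolynomial.ne_zero_iff.1 hQ0
    have hms : m ∈ Q.support := MvPolynomial.mem_support_iff.2 hm
    have hne : P.evZ (fun j => (R j).coeff m) ≠ 0 := by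
      rw [← hQc m, hQ'c m]
      refine mul_ne_zero ?_ ?_
      · intro h
        apply hm
        exact_mod_cast h
      · intro h
        rw [P.evZ_eq_zero hq] at h
        obtain ⟨j, hj⟩ := h.exists
        exact hq0 j hj
    have hbd : P.Bd (fun j => (R j).coeff m) := P.bd_of_le c fun j => hRH j m
    have h1 := fun h => hne ((P.evZ_eq_zero hbd).2 h)
    have h2 : ∀ᶠ j in (hyperfilter ℕ : Filter ℕ), ¬ ((R j).coeff m = 0) :=
      Ultrafilter.eventually_not.2 h1
    filter_upwards [h2] with j hj h0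
    apply hj
    rw [h0]
    simp
  · rw [hval] at hE
    exact (P.ev_eq_zero hE.1).1 hE.2.symm

end Pool.Agent.H72.PSV
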