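import Pool.Agent.H72.PSV.T2
import Pool.Agent.H72.PSV.LFTQ

/-!
Module LCN of the board psv_modules (MP_3cf473_nt, PowerSaving): at every height all tuples of
distinct integers of a short interval are good, except those with an entry in a set of `r + 1`
integers.
-/

set_option autoImplicit false

open Finset Filter

namespace Pool.Agent.H72.PSV

open Pool.Agent.H72.BF

/-- the minimum of finitely many sequences is attained along the ultrafilter -/
lemma exists_min_ev {m : ℕ} (f : Fin (m + 1) → ℕ → ℕ) :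
    ∃ i₀, ∀ᶠ j in (hyperfilter ℕ : Filter ℕ), ∀ i, f i₀ j ≤ f i j := by
  by_contra hcon
  have h1 : ∀ i₀, ∀ᶠ j in (hyperfilter ℕ : Filter ℕ), ¬ ∀ i, f i₀ j ≤ f i j := fun i₀ =>
    Ultrafilter.eventually_not.2 (not_exists.1 hcon i₀)
  have h2 : ∀ᶠ j in (hyperfilter ℕ : Filter ℕ), ∀ i₀, ¬ ∀ i, f i₀ j ≤ f i j :=
    Filter.eventually_all.2 h1
  obtain ⟨j, hj⟩ := h2.exists
  obtain ⟨i₀, hi₀⟩ := Finite.exists_min (fun i => f i j)
  exact hj i₀ hi₀

/-- differences of logarithms of integers of a short interval have no relation of bounded degree -/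
lemma no_rel (hEVP : T_EVP) (hCLR : T_CLR) {m D N1 : ℕ} {dl dl' CG : ℝ} (hdl : 0 < dl)
    (hdl' : dl' ≤ dl) (hdl1 : dl' ≤ 1)
    (hG : ∀ N : ℕ, N1 ≤ N → ∀ b : Fin m → ℕ, Function.Injective b → (∀ k, b k ≠ 0) →
      (∀ k, (b k : ℝ) ≤ (N : ℝ) ^ dl) → ∀ H : ℝ, (N : ℝ) ≤ H →
      ∀ P : MvPolynomial (Fin m) ℤ, P ≠ 0 → P.totalDegree ≤ D →
      (∀ e : Fin m →₀ ℕ, |((P.coeff e : ℤ) : ℝ)| ≤ H) →
      1 ≤ H ^ CG * ‖MvPolynomial.aeval (fun k => ((Real.log (1 + b k / N) : ℝ) : ℂ)) P‖)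
    {H : ℕ → ℝ} (P : Pkg H) (N : ℕ → ℕ) (hN1 : ∀ j, N1 ≤ N j) (hN : ∀ j, 1 ≤ N j)
    (hNH : ∀ j, (N j : ℝ) ≤ H j) (a : Fin (m + 1) → ℕ → ℕ)
    (ha : ∀ i j, N j ≤ a i j ∧ (a i j : ℝ) ≤ N j + (N j : ℝ) ^ dl')
    (hinj : ∀ᶠ j in (hyperfilter ℕ : Filter ℕ), Function.Injective (fun i => a i j))
    (i₀ : Fin (m + 1)) (hi₀ : ∀ᶠ j in (hyperfilter ℕ : Filter ℕ), ∀ i, a i₀ j ≤ a i j)
    (Q : MvPolynomial (Fin m) P.kk) (hQ0 : Q ≠ 0) (hQD : Q.totalDegree ≤ D) :
    MvPolynomial.aeval (fun i : Fin m =>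
      P.ev (fun j => ((Real.log (a (i₀.succAbove i) j) : ℝ) : ℂ)) -
        P.ev (fun j => ((Real.log (a i₀ j) : ℝ) : ℂ))) Q ≠ 0 := by
  classical
  intro hQ
  have hH2 := P.hH
  have hNr : ∀ j, (1 : ℝ) ≤ N j := fun j => by exact_mod_cast hN j
  have hpow1 : ∀ j, (N j : ℝ) ^ dl' ≤ N j := by
    intro j
    calc (N j : ℝ) ^ dl' ≤ (N j : ℝ) ^ (1 : ℝ) :=
          Real.rpow_le_rpow_of_exponent_le (hNr j) hdl1
      _ = N j := Real.rpow_one _
  have haH : ∀ j i, (a i j : ℝ) ≤ H j ^ 2 := by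
    intro j i
    have h1 := (ha i j).2
    have h2 := hpow1 j
    have h3 := hNH j
    have h4 := hH2 j
    nlinarith
  have ha1r : ∀ j i, (1 : ℝ) ≤ a i j := fun j i => by
    exact_mod_cast (hN j).trans (ha i j).1
  have hzO : ∀ i, (fun j => ((Real.log (a i j) : ℝ) : ℂ)) ∈ P.O := by
    intro i
    refine P.mem_of_le 2 fun j => ?_
    rw [Complex.norm_real, Real.norm_eq_abs, abs_of_nonneg (Real.log_nonneg (ha1r j i))]
    have h1 := Real.log_le_sub_one_of_pos (by linarith [ha1r j i] : (0 : ℝ) < a i j)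
    have h2 := haH j i
    linarith
  set w : ℕ → Fin m → ℂ := fun j k =>
    ((Real.log (a (i₀.succAbove k) j) : ℝ) : ℂ) - ((Real.log (a i₀ j) : ℝ) : ℂ) with hw
  have hwO : ∀ k, (fun j => w j k) ∈ P.O := fun k => P.O.sub_mem (hzO _) (hzO _)
  have hwe : (fun k => P.ev (fun j => w j k)) = fun i : Fin m =>
      P.ev (fun j => ((Real.log (a (i₀.succAbove i) j) : ℝ) : ℂ)) -
        P.ev (fun j => ((Real.log (a i₀ j) : ℝ) : ℂ)) := by
    funext k
    rw [← P.ev_sub (hzO _) (hzO _)]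
    rfl
  have hQ' : MvPolynomial.aeval (fun k => P.ev (fun j => w j k)) Q = 0 := by
    rw [hwe]
    exact hQ
  obtain ⟨c, R, hRD, hRH, hR0, hRs⟩ := lift_rel hCLR hEVP P D Q hQ0 hQD w hwO hQ'
  set c1 : ℕ := max c 2 with hc1
  set c2 : ℕ := ⌈(c1 : ℝ) * CG⌉₊ with hc2
  obtain ⟨j, ⟨hj0, hjs⟩, hjinj, hjmin⟩ := ((hR0.and (hRs (c2 + 1))).and (hinj.and hi₀)).exists
  have hHj := hH2 j
  have hHp : (0 : ℝ) < H j := by linarith
  have hH1 : (1 : ℝ) ≤ H j := by linarith
  have hlt : ∀ k : Fin m, a i₀ j < a (i₀.succAbove k) j := by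
    intro k
    refine lt_of_le_of_ne (hjmin _) ?_
    intro h
    exact (Fin.succAbove_ne i₀ k).symm (hjinj h)
  have h1 := hG (a i₀ j) ((hN1 j).trans (ha i₀ j).1) (fun k => a (i₀.succAbove k) j - a i₀ j) (by
      intro k k' hkk
      have h2 := hlt k
      have h3 := hlt k'
      have h4 : a (i₀.succAbove k) j = a (i₀.succAbove k') j := by
        simp only at hkk
        omega
      exact Fin.succAbove_right_injective (hjinj h4)) (fun k => by
      have := hlt k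
      omega) (fun k => by
      have h2 := (ha (i₀.succAbove k) j).2
      have h3 : (N j : ℝ) ≤ a i₀ j := by exact_mod_cast (ha i₀ j).1
      have h4 : (N j : ℝ) ^ dl' ≤ (a i₀ j : ℝ) ^ dl := by
        calc (N j : ℝ) ^ dl' ≤ (N j : ℝ) ^ dl :=
              Real.rpow_le_rpow_of_exponent_le (hNr j) hdl'
          _ ≤ (a i₀ j : ℝ) ^ dl := Real.rpow_le_rpow (by linarith [hNr j]) h3 hdl.le
      rw [Nat.cast_sub (hlt k).le]
      linarith) (H j ^ c1) (by
      refine (haH j i₀).trans ?_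
      exact pow_le_pow_right₀ hH1 (le_max_right _ _)) (R j) hj0 (hRD j) (fun e =>
      (hRH j e).trans (pow_le_pow_right₀ hH1 (le_max_left _ _)))
  have h2 : (fun k : Fin m =>
      ((Real.log (1 + ((a (i₀.succAbove k) j - a i₀ j : ℕ) : ℝ) / (a i₀ j : ℝ)) : ℝ) : ℂ)) =
      w j := by
    funext k
    have h3 : (0 : ℝ) < a i₀ j := by linarith [ha1r j i₀]
    have h4 : (0 : ℝ) < a (i₀.succAbove k) j := by linarith [ha1r j (i₀.succAbove k)]
    have h5 : 1 + ((a (i₀.succAbove k) j - a i₀ j : ℕ) : ℝ) / (a i₀ j : ℝ) =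
        (a (i₀.succAbove k) j : ℝ) / a i₀ j := by
      rw [Nat.cast_sub (hlt k).le]
      field_simp
      ring
    rw [h5, Real.log_div h4.ne' h3.ne', hw]
    push_cast
    rfl
  rw [h2] at h1
  have h3 : (H j ^ c1) ^ CG ≤ H j ^ c2 := by
    rw [← Real.rpow_natCast, ← Real.rpow_mul hHp.le, ← Real.rpow_natCast]
    exact Real.rpow_le_rpow_of_exponent_le hH1 (Nat.le_ceil _)
  have h4 : (0 : ℝ) ≤ ‖MvPolynomial.aeval (w j) (R j)‖ := norm_nonneg _
  have h5 : 1 ≤ H j ^ c2 * ‖MvPolynomial.aeval (w j) (R j)‖ :=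
    h1.trans (mul_le_mul_of_nonneg_right h3 h4)
  rw [pow_succ] at hjs
  nlinarith

theorem pf_LCN (hPKG : T_PKG) (hEVP : T_EVP) (hCLR : T_CLR) (hGIN : T_GIN) (hRKN : T_RKN)
    (hMAT : T_MAT) : T_LCN := by
  classical
  intro r n d
  obtain ⟨M, D, hD⟩ := hMAT r n d
  choose dlf N1f Cf hdlf hCf hGf using fun m => hGIN m D
  obtain ⟨dl, hdl0, hdl⟩ : ∃ dl : ℝ, 0 < dl ∧ ∀ m ≤ M, dl ≤ dlf m := by
    refine ⟨(Finset.range (M + 1)).inf' ⟨0, by simp⟩ dlf, ?_, ?_⟩
    · rw [Finset.lt_inf'_iff]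
      intro m _
      exact hdlf m
    · intro m hm
      exact Finset.inf'_le _ (Finset.mem_range.2 (by omega))
  obtain ⟨N1, hN1M⟩ : ∃ N1 : ℕ, ∀ m ≤ M, N1f m ≤ N1 :=
    ⟨(Finset.range (M + 1)).sup N1f, fun m hm =>
      Finset.le_sup (f := N1f) (Finset.mem_range.2 (by omega))⟩
  refine ⟨min dl 1, N1, lt_min hdl0 one_pos, fun A => ?_⟩
  by_contra hcon
  push Not at hcon
  choose H hH2 ξ hξ N hN1 hN hNH hB using
    fun j : ℕ => hcon ((j : ℝ) + 1) (by positivity)
  obtain ⟨P⟩ := hPKG H hH2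
  -- the internal interval
  let S : Type := {a : ℕ → ℕ // ∀ j, N j ≤ a j ∧ (a j : ℝ) ≤ N j + (N j : ℝ) ^ (min dl 1)}
  let st : Setoid S :=
    { r := fun a b => ∀ᶠ j in (hyperfilter ℕ : Filter ℕ), a.1 j = b.1 j
      iseqv := by
        refine ⟨fun a => Filter.Eventually.of_forall fun j => rfl, fun {a b} h => ?_,
          fun {a b c} h1 h2 => ?_⟩
        · filter_upwards [h] with j hj using hj.symm
        · filter_upwards [h1, h2] with j hj1 hj2 using hj1.trans hj2 }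
  let α : Type := Quotient st
  let y : α → P.F := fun q => P.ev (fun j => ((Real.log ((Quotient.out q).1 j) : ℝ) : ℂ))
  have hne : ∀ q q' : α, q ≠ q' → ∀ᶠ j in (hyperfilter ℕ : Filter ℕ),
      (Quotient.out q).1 j ≠ (Quotient.out q').1 j := by
    intro q q' hqq
    refine Ultrafilter.eventually_not.2 ?_
    intro h
    apply hqq
    rw [← Quotient.out_eq q, ← Quotient.out_eq q']
    exact Quotient.sound h
  obtain ⟨B, hBcard, hBind⟩ := hD P.kk P.F (fun i => P.ev (fun j => ξ j i)) α y (by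
    intro m hm a ha
    obtain ⟨i₀, hi₀⟩ := exists_min_ev (fun i => (Quotient.out (a i)).1)
    refine ⟨i₀, fun Q hQ0 hQD => ?_⟩
    refine no_rel hEVP hCLR (hdlf m) ((min_le_left _ _).trans (hdl m hm)) (min_le_right _ _)
      (hGf m) P N (fun j => (hN1M m hm).trans (hN1 j)) hN hNH
      (fun i => (Quotient.out (a i)).1) (fun i j => (Quotient.out (a i)).2 j) ?_ i₀ hi₀ Q hQ0 hQD
    have h1 : ∀ i k : Fin (m + 1), ∀ᶠ j in (hyperfilter ℕ : Filter ℕ),
        ((Quotient.out (a i)).1 j = (Quotient.out (a k)).1 j → i = k) := by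
      intro i k
      by_cases hik : i = k
      · exact Filter.Eventually.of_forall fun j _ => hik
      · filter_upwards [hne (a i) (a k) (fun h => hik (ha h))] with j hj h
        exact absurd h hj
    have h2 : ∀ᶠ j in (hyperfilter ℕ : Filter ℕ), ∀ i k : Fin (m + 1),
        ((Quotient.out (a i)).1 j = (Quotient.out (a k)).1 j → i = k) :=
      Filter.eventually_all.2 fun i => Filter.eventually_all.2 fun k => h1 i k
    filter_upwards [h2] with j hj i k hik
    exact hj i k hik)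
  -- the exceptional integers at each scale
  have hcard : ∀ j, (B.image (fun q => (Quotient.out q).1 j)).card ≤ r + 1 := fun j =>
    Finset.card_image_le.trans hBcard
  choose a hainj haB haI habad using
    fun j => hB j (B.image (fun q => (Quotient.out q).1 j)) (hcard j)
  let A' : Fin n → S := fun i => ⟨fun j => a j i, fun j => haI j i⟩
  let qA : Fin n → α := fun i => Quotient.mk st (A' i)
  have hout : ∀ i, ∀ᶠ j in (hyperfilter ℕ : Filter ℕ),
      (Quotient.out (qA i)).1 j = a j i := fun i => Quotient.exact (Quotient.out_eq (qA i))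
  have hqinj : Function.Injective qA := by
    intro i k hik
    have h1 : ∀ᶠ j in (hyperfilter ℕ : Filter ℕ), a j i = a j k := Quotient.exact hik
    obtain ⟨j, hj⟩ := h1.exists
    exact hainj j hj
  have hqB : ∀ i, qA i ∉ B := by
    intro i hi
    obtain ⟨j, hj⟩ := (hout i).exists
    apply haB j i
    rw [← hj]
    exact Finset.mem_image_of_mem (fun q => (Quotient.out q).1 j) hi
  apply hBind qA hqinj hqB
  have ha1r : ∀ j i, (1 : ℝ) ≤ a j i := fun j i => by
    exact_mod_cast (hN j).trans (haI j i).1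
  have hzO : ∀ i, (fun j => ((Real.log (a j i) : ℝ) : ℂ)) ∈ P.O := by
    intro i
    refine P.mem_of_le 2 fun j => ?_
    rw [Complex.norm_real, Real.norm_eq_abs, abs_of_nonneg (Real.log_nonneg (ha1r j i))]
    have h1 := Real.log_le_sub_one_of_pos (by linarith [ha1r j i] : (0 : ℝ) < a j i)
    have h2 := (haI j i).2
    have h3 : (N j : ℝ) ^ (min dl 1) ≤ N j := by
      calc (N j : ℝ) ^ (min dl 1) ≤ (N j : ℝ) ^ (1 : ℝ) :=
            Real.rpow_le_rpow_of_exponent_le (by exact_mod_cast hN j) (min_le_right _ _)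
        _ = N j := Real.rpow_one _
    have h4 := hNH j
    have h5 := hH2 j
    nlinarith
  have hrel := hRKN H P r n d A ξ (fun j i => ((Real.log (a j i) : ℝ) : ℂ)) hξ hzO
    (Filter.Eventually.of_forall fun j => habad j)
  have hy : (fun i => y (qA i)) = fun i => P.ev (fun j => ((Real.log (a j i) : ℝ) : ℂ)) := by
    funext i
    refine ((P.ev_congr (hzO i) ?_).1).symm
    filter_upwards [hout i] with j hj
    rw [hj]
  rw [hy]
  exact hrel

end Pool.Agent.H72.PSV
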