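import Pool.Agent.H72.PSV.All
import Pool.Agent.H72.PSV.LCN
import Pool.Agent.H35.PSV.MAT
import Pool.Agent.H48.PSV.RPO
import Pool.Agent.H34.PSV.FCT
import Pool.Agent.H68.PSV.FST
import Pool.Agent.H68.PSV.FBS
import Pool.Agent.H68.PSV.RKN

/-!
Assembly of the board psv_modules (MP_3cf473_nt, PowerSaving), second part.
-/

set_option autoImplicit false

namespace Pool.Agent.H72.PSV

theorem matAll : T_MAT :=
  Pool.Agent.H35.PSV.MAT.pf_MAT Pool.Agent.H68.PSV.pf_FBS Pool.Agent.H68.PSV.pf_FST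
    Pool.Agent.H34.PSV.pf_FCT Pool.Agent.H48.PSV.pf_RPO

theorem lcnAll : T_LCN :=
  pf_LCN Pool.Agent.H29.BF.pkg Pool.Agent.H84.BF.evp Pool.Agent.H57.BF.clr
    Pool.Agent.H85.PS.All.tGIN (Pool.Agent.H68.PSV.pf_RKN Pool.Agent.H84.BF.evp) matAll

end Pool.Agent.H72.PSV
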