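import Pool.Agent.H72.PSV.Rel

/-!
# Power saving for the measure of algebraic independence of logarithms of integers, joined form

For almost all tuples there is no algebraic relation of degree at most `d` at all over `ξ`, and the
inequality of the problem holds for all heights up to a doubly exponential bound.
-/

set_option autoImplicit false

namespace Pool.Agent.H72.PSV.Rel

open MvPolynomial

/-- There is no polynomial relation of degree at most `d` with integer coefficients between `ξ` and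
`y`, except those which hold between the coordinates of `ξ`: `P(ξ, y) ≠ 0` for all integer
polynomials `P(X, Y)` of total degree at most `d` with `P(ξ, Y) ≠ 0`. -/
def NoRelation {r n : ℕ} (ξ : Fin r → ℂ) (d : ℕ) (y : Fin n → ℂ) : Prop :=
  ∀ P : MvPolynomial (Fin r ⊕ Fin n) ℤ, P.totalDegree ≤ d →
    aeval (Sum.elim (fun i => C (ξ i)) X : Fin r ⊕ Fin n → MvPolynomial (Fin n) ℂ) P ≠ 0 →
    aeval (Sum.elim ξ y) P ≠ 0

theorem noRelation_of {r n : ℕ} (ξ : Fin r → ℂ) (d : ℕ) (C' : ℝ) (y : Fin n → ℂ)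
    (h : ∀ h₀ : ℝ, ∃ H : ℝ, h₀ ≤ H ∧ ¬ Exceptional ξ d H 1 C' y) : NoRelation ξ d y := by
  intro P hP hne h0
  obtain ⟨e, he⟩ := MvPolynomial.ne_zero_iff.1 hne
  set c := coeff e (aeval (Sum.elim (fun i => C (ξ i)) X :
    Fin r ⊕ Fin n → MvPolynomial (Fin n) ℂ) P) with hc
  have hc0 : 0 < ‖c‖ := norm_pos_iff.2 he
  obtain ⟨H, hH, hnot⟩ := h (max (max 1 ‖c‖⁻¹) (∑ m ∈ P.support, |((coeff m P : ℤ) : ℝ)|))
  have hH1 : (1 : ℝ) ≤ H := ((le_max_left _ _).trans (le_max_left _ _)).trans hH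
  have hH2 : ‖c‖⁻¹ ≤ H := ((le_max_right _ _).trans (le_max_left _ _)).trans hH
  have hH3 := (le_max_right _ _).trans hH
  apply hnot
  refine ⟨P, hP, ?_, ?_, e, ?_⟩
  · intro m
    by_cases hm : m ∈ P.support
    · exact (Finset.single_le_sum (f := fun m => |((coeff m P : ℤ) : ℝ)|)
        (fun _ _ => abs_nonneg _) hm).trans hH3
    · rw [notMem_support_iff.1 hm]
      simp
      linarith
  · rw [h0, norm_zero]
    exact Real.rpow_pos_of_pos (by linarith) _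
  · rw [Real.rpow_neg_one]
    exact inv_le_of_inv_le₀ hc0 hH2

/-- one of finitely many sets occurs infinitely often -/
theorem pigeon {α : Type} (I : Finset α) (E : ℕ → Finset α) (hE : ∀ k, E k ⊆ I) :
    ∃ E₀, ∃ᶠ k : ℕ in Filter.atTop, E k = E₀ := by
  classical
  by_contra hcon
  have h3 : ∀ S ∈ I.powerset, ∀ᶠ K : ℕ in Filter.atTop, E K ≠ S := by
    intro S _
    by_contra hS
    exact hcon ⟨S, fun hS' => hS hS'⟩
  obtain ⟨K, hK⟩ := ((Filter.eventually_all_finset I.powerset).2 h3).exists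
  exact hK (E K) (Finset.mem_powerset.2 (hE K)) rfl

/-- all but few tuples in a box, no relations of degree at most `d` -/
theorem globalRel (hCNN : Pool.Agent.H72.PSV.T_CNN) (r n d : ℕ) :
    ∃ δ C₀ : ℝ, 0 < δ ∧ 0 < C₀ ∧ ∀ ξ : Fin r → ℂ, ∀ x : ℕ, 1 ≤ x →
      (Set.ncard {a : Fin n → ℕ | (∀ i, 1 ≤ a i ∧ a i ≤ x) ∧
        ¬ NoRelation ξ d (fun i => ((Real.log (a i) : ℝ) : ℂ))} : ℝ) ≤
        C₀ * (x : ℝ) ^ ((n : ℝ) - δ) := by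
  classical
  obtain ⟨δ, C₀, hδ, -, hC₀, h1⟩ := single hCNN r n d
  obtain ⟨C, hC, h2⟩ := h1 1 1
  refine ⟨δ, C₀, hδ, hC₀, fun ξ x hx => ?_⟩
  set M : ℝ := max (max 2 x) (∑ i, ‖ξ i‖) with hM
  have hM2 : 2 ≤ M := (le_max_left _ _).trans (le_max_left _ _)
  have hMx : (x : ℝ) ≤ M := (le_max_right _ _).trans (le_max_left _ _)
  have hMξ : ∀ i, ‖ξ i‖ ≤ M := fun i =>
    (Finset.single_le_sum (f := fun i => ‖ξ i‖) (fun _ _ => norm_nonneg _)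
      (Finset.mem_univ i)).trans (le_max_right _ _)
  have hmax : max (1 : ℝ) 1 = 1 := max_self _
  rw [hmax] at h2
  set Ω : Finset (Fin n → ℕ) := Fintype.piFinset (fun _ : Fin n => Finset.Icc 1 x) with hΩ
  set p : ℕ → (Fin n → ℕ) → Prop := fun k a => ∃ H : ℝ, (M + k) ≤ H ∧ H ≤ (M + k) ^ (1 : ℝ) ∧
    Exceptional ξ d H 1 C (fun i => ((Real.log (a i) : ℝ) : ℂ)) with hp
  have hcard : ∀ k, ((Ω.filter (p k)).card : ℝ) ≤ C₀ * (x : ℝ) ^ ((n : ℝ) - δ) := by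
    intro k
    have hk : (0 : ℝ) ≤ k := Nat.cast_nonneg _
    have h3 := h2 x hx (M + k) (by linarith) (by rw [Real.rpow_one]; linarith) ξ
      (fun i => by rw [Real.rpow_one]; linarith [hMξ i])
    rw [ncard_eq x (p k)] at h3
    exact h3
  obtain ⟨S, hS⟩ := pigeon Ω (fun k => Ω.filter (p k)) (fun k => Finset.filter_subset _ _)
  have hS1 : (S.card : ℝ) ≤ C₀ * (x : ℝ) ^ ((n : ℝ) - δ) := by
    obtain ⟨k, hk⟩ := hS.exists
    rw [← hk]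
    exact hcard k
  refine le_trans ?_ hS1
  have hsub : {a : Fin n → ℕ | (∀ i, 1 ≤ a i ∧ a i ≤ x) ∧
      ¬ NoRelation ξ d (fun i => ((Real.log (a i) : ℝ) : ℂ))} ⊆ (S : Set (Fin n → ℕ)) := by
    rintro a ⟨ha, hnot⟩
    by_contra haS
    apply hnot
    refine noRelation_of ξ d C _ fun h₀ => ?_
    obtain ⟨k, hk, hk0⟩ := (hS.and_eventually (Filter.eventually_ge_atTop ⌈h₀⌉₊)).exists
    have hk1 : h₀ ≤ k := (Nat.le_ceil _).trans (by exact_mod_cast hk0)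
    refine ⟨M + k, by linarith, fun hexc => ?_⟩
    apply haS
    rw [← hk]
    refine Finset.mem_coe.2 (Finset.mem_filter.2 ⟨?_, M + k, le_rfl, by rw [Real.rpow_one], hexc⟩)
    rw [hΩ, Fintype.mem_piFinset]
    exact fun i => Finset.mem_Icc.2 (ha i)
  have h4 := Set.ncard_le_ncard hsub (Finset.finite_toSet _)
  rw [Set.ncard_coe_finset] at h4
  exact_mod_cast h4

/-- Both parts for the same tuples. -/
theorem joined (hCNN : Pool.Agent.H72.PSV.T_CNN) (r n d : ℕ) : ∃ δ : ℝ, 0 < δ ∧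
    ∀ A : ℝ, ∃ C : ℝ, 0 < C ∧ ∀ x : ℕ, 1 ≤ x → ∀ ξ : Fin r → ℂ,
    (Set.ncard {a : Fin n → ℕ | (∀ i, 1 ≤ a i ∧ a i ≤ x) ∧
      (¬ NoRelation ξ d (fun i => ((Real.log (a i) : ℝ) : ℂ)) ∨
      ∃ H : ℝ, 2 ≤ H ∧ (∀ i, (a i : ℝ) ≤ H) ∧ (∃ i, Real.log (Real.log H) ≤ (a i : ℝ) ^ δ) ∧
        (∀ i, ‖ξ i‖ ≤ H ^ A) ∧
        Exceptional ξ d H A C (fun i => ((Real.log (a i) : ℝ) : ℂ)))} : ℝ) ≤
      C * (x : ℝ) ^ ((n : ℝ) - δ) := by
  classical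
  obtain ⟨δ₁, C₁, hδ₁, hC₁, h1⟩ := globalRel hCNN r n d
  obtain ⟨δ₂, hδ₂, h2⟩ := absoluteR hCNN r n d
  set δ : ℝ := min δ₁ δ₂ with hδdef
  have hδ : 0 < δ := lt_min hδ₁ hδ₂
  refine ⟨δ, hδ, fun A => ?_⟩
  obtain ⟨C₂, hC₂, h3⟩ := h2 A
  refine ⟨C₁ + C₂, by positivity, fun x hx ξ => ?_⟩
  have hx1 : (1 : ℝ) ≤ x := by exact_mod_cast hx
  have hx0 : (0 : ℝ) < x := by linarith
  set S₁ : Set (Fin n → ℕ) := {a : Fin n → ℕ | (∀ i, 1 ≤ a i ∧ a i ≤ x) ∧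
    ¬ NoRelation ξ d (fun i => ((Real.log (a i) : ℝ) : ℂ))} with hS₁
  set S₂ : Set (Fin n → ℕ) := {a : Fin n → ℕ | (∀ i, 1 ≤ a i ∧ a i ≤ x) ∧
      ∃ H : ℝ, 2 ≤ H ∧ (∀ i, (a i : ℝ) ≤ H) ∧ (∃ i, Real.log (Real.log H) ≤ (a i : ℝ) ^ δ₂) ∧
        (∀ i, ‖ξ i‖ ≤ H ^ A) ∧
        Exceptional ξ d H A C₂ (fun i => ((Real.log (a i) : ℝ) : ℂ))} with hS₂
  have hfin : ∀ S : Set (Fin n → ℕ), (∀ a ∈ S, ∀ i, 1 ≤ a i ∧ a i ≤ x) → S.Finite := by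
    intro S hS
    refine Set.Finite.subset (Fintype.piFinset (fun _ : Fin n => Finset.Icc 1 x)).finite_toSet ?_
    intro a ha
    rw [Finset.mem_coe, Fintype.mem_piFinset]
    intro i
    exact Finset.mem_Icc.2 (hS a ha i)
  have hsub : {a : Fin n → ℕ | (∀ i, 1 ≤ a i ∧ a i ≤ x) ∧
      (¬ NoRelation ξ d (fun i => ((Real.log (a i) : ℝ) : ℂ)) ∨
      ∃ H : ℝ, 2 ≤ H ∧ (∀ i, (a i : ℝ) ≤ H) ∧ (∃ i, Real.log (Real.log H) ≤ (a i : ℝ) ^ δ) ∧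
        (∀ i, ‖ξ i‖ ≤ H ^ A) ∧
        Exceptional ξ d H A (C₁ + C₂) (fun i => ((Real.log (a i) : ℝ) : ℂ)))} ⊆ S₁ ∪ S₂ := by
    rintro a ⟨ha, hor | ⟨H, hH2, haH, ⟨i, hi⟩, hξ, hexc⟩⟩
    · exact Or.inl ⟨ha, hor⟩
    · refine Or.inr ⟨ha, H, hH2, haH, ⟨i, hi.trans ?_⟩, hξ, hexc.mono hH2 le_rfl (by linarith)⟩
      refine Real.rpow_le_rpow_of_exponent_le ?_ (min_le_right _ _)
      exact_mod_cast (ha i).1
  have hU : (S₁ ∪ S₂).Finite := (hfin S₁ fun a ha => ha.1).union (hfin S₂ fun a ha => ha.1)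
  have h4 : (Set.ncard {a : Fin n → ℕ | (∀ i, 1 ≤ a i ∧ a i ≤ x) ∧
      (¬ NoRelation ξ d (fun i => ((Real.log (a i) : ℝ) : ℂ)) ∨
      ∃ H : ℝ, 2 ≤ H ∧ (∀ i, (a i : ℝ) ≤ H) ∧ (∃ i, Real.log (Real.log H) ≤ (a i : ℝ) ^ δ) ∧
        (∀ i, ‖ξ i‖ ≤ H ^ A) ∧
        Exceptional ξ d H A (C₁ + C₂) (fun i => ((Real.log (a i) : ℝ) : ℂ)))} : ℝ) ≤
      (S₁.ncard : ℝ) + (S₂.ncard : ℝ) := by
    have := (Set.ncard_le_ncard hsub hU).trans (Set.ncard_union_le S₁ S₂)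
    exact_mod_cast this
  have h5 : (S₁.ncard : ℝ) ≤ C₁ * (x : ℝ) ^ ((n : ℝ) - δ) := by
    refine (h1 ξ x hx).trans (mul_le_mul_of_nonneg_left ?_ hC₁.le)
    exact Real.rpow_le_rpow_of_exponent_le hx1 (by linarith [min_le_left δ₁ δ₂])
  have h6 : (S₂.ncard : ℝ) ≤ C₂ * (x : ℝ) ^ ((n : ℝ) - δ) := by
    refine (h3 x hx ξ).trans (mul_le_mul_of_nonneg_left ?_ hC₂.le)
    exact Real.rpow_le_rpow_of_exponent_le hx1 (by linarith [min_le_right δ₁ δ₂])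
  calc _ ≤ (S₁.ncard : ℝ) + (S₂.ncard : ℝ) := h4
    _ ≤ C₁ * (x : ℝ) ^ ((n : ℝ) - δ) + C₂ * (x : ℝ) ^ ((n : ℝ) - δ) := add_le_add h5 h6
    _ = (C₁ + C₂) * (x : ℝ) ^ ((n : ℝ) - δ) := by ring

end Pool.Agent.H72.PSV.Rel
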