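import Pool.Agent.H72.PSV.Main2

/-!
The final step of the board psv_modules (MP_3cf473_nt, PowerSaving): arbitrary sequences of scales.
-/

set_option autoImplicit false

namespace Pool.Agent.H72.PSV

open MvPolynomial

theorem scales (hCNN : T_CNN) (r n d : ℕ) : ∃ δ C₀ : ℝ, 0 < δ ∧ 0 < C₀ ∧ ∀ A B : ℝ,
    ∃ C : ℝ, 0 < C ∧ ∀ x : ℕ, 1 ≤ x →
    (∀ (h : ℝ) (ξ : Fin r → ℂ), 2 ≤ h → (x : ℝ) ≤ h → (∀ i, ‖ξ i‖ ≤ h ^ B) →
      (Set.ncard {a : Fin n → ℕ | (∀ i, 1 ≤ a i ∧ a i ≤ x) ∧ ∃ H : ℝ, h ≤ H ∧ H ≤ h ^ B ∧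
        Exceptional ξ d H A C (fun i => ((Real.log (a i) : ℝ) : ℂ))} : ℝ) ≤
        C₀ * (x : ℝ) ^ ((n : ℝ) - δ)) ∧
    (∀ (h : ℕ → ℝ) (ξ : ℕ → Fin r → ℂ), (∀ k, 2 ≤ h k) → (∀ k, (x : ℝ) ≤ h k) →
      (∀ k i, ‖ξ k i‖ ≤ h k ^ B) →
      ∃ G : Finset (Fin n → ℕ), (∀ a ∈ G, ∀ i, 1 ≤ a i ∧ a i ≤ x) ∧
        (1 - C₀ * (x : ℝ) ^ (-δ)) * (x : ℝ) ^ n ≤ (G.card : ℝ) ∧
        ∃ᶠ K : ℕ in Filter.atTop, ∀ a ∈ G,
          (Set.ncard {k : ℕ | k < K ∧ ∃ H : ℝ, h k ≤ H ∧ H ≤ h k ^ B ∧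
            Exceptional (ξ k) d H A C (fun i => ((Real.log (a i) : ℝ) : ℂ))} : ℝ) ≤
            (x : ℝ) ^ (-δ) * K) := by
  classical
  obtain ⟨δ, C₀, hδ, hδ1, hC₀, h1⟩ := single hCNN r n d
  refine ⟨δ / 2, C₀, by positivity, hC₀, fun A B => ?_⟩
  obtain ⟨C, hC, h2⟩ := h1 A B
  refine ⟨C, hC, fun x hx => ?_⟩
  have hx1 : (1 : ℝ) ≤ x := by exact_mod_cast hx
  have hx0 : (0 : ℝ) < x := by linarith
  have hB : ∀ h : ℝ, 2 ≤ h → h ^ B ≤ h ^ (max B 1) := fun h hh =>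
    Real.rpow_le_rpow_of_exponent_le (by linarith) (le_max_left _ _)
  have hS : ∀ (h : ℝ) (ξ : Fin r → ℂ), 2 ≤ h → (x : ℝ) ≤ h → (∀ i, ‖ξ i‖ ≤ h ^ B) →
      (Set.ncard {a : Fin n → ℕ | (∀ i, 1 ≤ a i ∧ a i ≤ x) ∧ ∃ H : ℝ, h ≤ H ∧ H ≤ h ^ B ∧
        Exceptional ξ d H A C (fun i => ((Real.log (a i) : ℝ) : ℂ))} : ℝ) ≤
        C₀ * (x : ℝ) ^ ((n : ℝ) - δ) := fun h ξ hh hxh hξ =>
    h2 x hx h hh (hxh.trans (le_up h B hh)) ξ fun i => (hξ i).trans (hB h hh)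
  refine ⟨fun h ξ hh hxh hξ => (hS h ξ hh hxh hξ).trans ?_, fun h ξ hh hxh hξ => ?_⟩
  · refine mul_le_mul_of_nonneg_left ?_ hC₀.le
    exact Real.rpow_le_rpow_of_exponent_le hx1 (by linarith)
  · set Ω : Finset (Fin n → ℕ) := Fintype.piFinset (fun _ : Fin n => Finset.Icc 1 x) with hΩ
    have hcard : (Ω.card : ℝ) = (x : ℝ) ^ n := by
      simp [hΩ, Fintype.card_piFinset]
    have hxd : (0 : ℝ) < (x : ℝ) ^ (-(δ / 2)) := Real.rpow_pos_of_pos hx0 _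
    obtain ⟨G, hG1, hG2, hG3⟩ := seq_gen Ω (C₀ * (x : ℝ) ^ (-δ)) (by positivity)
      (fun a k => ∃ H : ℝ, h k ≤ H ∧ H ≤ h k ^ B ∧
        Exceptional (ξ k) d H A C (fun i => ((Real.log (a i) : ℝ) : ℂ))) (fun k => by
        have h3 := hS (h k) (ξ k) (hh k) (hxh k) (hξ k)
        rw [hcard]
        have h4 : C₀ * (x : ℝ) ^ (-δ) * (x : ℝ) ^ n = C₀ * (x : ℝ) ^ ((n : ℝ) - δ) := by
          rw [mul_assoc, ← Real.rpow_natCast, ← Real.rpow_add hx0]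
          congr 2
          ring
        rw [h4]
        refine le_trans (le_of_eq ?_) h3
        simp only [hΩ, Fintype.mem_piFinset, Finset.mem_Icc]) (C₀ * (x : ℝ) ^ (-(δ / 2)))
      (by positivity)
    rw [hcard] at hG2
    refine ⟨G, fun a ha i => ?_, hG2, ?_⟩
    · have := hG1 ha
      rw [hΩ, Fintype.mem_piFinset] at this
      exact Finset.mem_Icc.1 (this i)
    · refine hG3.mono ?_
      intro K hK a ha
      have h5 := hK a ha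
      have h6 : C₀ * (x : ℝ) ^ (-δ) * K =
          C₀ * (x : ℝ) ^ (-(δ / 2)) * ((x : ℝ) ^ (-(δ / 2)) * K) := by
        have : (x : ℝ) ^ (-δ) = (x : ℝ) ^ (-(δ / 2)) * (x : ℝ) ^ (-(δ / 2)) := by
          rw [← Real.rpow_add hx0]
          congr 1
          ring
        rw [this]
        ring
      rw [h6] at h5
      exact le_of_mul_le_mul_left h5 (by positivity)

end Pool.Agent.H72.PSV
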