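import Pool.Agent.H72.PSV.LOC
import Pool.Agent.H72.PSV.Main3
import Pool.Agent.H27.PSV.ELI
import Pool.Agent.H81.PSV.CN1
import Pool.Agent.H81.PSV.CNN
import Pool.Agent.H57.BF.KK
import Pool.Agent.H85.PS.All

/-!
Assembly of the board psv_modules (MP_3cf473_nt, PowerSaving).
-/

set_option autoImplicit false

namespace Pool.Agent.H72.PSV

theorem locAll : T_LOC :=
  loc Pool.Agent.H29.BF.pkg Pool.Agent.H84.BF.evp Pool.Agent.H57.BF.clr
    Pool.Agent.H85.PS.All.tGIN Pool.Agent.H27.PSV.eli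

theorem cnnAll : T_CNN := Pool.Agent.H81.PSV.cnn (Pool.Agent.H81.PSV.cn1 locAll)

end Pool.Agent.H72.PSV
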