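import Pool.Agent.H72.PSV.All2

/-!
# The algebraic independence measure for logarithms of integers, up to a power saving

At every height `H ≥ N` all tuples of distinct integers `a i` in `[N, N + N ^ δ]`, with the exception
of those which contain one integer `b = b(H)`, satisfy the lower bound `H ^ (-C)` of the problem for
`(log a 1, ..., log a n)`, with `C` depending only on `n` and the degree.  Hence all but
`C x ^ (n - δ)` tuples of integers `a i ≤ x` satisfy it simultaneously for all heights from `max a i`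
up to `exp (exp ((max a i) ^ δ))`.  The same holds relative to arbitrary complex numbers
`ξ 1, ..., ξ r`, which may depend on the height, with `r + 1` exceptional integers.  In particular
(all heights) the other tuples satisfy no algebraic relation of degree at most `d` over `ξ`.
-/

set_option autoImplicit false

namespace Pool.Agent.H72.PSV.Kept

open MvPolynomial

/-- Some integer polynomial `P(X, Y)` in variables `X 1, ..., X r` and `Y 1, ..., Y n` of total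
degree at most `d` with coefficients of absolute value at most `H` has absolute value below
`H ^ (-B)` at the point `(ξ, y)`, although the polynomial `P(ξ, Y)` in `Y 1, ..., Y n` has a
coefficient of absolute value at least `H ^ (-A)`. -/
def Exceptional {r n : ℕ} (ξ : Fin r → ℂ) (d : ℕ) (H A B : ℝ) (y : Fin n → ℂ) : Prop :=
  ∃ P : MvPolynomial (Fin r ⊕ Fin n) ℤ, P.totalDegree ≤ d ∧
    (∀ e : Fin r ⊕ Fin n →₀ ℕ, |((coeff e P : ℤ) : ℝ)| ≤ H) ∧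
    ‖aeval (Sum.elim ξ y) P‖ < H ^ (-B) ∧
    ∃ e : Fin n →₀ ℕ, H ^ (-A) ≤ ‖coeff e (aeval (Sum.elim (fun i => C (ξ i)) X) P)‖

/-- `|P(y)| ≥ H ^ (-C)` for all nonzero integer polynomials `P` of total degree at most `d` with
coefficients of absolute value at most `H`. -/
def Good {n : ℕ} (d : ℕ) (H C : ℝ) (y : Fin n → ℝ) : Prop :=
  ∀ P : MvPolynomial (Fin n) ℤ, P ≠ 0 → P.totalDegree ≤ d →
    (∀ m : Fin n →₀ ℕ, |((coeff m P : ℤ) : ℝ)| ≤ H) → H ^ (-C) ≤ |aeval y P|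

theorem append_equiv {r n : ℕ} {α : Type} (u : Fin r → α) (v : Fin n → α) :
    Fin.append u v ∘ finSumFinEquiv = Sum.elim u v := by
  funext i
  cases i with
  | inl i => simp
  | inr i => simp

theorem bad_of_exc {r n : ℕ} (ξ : Fin r → ℂ) (d : ℕ) (H A B : ℝ) (hH : 2 ≤ H) (y : Fin n → ℂ)
    (h : Exceptional ξ d H A B y) : Pool.Agent.H72.BF.badRN ξ d A B H y := by
  have hpos : ∀ C : ℝ, (0 : ℝ) < H ^ C := fun C => Real.rpow_pos_of_pos (by linarith) C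
  obtain ⟨P, h1, h2, h3, e, h4⟩ := h
  refine ⟨rename finSumFinEquiv P, (totalDegree_rename_le _ _).trans h1, ?_, ?_, e, ?_⟩
  · intro m
    have h5 : m = (m.mapDomain finSumFinEquiv.symm).mapDomain finSumFinEquiv := by
      rw [← Finsupp.mapDomain_comp]
      simp
    rw [h5, coeff_rename_mapDomain _ finSumFinEquiv.injective]
    exact h2 _
  · rw [aeval_rename, append_equiv]
    rw [Real.rpow_neg (by linarith), ← one_div, lt_div_iff₀ (hpos B), mul_comm] at h3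
    exact h3
  · rw [aeval_rename, append_equiv]
    rw [Real.rpow_neg (by linarith), ← one_div, div_le_iff₀ (hpos A), mul_comm] at h4
    exact h4

/-- If a point is exceptional at a height `H` between `h` and `h ^ B`, it is exceptional at the
height `h ^ B`, for another exponent. -/
theorem exc_up {r n : ℕ} (ξ : Fin r → ℂ) (d : ℕ) (h H A B C : ℝ) (hh : 2 ≤ h) (hH : h ≤ H)
    (hHB : H ≤ h ^ B) (hB : 1 ≤ B) (hC : 0 ≤ C) (y : Fin n → ℂ)
    (hE : Exceptional ξ d H A (C * B) y) : Exceptional ξ d (h ^ B) (max A 0) C y := by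
  have hh0 : (0 : ℝ) ≤ h := by linarith
  have hh1 : (1 : ℝ) ≤ h := by linarith
  have hH0 : (0 : ℝ) < H := by linarith
  obtain ⟨P, h1, h2, h3, e, h4⟩ := hE
  refine ⟨P, h1, fun m => (h2 m).trans hHB, ?_, e, ?_⟩
  · refine lt_of_lt_of_le h3 ?_
    have h5 : (h ^ B) ^ (-C) = h ^ (-(C * B)) := by
      rw [← Real.rpow_mul hh0]
      congr 1
      ring
    rw [h5]
    refine Real.rpow_le_rpow_of_nonpos (by linarith) hH ?_
    have : 0 ≤ C * B := mul_nonneg hC (by linarith)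
    linarith
  · refine le_trans ?_ h4
    calc (h ^ B) ^ (-(max A 0)) ≤ H ^ (-(max A 0)) := by
          refine Real.rpow_le_rpow_of_nonpos hH0 hHB ?_
          have : 0 ≤ max A 0 := le_max_right _ _
          linarith
      _ ≤ H ^ (-A) := by
          refine Real.rpow_le_rpow_of_exponent_le (by linarith) ?_
          have : A ≤ max A 0 := le_max_left _ _
          linarith

theorem le_up (h B : ℝ) (hh : 2 ≤ h) : h ≤ h ^ (max B 1) := by
  calc h = h ^ (1 : ℝ) := (Real.rpow_one _).symm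
    _ ≤ h ^ (max B 1) := Real.rpow_le_rpow_of_exponent_le (by linarith) (le_max_right _ _)

theorem aeval_X_eq_map {n : ℕ} (P : MvPolynomial (Fin n) ℤ) :
    (aeval (X : Fin n → MvPolynomial (Fin n) ℂ) P) = map (Int.castRingHom ℂ) P := by
  induction P using MvPolynomial.induction_on with
  | C a => simp
  | add p q hp hq => rw [map_add, map_add, hp, hq]
  | mul_X p i hp => rw [map_mul, map_mul, hp, aeval_X, map_X]

theorem exc_of_not_good {n : ℕ} (d : ℕ) (H C : ℝ) (hH : 2 ≤ H) (y : Fin n → ℝ)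
    (h : ¬ Good d H C y) :
    Exceptional (fun i : Fin 0 => (0 : ℂ)) d H 0 C (fun i => ((y i : ℝ) : ℂ)) := by
  classical
  unfold Good at h
  push Not at h
  obtain ⟨P, hP0, hPd, hPH, hP⟩ := h
  set e : Fin 0 ⊕ Fin n ≃ Fin n := Equiv.emptySum (Fin 0) (Fin n) with he
  have hcomp : ∀ {α : Type} (u : Fin 0 → α) (v : Fin n → α), Sum.elim u v ∘ e.symm = v := by
    intro α u v
    funext i
    simp [he]
  refine ⟨rename e.symm P, (totalDegree_rename_le _ _).trans hPd, ?_, ?_, ?_⟩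
  · intro m
    have h5 : m = (m.mapDomain e).mapDomain e.symm := by
      rw [← Finsupp.mapDomain_comp]
      simp
    rw [h5, coeff_rename_mapDomain _ e.symm.injective]
    exact hPH _
  · rw [aeval_rename, hcomp]
    have h1 : aeval (fun i => ((y i : ℝ) : ℂ)) P = ((aeval y P : ℝ) : ℂ) :=
      MvPolynomial.aeval_algebraMap_apply (A := ℝ) ℂ y P
    rw [h1, Complex.norm_real, Real.norm_eq_abs]
    exact hP
  · obtain ⟨m, hm⟩ := MvPolynomial.ne_zero_iff.1 hP0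
    refine ⟨m, ?_⟩
    rw [aeval_rename, hcomp, aeval_X_eq_map, coeff_map]
    simp only [neg_zero, Real.rpow_zero, eq_intCast, Complex.norm_intCast]
    exact_mod_cast Int.one_le_abs hm

/-- the relative theorem for one range of heights -/
theorem single (hCNN : Pool.Agent.H72.PSV.T_CNN) (r n d : ℕ) : ∃ δ C₀ : ℝ, 0 < δ ∧ δ ≤ 1 ∧ 0 < C₀ ∧
    ∀ A B : ℝ, ∃ C : ℝ, 0 < C ∧ ∀ x : ℕ, 1 ≤ x → ∀ h : ℝ, 2 ≤ h → (x : ℝ) ≤ h ^ (max B 1) →
    ∀ ξ : Fin r → ℂ, (∀ i, ‖ξ i‖ ≤ h ^ (max B 1)) →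
    (Set.ncard {a : Fin n → ℕ | (∀ i, 1 ≤ a i ∧ a i ≤ x) ∧ ∃ H : ℝ, h ≤ H ∧ H ≤ h ^ B ∧
      Exceptional ξ d H A C (fun i => ((Real.log (a i) : ℝ) : ℂ))} : ℝ) ≤
      C₀ * (x : ℝ) ^ ((n : ℝ) - δ) := by
  obtain ⟨δ, C₀, hδ, hδ1, hC₀, h1⟩ := hCNN r n d
  refine ⟨δ, C₀, hδ, hδ1, hC₀, fun A B => ?_⟩
  obtain ⟨C, hC, h2⟩ := h1 (max A 0)
  refine ⟨C * max B 1, mul_pos hC (lt_max_of_lt_right one_pos), fun x hx h hh hxh ξ hξ => ?_⟩
  refine le_trans ?_ (h2 x hx (h ^ (max B 1)) (hh.trans (le_up _ B hh)) hxh ξ hξ)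
  have hfin : Set.Finite {a : Fin n → ℕ | (∀ i, 1 ≤ a i ∧ a i ≤ x) ∧
      Pool.Agent.H72.BF.badRN ξ d (max A 0) C (h ^ (max B 1))
        (fun i => ((Real.log (a i) : ℝ) : ℂ))} := by
    refine Set.Finite.subset (Fintype.piFinset (fun _ : Fin n => Finset.Icc 1 x)).finite_toSet ?_
    intro a ha
    rw [Finset.mem_coe, Fintype.mem_piFinset]
    intro i
    exact Finset.mem_Icc.2 (ha.1 i)
  refine Nat.cast_le.2 (Set.ncard_le_ncard ?_ hfin)
  rintro a ⟨ha1, H, hH1, hH2, hexc⟩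
  refine ⟨ha1, bad_of_exc _ _ _ _ _ (hh.trans (le_up _ B hh)) _ ?_⟩
  refine exc_up ξ d h H A (max B 1) C hh hH1 (hH2.trans ?_) (le_max_right _ _) hC.le _ hexc
  exact Real.rpow_le_rpow_of_exponent_le (by linarith) (le_max_left _ _)

theorem ncard_eq {n : ℕ} (x : ℕ) (p : (Fin n → ℕ) → Prop) [DecidablePred p] :
    Set.ncard {a : Fin n → ℕ | (∀ i, 1 ≤ a i ∧ a i ≤ x) ∧ p a} =
      ((Fintype.piFinset (fun _ : Fin n => Finset.Icc 1 x)).filter p).card := by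
  rw [← Set.ncard_coe_finset]
  congr 1
  ext a
  simp [Fintype.mem_piFinset]

theorem log_four_gt : (1 : ℝ) < Real.log 4 := by
  have h1 : Real.log 4 = 2 * Real.log 2 := by
    rw [show (4 : ℝ) = 2 ^ 2 by norm_num, Real.log_pow]
    norm_num
  have := Real.log_two_gt_d9
  linarith

/-- one dyadic range of tuples, all heights up to `exp (exp (X ^ δ))` -/
theorem dyadic (hCNN : Pool.Agent.H72.PSV.T_CNN) (n d : ℕ) : ∃ C₁ C δ : ℝ, 0 < C₁ ∧ 0 < C ∧ 0 < δ ∧ δ ≤ 1 ∧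
    ∀ x : ℕ, 1 ≤ x →
    (Set.ncard {a : Fin n → ℕ | (∀ i, 1 ≤ a i ∧ a i ≤ x) ∧ ∃ H : ℝ, 2 ≤ H ∧ (x : ℝ) ≤ 2 * H ∧
      Real.log (Real.log H) ≤ (x : ℝ) ^ δ ∧ ¬ Good d H C (fun i => Real.log (a i))} : ℝ) ≤
      C₁ * (x : ℝ) ^ ((n : ℝ) - δ) := by
  classical
  obtain ⟨δ₀, C₀, hδ₀, hδ₁, hC₀, h1⟩ := single hCNN 0 n d
  obtain ⟨C, hC, h2⟩ := h1 0 2
  have hmax : max (2 : ℝ) 1 = 2 := by norm_num
  rw [hmax] at h2
  refine ⟨8 ^ (n + 1) + 3 * C₀, C, δ₀ / 2, by positivity, hC, by positivity, by linarith, ?_⟩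
  intro x hx
  have hx1 : (1 : ℝ) ≤ x := by exact_mod_cast hx
  have hx0 : (0 : ℝ) < x := by linarith
  set Ω : Finset (Fin n → ℕ) := Fintype.piFinset (fun _ : Fin n => Finset.Icc 1 x) with hΩ
  set p : (Fin n → ℕ) → Prop := fun a => ∃ H : ℝ, 2 ≤ H ∧ (x : ℝ) ≤ 2 * H ∧
      Real.log (Real.log H) ≤ (x : ℝ) ^ (δ₀ / 2) ∧
      ¬ Good d H C (fun i => Real.log (a i)) with hp
  rw [ncard_eq x p]
  rcases lt_or_ge x 8 with hx8 | hx8
  · -- small `x`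
    have h3 : ((Ω.filter p).card : ℝ) ≤ (x : ℝ) ^ n := by
      have h4 : (Ω.filter p).card ≤ Ω.card := Finset.card_filter_le _ _
      have h5 : Ω.card = x ^ n := by simp [hΩ, Fintype.card_piFinset]
      rw [h5] at h4
      exact_mod_cast h4
    have hx8' : (x : ℝ) ≤ 8 := by exact_mod_cast hx8.le
    have h6 : (x : ℝ) ^ n ≤ 8 ^ n := pow_le_pow_left₀ hx0.le hx8' n
    have h7 : (8 : ℝ)⁻¹ ≤ (x : ℝ) ^ ((n : ℝ) - δ₀ / 2) := by
      calc (8 : ℝ)⁻¹ ≤ (x : ℝ)⁻¹ := inv_anti₀ hx0 hx8'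
        _ = (x : ℝ) ^ (-1 : ℝ) := (Real.rpow_neg_one _).symm
        _ ≤ (x : ℝ) ^ ((n : ℝ) - δ₀ / 2) := by
          refine Real.rpow_le_rpow_of_exponent_le hx1 ?_
          have : (0 : ℝ) ≤ n := Nat.cast_nonneg _
          linarith
    calc ((Ω.filter p).card : ℝ) ≤ 8 ^ n := h3.trans h6
      _ = 8 ^ (n + 1) * (8 : ℝ)⁻¹ := by rw [pow_succ]; field_simp
      _ ≤ 8 ^ (n + 1) * (x : ℝ) ^ ((n : ℝ) - δ₀ / 2) :=
          mul_le_mul_of_nonneg_left h7 (by positivity)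
      _ ≤ (8 ^ (n + 1) + 3 * C₀) * (x : ℝ) ^ ((n : ℝ) - δ₀ / 2) := by
          refine mul_le_mul_of_nonneg_right ?_ (Real.rpow_nonneg hx0.le _)
          linarith
  · -- large `x`
    have hx8' : (8 : ℝ) ≤ x := by exact_mod_cast hx8
    set y : ℝ := (x : ℝ) / 2 with hy
    have hy4 : (4 : ℝ) ≤ y := by rw [hy]; linarith
    have hlogy : 1 < Real.log y :=
      log_four_gt.trans_le (Real.log_le_log (by norm_num) hy4)
    set K : ℕ := ⌊2 * (x : ℝ) ^ (δ₀ / 2)⌋₊ + 1 with hK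
    have hxd : (1 : ℝ) ≤ (x : ℝ) ^ (δ₀ / 2) := Real.one_le_rpow hx1 (by positivity)
    have hK3 : (K : ℝ) ≤ 3 * (x : ℝ) ^ (δ₀ / 2) := by
      have h3 : ((⌊2 * (x : ℝ) ^ (δ₀ / 2)⌋₊ : ℕ) : ℝ) ≤ 2 * (x : ℝ) ^ (δ₀ / 2) :=
        Nat.floor_le (by positivity)
      rw [hK]
      push_cast
      linarith
    set h : ℕ → ℝ := fun j => y ^ (2 ^ j : ℕ) with hh
    have hh1 : ∀ j, y ≤ h j := by
      intro j
      calc y = y ^ 1 := (pow_one y).symm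
        _ ≤ y ^ (2 ^ j : ℕ) := pow_le_pow_right₀ (by linarith) Nat.one_le_two_pow
    set q : ℕ → (Fin n → ℕ) → Prop := fun j a => ∃ H : ℝ, h j ≤ H ∧ H ≤ h j ^ (2 : ℝ) ∧
      Exceptional (fun i : Fin 0 => (0 : ℂ)) d H 0 C (fun i => ((Real.log (a i) : ℝ) : ℂ)) with hq
    have hqj : ∀ j, ((Ω.filter (q j)).card : ℝ) ≤ C₀ * (x : ℝ) ^ ((n : ℝ) - δ₀) := by
      intro j
      have h3 := h2 x hx (h j) (by linarith [hh1 j]) (by
        have h4 := hh1 j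
        rw [Real.rpow_two]
        nlinarith) (fun i : Fin 0 => (0 : ℂ)) (fun i => i.elim0)
      rw [ncard_eq x (q j)] at h3
      exact h3
    have hsub : Ω.filter p ⊆ (Finset.range K).biUnion (fun j => Ω.filter (q j)) := by
      intro a ha
      rw [Finset.mem_filter] at ha
      obtain ⟨haΩ, H, hH2, hxH, hHx, hbad⟩ := ha
      have hyH : y ≤ H := by rw [hy]; linarith
      have hlogH : Real.log y ≤ Real.log H := Real.log_le_log (by linarith) hyH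
      have hlogH1 : 1 < Real.log H := hlogy.trans_le hlogH
      obtain ⟨j, hj1, hj2⟩ := exists_nat_pow_near
        ((one_le_div (by linarith)).2 hlogH : (1 : ℝ) ≤ Real.log H / Real.log y)
        (by norm_num : (1 : ℝ) < 2)
      rw [le_div_iff₀ (by linarith)] at hj1
      rw [div_lt_iff₀ (by linarith)] at hj2
      have hj1' : h j ≤ H := by
        rw [← Real.log_le_log_iff (by linarith [hh1 j]) (by linarith), hh]
        simp only
        rw [Real.log_pow]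
        push_cast
        exact hj1
      have hj2' : H ≤ h j ^ (2 : ℝ) := by
        have h5 : h j ^ (2 : ℝ) = y ^ (2 ^ (j + 1) : ℕ) := by
          rw [Real.rpow_two, hh]
          simp only
          rw [← pow_mul, pow_succ]
        rw [h5, ← Real.log_le_log_iff (by linarith) (by positivity), Real.log_pow]
        push_cast
        exact hj2.le
      have hjK : j < K := by
        have h6 : (2 : ℝ) ^ j ≤ Real.log H := by
          refine le_trans ?_ hj1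
          nlinarith [pow_pos (by norm_num : (0 : ℝ) < 2) j]
        have h7 : (j : ℝ) * Real.log 2 ≤ Real.log (Real.log H) := by
          rw [← Real.log_pow]
          exact Real.log_le_log (by positivity) h6
        have h8 := Real.log_two_gt_d9
        have h9 : (j : ℝ) ≤ 2 * (x : ℝ) ^ (δ₀ / 2) := by
          have : (0 : ℝ) ≤ j := Nat.cast_nonneg _
          nlinarith
        rw [hK]
        exact Nat.lt_succ_of_le (Nat.le_floor h9)
      rw [Finset.mem_biUnion]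
      refine ⟨j, Finset.mem_range.2 hjK, Finset.mem_filter.2 ⟨haΩ, H, hj1', hj2', ?_⟩⟩
      exact exc_of_not_good d H C hH2 _ hbad
    have h10 : ((Ω.filter p).card : ℝ) ≤ ∑ j ∈ Finset.range K, ((Ω.filter (q j)).card : ℝ) := by
      have := (Finset.card_le_card hsub).trans Finset.card_biUnion_le
      exact_mod_cast this
    calc ((Ω.filter p).card : ℝ) ≤ ∑ j ∈ Finset.range K, ((Ω.filter (q j)).card : ℝ) := h10
      _ ≤ ∑ _j ∈ Finset.range K, C₀ * (x : ℝ) ^ ((n : ℝ) - δ₀) :=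
          Finset.sum_le_sum fun j _ => hqj j
      _ = K * (C₀ * (x : ℝ) ^ ((n : ℝ) - δ₀)) := by
          rw [Finset.sum_const, Finset.card_range, nsmul_eq_mul]
      _ ≤ (3 * (x : ℝ) ^ (δ₀ / 2)) * (C₀ * (x : ℝ) ^ ((n : ℝ) - δ₀)) :=
          mul_le_mul_of_nonneg_right hK3 (by positivity)
      _ = 3 * C₀ * ((x : ℝ) ^ (δ₀ / 2) * (x : ℝ) ^ ((n : ℝ) - δ₀)) := by ring
      _ = 3 * C₀ * (x : ℝ) ^ ((n : ℝ) - δ₀ / 2) := by
          rw [← Real.rpow_add hx0]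
          congr 2
          ring
      _ ≤ (8 ^ (n + 1) + 3 * C₀) * (x : ℝ) ^ ((n : ℝ) - δ₀ / 2) := by
          refine mul_le_mul_of_nonneg_right ?_ (Real.rpow_nonneg hx0.le _)
          have : (0 : ℝ) < 8 ^ (n + 1) := by positivity
          linarith

theorem Good.mono {n : ℕ} {d : ℕ} {H C C' : ℝ} {y : Fin n → ℝ} (h : Good d H C y) (hH : 2 ≤ H)
    (hC : C ≤ C') : Good d H C' y := by
  intro P h1 h2 h3
  refine le_trans ?_ (h P h1 h2 h3)
  exact Real.rpow_le_rpow_of_exponent_le (by linarith) (by linarith)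

/-- the absolute theorem: one exceptional set of tuples -/
theorem absolute (hCNN : Pool.Agent.H72.PSV.T_CNN) (n d : ℕ) : ∃ C δ : ℝ, 0 < C ∧ 0 < δ ∧ ∀ x : ℕ, 1 ≤ x →
    (Set.ncard {a : Fin n → ℕ | (∀ i, 1 ≤ a i ∧ a i ≤ x) ∧
      ∃ H : ℝ, 2 ≤ H ∧ (∀ i, (a i : ℝ) ≤ H) ∧ (∃ i, Real.log (Real.log H) ≤ (a i : ℝ) ^ δ) ∧
        ¬ Good d H C (fun i => Real.log (a i))} : ℝ) ≤ C * (x : ℝ) ^ ((n : ℝ) - δ) := by
  classical
  obtain ⟨C₁, C, δ, hC₁, hC, hδ, hδ1, h1⟩ := dyadic hCNN n d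
  -- number of dyadic ranges
  set M : ℝ := 1 + 2 * (δ / 2)⁻¹ with hM
  have hδ2 : 0 < δ / 2 := by positivity
  have hMpos : 0 < M := by positivity
  set C₂ : ℝ := M * C₁ * 2 ^ (n : ℝ) with hC₂
  have hC₂pos : 0 < C₂ := by positivity
  refine ⟨max C C₂, δ / 2, lt_max_of_lt_left hC, hδ2, ?_⟩
  intro x hx
  have hx1 : (1 : ℝ) ≤ x := by exact_mod_cast hx
  have hx0 : (0 : ℝ) < x := by linarith
  have hxpow : (0 : ℝ) ≤ (x : ℝ) ^ ((n : ℝ) - δ / 2) := Real.rpow_nonneg hx0.le _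
  set Ω : ℕ → Finset (Fin n → ℕ) := fun x => Fintype.piFinset (fun _ : Fin n => Finset.Icc 1 x)
    with hΩ
  set p : (Fin n → ℕ) → Prop := fun a => ∃ H : ℝ, 2 ≤ H ∧ (∀ i, (a i : ℝ) ≤ H) ∧
    (∃ i, Real.log (Real.log H) ≤ (a i : ℝ) ^ (δ / 2)) ∧
        ¬ Good d H (max C C₂) (fun i => Real.log (a i)) with hp
  rw [ncard_eq x p]
  rcases Nat.eq_zero_or_pos n with hn | hn
  · have h3 : (Fintype.piFinset (fun _ : Fin n => Finset.Icc 1 x)).filter p = ∅ := by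
      refine Finset.filter_eq_empty_iff.2 ?_
      rintro a - ⟨H, -, -, ⟨i, -⟩, -⟩
      subst hn
      exact i.elim0
    rw [h3]
    simp only [Finset.card_empty, Nat.cast_zero]
    exact mul_nonneg (hC.le.trans (le_max_left _ _)) hxpow
  · set q : ℕ → (Fin n → ℕ) → Prop := fun k a => ∃ H : ℝ, 2 ≤ H ∧
      ((2 ^ (k + 1) : ℕ) : ℝ) ≤ 2 * H ∧
      Real.log (Real.log H) ≤ ((2 ^ (k + 1) : ℕ) : ℝ) ^ δ ∧
      ¬ Good d H C (fun i => Real.log (a i)) with hq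
    have hqk : ∀ k, (((Ω (2 ^ (k + 1))).filter (q k)).card : ℝ) ≤
        C₁ * ((2 ^ (k + 1) : ℕ) : ℝ) ^ ((n : ℝ) - δ) := by
      intro k
      have h3 := h1 (2 ^ (k + 1)) Nat.one_le_two_pow
      rw [ncard_eq (2 ^ (k + 1)) (q k)] at h3
      exact h3
    set K : ℕ := Nat.log 2 x + 1 with hK
    have hsub : (Ω x).filter p ⊆
        (Finset.range K).biUnion (fun k => (Ω (2 ^ (k + 1))).filter (q k)) := by
      intro a ha
      rw [Finset.mem_filter] at ha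
      obtain ⟨haΩ, H, hH2, haH, ⟨i₀, hi₀⟩, hbad⟩ := ha
      rw [hΩ, Fintype.mem_piFinset] at haΩ
      have : Nonempty (Fin n) := ⟨i₀⟩
      obtain ⟨i₁, hi₁⟩ := Finite.exists_max a
      set m : ℕ := a i₁ with hm
      have hm1 : 1 ≤ m := (Finset.mem_Icc.1 (haΩ i₁)).1
      have hmx : m ≤ x := (Finset.mem_Icc.1 (haΩ i₁)).2
      set k : ℕ := Nat.log 2 m with hk
      have hk1 : 2 ^ k ≤ m := Nat.pow_log_le_self 2 (by omega)
      have hk2 : m < 2 ^ (k + 1) := Nat.lt_pow_succ_log_self (by norm_num) m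
      have hkK : k < K := by
        have : k ≤ Nat.log 2 x := Nat.log_mono_right hmx
        omega
      rw [Finset.mem_biUnion]
      refine ⟨k, Finset.mem_range.2 hkK, Finset.mem_filter.2 ⟨?_, H, hH2, ?_, ?_, ?_⟩⟩
      · rw [hΩ, Fintype.mem_piFinset]
        intro i
        exact Finset.mem_Icc.2 ⟨(Finset.mem_Icc.1 (haΩ i)).1, (hi₁ i).trans hk2.le⟩
      · have h3 : ((2 ^ (k + 1) : ℕ) : ℝ) ≤ 2 * (m : ℝ) := by
          have : 2 ^ (k + 1) ≤ 2 * m := by rw [pow_succ]; omega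
          exact_mod_cast this
        have h4 := haH i₁
        linarith
      · refine hi₀.trans ?_
        have h5 : (a i₀ : ℝ) ≤ ((2 ^ (k + 1) : ℕ) : ℝ) := by
          exact_mod_cast (hi₁ i₀).trans hk2.le
        have h6 : (1 : ℝ) ≤ ((2 ^ (k + 1) : ℕ) : ℝ) := by
          exact_mod_cast (Nat.one_le_two_pow : 1 ≤ 2 ^ (k + 1))
        calc (a i₀ : ℝ) ^ (δ / 2) ≤ ((2 ^ (k + 1) : ℕ) : ℝ) ^ (δ / 2) :=
              Real.rpow_le_rpow (Nat.cast_nonneg _) h5 hδ2.le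
          _ ≤ ((2 ^ (k + 1) : ℕ) : ℝ) ^ δ :=
              Real.rpow_le_rpow_of_exponent_le h6 (by linarith)
      · intro hg
        exact hbad (hg.mono hH2 (le_max_left _ _))
    have hnd : (0 : ℝ) ≤ (n : ℝ) - δ := by
      have : (1 : ℝ) ≤ n := by exact_mod_cast hn
      linarith
    have hqk2 : ∀ k ∈ Finset.range K, (((Ω (2 ^ (k + 1))).filter (q k)).card : ℝ) ≤
        C₁ * (2 ^ (n : ℝ) * (x : ℝ) ^ ((n : ℝ) - δ)) := by
      intro k hk
      refine (hqk k).trans (mul_le_mul_of_nonneg_left ?_ hC₁.le)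
      have h3 : 2 ^ k ≤ x := by
        have h4 : k ≤ Nat.log 2 x := by
          have := Finset.mem_range.1 hk
          omega
        exact (Nat.pow_le_pow_right (by norm_num) h4).trans (Nat.pow_log_le_self 2 (by omega))
      have h5 : ((2 ^ (k + 1) : ℕ) : ℝ) ≤ 2 * (x : ℝ) := by
        have : 2 ^ (k + 1) ≤ 2 * x := by rw [pow_succ]; omega
        exact_mod_cast this
      calc ((2 ^ (k + 1) : ℕ) : ℝ) ^ ((n : ℝ) - δ) ≤ (2 * (x : ℝ)) ^ ((n : ℝ) - δ) :=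
            Real.rpow_le_rpow (Nat.cast_nonneg _) h5 hnd
        _ = 2 ^ ((n : ℝ) - δ) * (x : ℝ) ^ ((n : ℝ) - δ) :=
            Real.mul_rpow (by norm_num) hx0.le
        _ ≤ 2 ^ (n : ℝ) * (x : ℝ) ^ ((n : ℝ) - δ) := by
            refine mul_le_mul_of_nonneg_right ?_ (Real.rpow_nonneg hx0.le _)
            exact Real.rpow_le_rpow_of_exponent_le (by norm_num) (by linarith)
    have hKM : (K : ℝ) ≤ M * (x : ℝ) ^ (δ / 2) := by
      have h3 : (Nat.log 2 x : ℝ) * Real.log 2 ≤ Real.log x := by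
        have h4 : ((2 ^ Nat.log 2 x : ℕ) : ℝ) ≤ x := by
          exact_mod_cast Nat.pow_log_le_self 2 (by omega)
        have h5 := Real.log_le_log (by positivity) h4
        rw [Nat.cast_pow, Real.log_pow] at h5
        exact_mod_cast h5
      have h6 := Real.log_le_rpow_div hx0.le hδ2
      have h7 := Real.log_two_gt_d9
      have h8 : (0 : ℝ) ≤ (Nat.log 2 x : ℝ) := Nat.cast_nonneg _
      have h9 : (1 : ℝ) ≤ (x : ℝ) ^ (δ / 2) := Real.one_le_rpow hx1 hδ2.le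
      have h10 : (Nat.log 2 x : ℝ) ≤ 2 * ((x : ℝ) ^ (δ / 2) / (δ / 2)) := by nlinarith
      rw [hK, hM]
      push_cast
      have h11 : 2 * ((x : ℝ) ^ (δ / 2) / (δ / 2)) = 2 * (δ / 2)⁻¹ * (x : ℝ) ^ (δ / 2) := by
        rw [div_eq_mul_inv]
        ring
      rw [h11] at h10
      linarith
    have h12 : ((((Ω x).filter p)).card : ℝ) ≤
        ∑ k ∈ Finset.range K, (((Ω (2 ^ (k + 1))).filter (q k)).card : ℝ) := by
      have := (Finset.card_le_card hsub).trans Finset.card_biUnion_le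
      exact_mod_cast this
    calc ((((Ω x).filter p)).card : ℝ)
        ≤ ∑ k ∈ Finset.range K, (((Ω (2 ^ (k + 1))).filter (q k)).card : ℝ) := h12
      _ ≤ ∑ _k ∈ Finset.range K, C₁ * (2 ^ (n : ℝ) * (x : ℝ) ^ ((n : ℝ) - δ)) :=
          Finset.sum_le_sum hqk2
      _ = K * (C₁ * (2 ^ (n : ℝ) * (x : ℝ) ^ ((n : ℝ) - δ))) := by
          rw [Finset.sum_const, Finset.card_range, nsmul_eq_mul]
      _ ≤ (M * (x : ℝ) ^ (δ / 2)) * (C₁ * (2 ^ (n : ℝ) * (x : ℝ) ^ ((n : ℝ) - δ))) :=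
          mul_le_mul_of_nonneg_right hKM (by positivity)
      _ = C₂ * ((x : ℝ) ^ (δ / 2) * (x : ℝ) ^ ((n : ℝ) - δ)) := by rw [hC₂]; ring
      _ = C₂ * (x : ℝ) ^ ((n : ℝ) - δ / 2) := by
          rw [← Real.rpow_add hx0]
          congr 2
          ring
      _ ≤ max C C₂ * (x : ℝ) ^ ((n : ℝ) - δ / 2) :=
          mul_le_mul_of_nonneg_right (le_max_right _ _) hxpow

/-- short intervals, one range of heights -/
theorem localSingle (hLCN : Pool.Agent.H72.PSV.T_LCN) (r n d : ℕ) : ∃ (δ : ℝ) (N₁ : ℕ), 0 < δ ∧ 1 ≤ N₁ ∧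
    ∀ A B : ℝ, ∃ C : ℝ, 0 < C ∧ ∀ N : ℕ, N₁ ≤ N → ∀ (h : ℝ) (ξ : Fin r → ℂ), 2 ≤ h →
    (N : ℝ) ≤ h → (∀ i, ‖ξ i‖ ≤ h ^ B) →
    ∃ E : Finset ℕ, E.card ≤ r + 1 ∧ ∀ a : Fin n → ℕ, Function.Injective a →
      (∀ i, a i ∉ E ∧ N ≤ a i ∧ (a i : ℝ) ≤ N + (N : ℝ) ^ δ) →
      ∀ H : ℝ, h ≤ H → H ≤ h ^ B →
        ¬ Exceptional ξ d H A C (fun i => ((Real.log (a i) : ℝ) : ℂ)) := by
  obtain ⟨δ, N₁, hδ, h1⟩ := hLCN r n d
  refine ⟨δ, max N₁ 1, hδ, le_max_right _ _, fun A B => ?_⟩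
  obtain ⟨C, hC, h2⟩ := h1 (max A 0)
  refine ⟨C * max B 1, mul_pos hC (lt_max_of_lt_right one_pos), fun N hN h ξ hh hNh hξ => ?_⟩
  have hB : h ^ B ≤ h ^ (max B 1) :=
    Real.rpow_le_rpow_of_exponent_le (by linarith) (le_max_left _ _)
  obtain ⟨E, hE, h3⟩ := h2 (h ^ (max B 1)) (hh.trans (le_up _ B hh)) ξ
    (fun i => (hξ i).trans hB) N ((le_max_left _ _).trans hN) ((le_max_right _ _).trans hN)
    (hNh.trans (le_up _ B hh))
  refine ⟨E, hE, fun a hainj ha H hH1 hH2 hexc => ?_⟩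
  refine h3 a hainj (fun i => (ha i).1) (fun i => (ha i).2) ?_
  refine bad_of_exc _ _ _ _ _ (hh.trans (le_up _ B hh)) _ ?_
  exact exc_up ξ d h H A (max B 1) C hh hH1 (hH2.trans hB) (le_max_right _ _) hC.le _ hexc

/-- the doubly exponential range of heights is covered by few ranges `[y ^ (2 ^ j), y ^ (2 ^ j * 2)]` -/
theorem scale_of {y H T : ℝ} (hy : 4 ≤ y) (hyH : y ≤ H) (hT : Real.log (Real.log H) ≤ T)
    (hT1 : 1 ≤ T) : ∃ j : ℕ, j < ⌊2 * T⌋₊ + 1 ∧ y ^ (2 ^ j : ℕ) ≤ H ∧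
      H ≤ (y ^ (2 ^ j : ℕ)) ^ (2 : ℝ) := by
  have hlogy : 1 < Real.log y := log_four_gt.trans_le (Real.log_le_log (by norm_num) hy)
  have hlogH : Real.log y ≤ Real.log H := Real.log_le_log (by linarith) hyH
  have hlogH1 : 1 < Real.log H := hlogy.trans_le hlogH
  obtain ⟨j, hj1, hj2⟩ := exists_nat_pow_near
    ((one_le_div (by linarith)).2 hlogH : (1 : ℝ) ≤ Real.log H / Real.log y)
    (by norm_num : (1 : ℝ) < 2)
  rw [le_div_iff₀ (by linarith)] at hj1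
  rw [div_lt_iff₀ (by linarith)] at hj2
  have hyj : 0 < y ^ (2 ^ j : ℕ) := pow_pos (by linarith) _
  refine ⟨j, ?_, ?_, ?_⟩
  · have h6 : (2 : ℝ) ^ j ≤ Real.log H := by
      refine le_trans ?_ hj1
      nlinarith [pow_pos (by norm_num : (0 : ℝ) < 2) j]
    have h7 : (j : ℝ) * Real.log 2 ≤ Real.log (Real.log H) := by
      rw [← Real.log_pow]
      exact Real.log_le_log (by positivity) h6
    have h8 := Real.log_two_gt_d9
    have h9 : (j : ℝ) ≤ 2 * T := by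
      have : (0 : ℝ) ≤ j := Nat.cast_nonneg _
      nlinarith
    exact Nat.lt_succ_of_le (Nat.le_floor h9)
  · rw [← Real.log_le_log_iff hyj (by linarith), Real.log_pow]
    push_cast
    exact hj1
  · have h5 : (y ^ (2 ^ j : ℕ)) ^ (2 : ℝ) = y ^ (2 ^ (j + 1) : ℕ) := by
      rw [Real.rpow_two, ← pow_mul, pow_succ]
    rw [h5, ← Real.log_le_log_iff (by linarith) (by positivity), Real.log_pow]
    push_cast
    exact hj2.le

/-- short intervals, all heights in a doubly exponential range -/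
theorem localAbs (hLCN : Pool.Agent.H72.PSV.T_LCN) (n d : ℕ) : ∃ (C δ : ℝ) (N₁ : ℕ), 0 < C ∧ 0 < δ ∧
    ∀ N : ℕ, N₁ ≤ N → ∃ E : Finset ℕ, (E.card : ℝ) ≤ (N : ℝ) ^ (2 * δ) ∧
      ∀ a : Fin n → ℕ, Function.Injective a →
      (∀ i, a i ∉ E ∧ N ≤ a i ∧ (a i : ℝ) ≤ N + (N : ℝ) ^ (3 * δ)) →
      ∀ H : ℝ, (N : ℝ) ≤ H → Real.log (Real.log H) ≤ (N : ℝ) ^ δ →
        Good d H C (fun i => Real.log (a i)) := by
  classical
  obtain ⟨δ₀, N₁, hδ₀, hN₁, h1⟩ := localSingle hLCN 0 n d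
  obtain ⟨C, hC, h2⟩ := h1 0 2
  set δ : ℝ := δ₀ / 3 with hδ
  have hδpos : 0 < δ := by positivity
  obtain ⟨N₂, hN₂⟩ : ∃ N₂ : ℕ, ∀ N : ℕ, N₂ ≤ N → 3 ≤ (N : ℝ) ^ δ := by
    have h3 := (tendsto_rpow_atTop hδpos).comp (tendsto_natCast_atTop_atTop (R := ℝ))
    obtain ⟨N₂, h4⟩ := Filter.eventually_atTop.1 (h3.eventually_ge_atTop 3)
    exact ⟨N₂, fun N hN => h4 N hN⟩
  refine ⟨C, δ, max (max N₁ N₂) 4, hC, hδpos, fun N hN => ?_⟩
  have hN1 : N₁ ≤ N := ((le_max_left _ _).trans (le_max_left _ _)).trans hN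
  have hN2 := hN₂ N (((le_max_right _ _).trans (le_max_left _ _)).trans hN)
  have hN4 : (4 : ℝ) ≤ N := by exact_mod_cast (le_max_right _ _).trans hN
  have hN0 : (0 : ℝ) < N := by linarith
  have hT1 : (1 : ℝ) ≤ (N : ℝ) ^ δ := by linarith
  set h : ℕ → ℝ := fun j => (N : ℝ) ^ (2 ^ j : ℕ) with hh
  have hh1 : ∀ j, (N : ℝ) ≤ h j := by
    intro j
    calc (N : ℝ) = (N : ℝ) ^ 1 := (pow_one _).symm
      _ ≤ (N : ℝ) ^ (2 ^ j : ℕ) := pow_le_pow_right₀ (by linarith) Nat.one_le_two_pow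
  choose E hE hEa using fun j => h2 N hN1 (h j) (fun i : Fin 0 => (0 : ℂ))
    (by linarith [hh1 j]) (hh1 j) (fun i => i.elim0)
  set K : ℕ := ⌊2 * (N : ℝ) ^ δ⌋₊ + 1 with hK
  have hK3 : (K : ℝ) ≤ 3 * (N : ℝ) ^ δ := by
    have h3 : ((⌊2 * (N : ℝ) ^ δ⌋₊ : ℕ) : ℝ) ≤ 2 * (N : ℝ) ^ δ :=
      Nat.floor_le (by positivity)
    rw [hK]
    push_cast
    linarith
  refine ⟨(Finset.range K).biUnion E, ?_, ?_⟩
  · have h3 : ((Finset.range K).biUnion E).card ≤ K := by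
      refine Finset.card_biUnion_le.trans ?_
      calc ∑ j ∈ Finset.range K, (E j).card ≤ ∑ _j ∈ Finset.range K, 1 :=
            Finset.sum_le_sum fun j _ => by simpa using hE j
        _ = K := by simp
    calc ((((Finset.range K).biUnion E).card : ℕ) : ℝ) ≤ K := by exact_mod_cast h3
      _ ≤ 3 * (N : ℝ) ^ δ := hK3
      _ ≤ (N : ℝ) ^ δ * (N : ℝ) ^ δ := mul_le_mul_of_nonneg_right hN2 (by positivity)
      _ = (N : ℝ) ^ (2 * δ) := by
          rw [← Real.rpow_add hN0]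
          congr 1
          ring
  · intro a hainj ha H hNH hHT
    by_contra hbad
    obtain ⟨j, hjK, hj1, hj2⟩ := scale_of hN4 hNH hHT hT1
    refine hEa j a hainj (fun i => ⟨?_, (ha i).2.1, ?_⟩) H hj1 hj2
      (exc_of_not_good d H C (by linarith) _ hbad)
    · intro hi
      exact (ha i).1 (Finset.mem_biUnion.2 ⟨j, Finset.mem_range.2 hjK, hi⟩)
    · have := (ha i).2.2
      have h3 : 3 * δ = δ₀ := by rw [hδ]; ring
      rw [h3] at this
      exact this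

/-- short intervals, arbitrary sequences of scales -/
theorem localScales (hLCN : Pool.Agent.H72.PSV.T_LCN) (r n d : ℕ) : ∃ (δ : ℝ) (N₁ : ℕ), 0 < δ ∧
    ∀ A B : ℝ, ∃ C : ℝ, 0 < C ∧ ∀ N : ℕ, N₁ ≤ N →
    (∀ (h : ℝ) (ξ : Fin r → ℂ), 2 ≤ h → (N : ℝ) ≤ h → (∀ i, ‖ξ i‖ ≤ h ^ B) →
      ∃ E : Finset ℕ, E.card ≤ r + 1 ∧ ∀ a : Fin n → ℕ, Function.Injective a →
        (∀ i, a i ∉ E ∧ N ≤ a i ∧ (a i : ℝ) ≤ N + (N : ℝ) ^ δ) →
        ∀ H : ℝ, h ≤ H → H ≤ h ^ B →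
          ¬ Exceptional ξ d H A C (fun i => ((Real.log (a i) : ℝ) : ℂ))) ∧
    (∀ (h : ℕ → ℝ) (ξ : ℕ → Fin r → ℂ), (∀ k, 2 ≤ h k) → (∀ k, (N : ℝ) ≤ h k) →
      (∀ k i, ‖ξ k i‖ ≤ h k ^ B) → ∀ η : ℝ, 0 < η →
      ∃ E : Finset ℕ, η * E.card ≤ r + 1 ∧ ∃ᶠ K : ℕ in Filter.atTop,
        ∀ a : Fin n → ℕ, Function.Injective a →
        (∀ i, a i ∉ E ∧ N ≤ a i ∧ (a i : ℝ) ≤ N + (N : ℝ) ^ δ) →
          (Set.ncard {k : ℕ | k < K ∧ ∃ H : ℝ, h k ≤ H ∧ H ≤ h k ^ B ∧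
            Exceptional (ξ k) d H A C (fun i => ((Real.log (a i) : ℝ) : ℂ))} : ℝ) ≤
            n * η * K) := by
  classical
  obtain ⟨δ, N₁, hδ, hN₁, h1⟩ := localSingle hLCN r n d
  refine ⟨δ, N₁, hδ, fun A B => ?_⟩
  obtain ⟨C, hC, h2⟩ := h1 A B
  refine ⟨C, hC, fun N hN => ⟨h2 N hN, fun h ξ hh hNh hξ η hη => ?_⟩⟩
  choose E hE hEa using fun k => h2 N hN (h k) (ξ k) (hh k) (hNh k) (hξ k)
  -- integers of the interval
  set I : Finset ℕ := Finset.Icc N ⌊(N : ℝ) + (N : ℝ) ^ δ⌋₊ with hI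
  set cnt : ℕ → ℕ → ℕ := fun K b => ((Finset.range K).filter (fun k => b ∈ E k)).card with hcnt
  set EK : ℕ → Finset ℕ := fun K => I.filter (fun b => η * K < (cnt K b : ℝ)) with hEK
  have hEKcard : ∀ K : ℕ, 0 < K → η * ((EK K).card : ℝ) ≤ r + 1 := by
    intro K hK
    have hK' : (0 : ℝ) < K := by exact_mod_cast hK
    have h3 : ∑ b ∈ EK K, cnt K b ≤ (r + 1) * K := by
      calc ∑ b ∈ EK K, cnt K b
          = ∑ b ∈ EK K, ∑ k ∈ Finset.range K, if b ∈ E k then 1 else 0 := by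
            refine Finset.sum_congr rfl fun b _ => ?_
            rw [hcnt]
            simp only
            rw [Finset.card_filter]
        _ = ∑ k ∈ Finset.range K, ∑ b ∈ EK K, if b ∈ E k then 1 else 0 := Finset.sum_comm
        _ ≤ ∑ _k ∈ Finset.range K, (r + 1) := by
            refine Finset.sum_le_sum fun k _ => ?_
            rw [← Finset.card_filter]
            refine le_trans (Finset.card_le_card ?_) (hE k)
            intro b hb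
            exact (Finset.mem_filter.1 hb).2
        _ = (r + 1) * K := by simp [mul_comm]
    have h4 : ((EK K).card : ℝ) * (η * K) ≤ ((∑ b ∈ EK K, cnt K b : ℕ) : ℝ) := by
      rw [Nat.cast_sum]
      calc ((EK K).card : ℝ) * (η * K) = ∑ _b ∈ EK K, (η * K) := by
            rw [Finset.sum_const, nsmul_eq_mul]
        _ ≤ ∑ b ∈ EK K, (cnt K b : ℝ) :=
            Finset.sum_le_sum fun b hb => (Finset.mem_filter.1 hb).2.le
    have h5 : ((∑ b ∈ EK K, cnt K b : ℕ) : ℝ) ≤ (r + 1) * K := by exact_mod_cast h3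
    have h6 : (η * ((EK K).card : ℝ)) * K ≤ (r + 1) * K := by
      calc (η * ((EK K).card : ℝ)) * K = ((EK K).card : ℝ) * (η * K) := by ring
        _ ≤ _ := h4.trans h5
    exact le_of_mul_le_mul_right h6 hK'
  -- a set which occurs for infinitely many `K`
  obtain ⟨E₀, hE₀⟩ : ∃ E₀ : Finset ℕ, ∃ᶠ K : ℕ in Filter.atTop, EK K = E₀ := by
    by_contra hcon
    have h3 : ∀ S ∈ I.powerset, ∀ᶠ K : ℕ in Filter.atTop, EK K ≠ S := by
      intro S _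
      by_contra hS
      exact hcon ⟨S, fun hS' => hS hS'⟩
    obtain ⟨K, hK⟩ := ((Filter.eventually_all_finset I.powerset).2 h3).exists
    exact hK (EK K) (Finset.mem_powerset.2 (Finset.filter_subset _ _)) rfl
  refine ⟨E₀, ?_, ?_⟩
  · obtain ⟨K, hK, hK0⟩ := (hE₀.and_eventually (Filter.eventually_gt_atTop 0)).exists
    rw [← hK]
    exact hEKcard K hK0
  · refine hE₀.mono ?_
    intro K hK a hainj ha
    have h3 : {k : ℕ | k < K ∧ ∃ H : ℝ, h k ≤ H ∧ H ≤ h k ^ B ∧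
        Exceptional (ξ k) d H A C (fun i => ((Real.log (a i) : ℝ) : ℂ))} ⊆
        ((Finset.univ.biUnion (fun i : Fin n =>
          (Finset.range K).filter (fun k => a i ∈ E k)) : Finset ℕ) : Set ℕ) := by
      rintro k ⟨hkK, H, hH1, hH2, hexc⟩
      by_contra hk
      refine hEa k a hainj (fun i => ⟨?_, (ha i).2⟩) H hH1 hH2 hexc
      intro hi
      apply hk
      rw [Finset.mem_coe, Finset.mem_biUnion]
      exact ⟨i, Finset.mem_univ _, Finset.mem_filter.2 ⟨Finset.mem_range.2 hkK, hi⟩⟩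
    have h4 := Set.ncard_le_ncard h3 (Finset.finite_toSet _)
    rw [Set.ncard_coe_finset] at h4
    have h5 : (Finset.univ.biUnion (fun i : Fin n =>
        (Finset.range K).filter (fun k => a i ∈ E k))).card ≤ ∑ i : Fin n, cnt K (a i) :=
      Finset.card_biUnion_le
    have h6 : ∀ i, (cnt K (a i) : ℝ) ≤ η * K := by
      intro i
      by_contra hlt
      push Not at hlt
      apply (ha i).1
      rw [← hK, hEK]
      refine Finset.mem_filter.2 ⟨?_, hlt⟩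
      rw [hI, Finset.mem_Icc]
      exact ⟨(ha i).2.1, Nat.le_floor (ha i).2.2⟩
    calc (Set.ncard {k : ℕ | k < K ∧ ∃ H : ℝ, h k ≤ H ∧ H ≤ h k ^ B ∧
            Exceptional (ξ k) d H A C (fun i => ((Real.log (a i) : ℝ) : ℂ))} : ℝ)
        ≤ ((∑ i : Fin n, cnt K (a i) : ℕ) : ℝ) := by exact_mod_cast h4.trans h5
      _ = ∑ i : Fin n, (cnt K (a i) : ℝ) := by push_cast; rfl
      _ ≤ ∑ _i : Fin n, η * K := Finset.sum_le_sum fun i _ => h6 i
      _ = n * η * K := by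
          rw [Finset.sum_const, nsmul_eq_mul, Finset.card_univ, Fintype.card_fin]
          ring

/-- There is no polynomial relation of degree at most `d` with integer coefficients between `ξ` and
`y`, except those which hold between the coordinates of `ξ`: `P(ξ, y) ≠ 0` for all integer
polynomials `P(X, Y)` of total degree at most `d` with `P(ξ, Y) ≠ 0`. -/
def NoRelation {r n : ℕ} (ξ : Fin r → ℂ) (d : ℕ) (y : Fin n → ℂ) : Prop :=
  ∀ P : MvPolynomial (Fin r ⊕ Fin n) ℤ, P.totalDegree ≤ d →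
    aeval (Sum.elim (fun i => C (ξ i)) X : Fin r ⊕ Fin n → MvPolynomial (Fin n) ℂ) P ≠ 0 →
    aeval (Sum.elim ξ y) P ≠ 0

theorem noRelation_of {r n : ℕ} (ξ : Fin r → ℂ) (d : ℕ) (C' : ℝ) (y : Fin n → ℂ)
    (h : ∀ h₀ : ℝ, ∃ H : ℝ, h₀ ≤ H ∧ ¬ Exceptional ξ d H 1 C' y) : NoRelation ξ d y := by
  intro P hP hne h0
  obtain ⟨e, he⟩ := MvPolynomial.ne_zero_iff.1 hne
  set c := coeff e (aeval (Sum.elim (fun i => C (ξ i)) X :
    Fin r ⊕ Fin n → MvPolynomial (Fin n) ℂ) P) with hc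
  have hc0 : 0 < ‖c‖ := norm_pos_iff.2 he
  obtain ⟨H, hH, hnot⟩ := h (max (max 1 ‖c‖⁻¹) (∑ m ∈ P.support, |((coeff m P : ℤ) : ℝ)|))
  have hH1 : (1 : ℝ) ≤ H := ((le_max_left _ _).trans (le_max_left _ _)).trans hH
  have hH2 : ‖c‖⁻¹ ≤ H := ((le_max_right _ _).trans (le_max_left _ _)).trans hH
  have hH3 := (le_max_right _ _).trans hH
  apply hnot
  refine ⟨P, hP, ?_, ?_, e, ?_⟩
  · intro m
    by_cases hm : m ∈ P.support
    · exact (Finset.single_le_sum (f := fun m => |((coeff m P : ℤ) : ℝ)|)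
        (fun _ _ => abs_nonneg _) hm).trans hH3
    · rw [notMem_support_iff.1 hm]
      simp
      linarith
  · rw [h0, norm_zero]
    exact Real.rpow_pos_of_pos (by linarith) _
  · rw [Real.rpow_neg_one]
    exact inv_le_of_inv_le₀ hc0 hH2

/-- one of finitely many sets occurs infinitely often -/
theorem pigeon {α : Type} (I : Finset α) (E : ℕ → Finset α) (hE : ∀ k, E k ⊆ I) :
    ∃ E₀, ∃ᶠ k : ℕ in Filter.atTop, E k = E₀ := by
  classical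
  by_contra hcon
  have h3 : ∀ S ∈ I.powerset, ∀ᶠ K : ℕ in Filter.atTop, E K ≠ S := by
    intro S _
    by_contra hS
    exact hcon ⟨S, fun hS' => hS hS'⟩
  obtain ⟨K, hK⟩ := ((Filter.eventually_all_finset I.powerset).2 h3).exists
  exact hK (E K) (Finset.mem_powerset.2 (hE K)) rfl

/-- short intervals, no relations of degree at most `d` -/
theorem localRel (hLCN : Pool.Agent.H72.PSV.T_LCN) (r n d : ℕ) : ∃ (δ : ℝ) (N₁ : ℕ), 0 < δ ∧
    ∀ N : ℕ, N₁ ≤ N → ∀ ξ : Fin r → ℂ,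
    ∃ E : Finset ℕ, E.card ≤ r + 1 ∧ ∀ a : Fin n → ℕ, Function.Injective a →
      (∀ i, a i ∉ E ∧ N ≤ a i ∧ (a i : ℝ) ≤ N + (N : ℝ) ^ δ) →
      NoRelation ξ d (fun i => ((Real.log (a i) : ℝ) : ℂ)) := by
  classical
  obtain ⟨δ, N₁, hδ, hN₁, h1⟩ := localSingle hLCN r n d
  refine ⟨δ, N₁, hδ, fun N hN ξ => ?_⟩
  obtain ⟨C, hC, h2⟩ := h1 1 1
  set M : ℝ := max (max 2 N) (∑ i, ‖ξ i‖) with hM
  have hM2 : 2 ≤ M := (le_max_left _ _).trans (le_max_left _ _)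
  have hMN : (N : ℝ) ≤ M := (le_max_right _ _).trans (le_max_left _ _)
  have hMξ : ∀ i, ‖ξ i‖ ≤ M := fun i =>
    (Finset.single_le_sum (f := fun i => ‖ξ i‖) (fun _ _ => norm_nonneg _)
      (Finset.mem_univ i)).trans (le_max_right _ _)
  choose E hE hEa using fun k : ℕ => h2 N hN (M + k) ξ
    (by have : (0 : ℝ) ≤ k := Nat.cast_nonneg _
        linarith)
    (by have : (0 : ℝ) ≤ k := Nat.cast_nonneg _
        linarith)
    (fun i => by
      have : (0 : ℝ) ≤ k := Nat.cast_nonneg _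
      rw [Real.rpow_one]
      linarith [hMξ i])
  set I : Finset ℕ := Finset.Icc N ⌊(N : ℝ) + (N : ℝ) ^ δ⌋₊ with hI
  obtain ⟨E₀, hE₀⟩ := pigeon I (fun k => (E k).filter (· ∈ I)) (fun k b hb =>
    (Finset.mem_filter.1 hb).2)
  refine ⟨E₀, ?_, ?_⟩
  · obtain ⟨k, hk⟩ := hE₀.exists
    rw [← hk]
    exact (Finset.card_filter_le _ _).trans (hE k)
  · intro a hainj ha
    refine noRelation_of ξ d C _ fun h₀ => ?_
    obtain ⟨k, hk, hk0⟩ := (hE₀.and_eventually (Filter.eventually_ge_atTop ⌈h₀⌉₊)).exists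
    have hk1 : h₀ ≤ k := (Nat.le_ceil _).trans (by exact_mod_cast hk0)
    refine ⟨M + k, by linarith, ?_⟩
    refine hEa k a hainj (fun i => ⟨?_, (ha i).2⟩) (M + k) le_rfl (by rw [Real.rpow_one])
    intro hi
    apply (ha i).1
    rw [← hk]
    refine Finset.mem_filter.2 ⟨hi, ?_⟩
    rw [hI, Finset.mem_Icc]
    exact ⟨(ha i).2.1, Nat.le_floor (ha i).2.2⟩

/-- all but few tuples in a box, one range of heights and arbitrary sequences of scales -/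
theorem globalScales (hCNN : Pool.Agent.H72.PSV.T_CNN) (r n d : ℕ) :
    ∃ δ C₀ : ℝ, 0 < δ ∧ 0 < C₀ ∧ ∀ A B : ℝ, ∃ C : ℝ, 0 < C ∧ ∀ x : ℕ, 1 ≤ x →
    (∀ (h : ℝ) (ξ : Fin r → ℂ), 2 ≤ h → (x : ℝ) ≤ h → (∀ i, ‖ξ i‖ ≤ h ^ B) →
      (Set.ncard {a : Fin n → ℕ | (∀ i, 1 ≤ a i ∧ a i ≤ x) ∧ ∃ H : ℝ, h ≤ H ∧ H ≤ h ^ B ∧
        Exceptional ξ d H A C (fun i => ((Real.log (a i) : ℝ) : ℂ))} : ℝ) ≤
        C₀ * (x : ℝ) ^ ((n : ℝ) - δ)) ∧
    (∀ (h : ℕ → ℝ) (ξ : ℕ → Fin r → ℂ), (∀ k, 2 ≤ h k) → (∀ k, (x : ℝ) ≤ h k) →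
      (∀ k i, ‖ξ k i‖ ≤ h k ^ B) →
      ∃ S : Finset (Fin n → ℕ), (S.card : ℝ) ≤ C₀ * (x : ℝ) ^ ((n : ℝ) - δ) ∧
        ∃ᶠ K : ℕ in Filter.atTop, ∀ a : Fin n → ℕ, (∀ i, 1 ≤ a i ∧ a i ≤ x) → a ∉ S →
          (Set.ncard {k : ℕ | k < K ∧ ∃ H : ℝ, h k ≤ H ∧ H ≤ h k ^ B ∧
            Exceptional (ξ k) d H A C (fun i => ((Real.log (a i) : ℝ) : ℂ))} : ℝ) ≤
            (x : ℝ) ^ (-δ) * K) := by
  classical
  obtain ⟨δ₀, C₀, hδ₀, -, hC₀, h1⟩ := single hCNN r n d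
  refine ⟨δ₀ / 2, C₀, by positivity, hC₀, fun A B => ?_⟩
  obtain ⟨C, hC, h2⟩ := h1 A B
  have hBup : ∀ h : ℝ, 2 ≤ h → h ^ B ≤ h ^ (max B 1) := fun h hh =>
    Real.rpow_le_rpow_of_exponent_le (by linarith) (le_max_left _ _)
  refine ⟨C, hC, fun x hx => ?_⟩
  have hx1 : (1 : ℝ) ≤ x := by exact_mod_cast hx
  have hx0 : (0 : ℝ) < x := by linarith
  refine ⟨fun h ξ hh hxh hξ => ?_, fun h ξ hh hxh hξ => ?_⟩
  · refine (h2 x hx h hh (hxh.trans (le_up h B hh)) ξ fun i => (hξ i).trans (hBup h hh)).trans ?_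
    refine mul_le_mul_of_nonneg_left ?_ hC₀.le
    exact Real.rpow_le_rpow_of_exponent_le hx1 (by linarith)
  · set Ω : Finset (Fin n → ℕ) := Fintype.piFinset (fun _ : Fin n => Finset.Icc 1 x) with hΩ
    set p : ℕ → (Fin n → ℕ) → Prop := fun k a => ∃ H : ℝ, h k ≤ H ∧ H ≤ h k ^ B ∧
      Exceptional (ξ k) d H A C (fun i => ((Real.log (a i) : ℝ) : ℂ)) with hp
    have hcard : ∀ k, ((Ω.filter (p k)).card : ℝ) ≤ C₀ * (x : ℝ) ^ ((n : ℝ) - δ₀) := by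
      intro k
      have h3 := h2 x hx (h k) (hh k) ((hxh k).trans (le_up (h k) B (hh k))) (ξ k)
        fun i => (hξ k i).trans (hBup (h k) (hh k))
      rw [ncard_eq x (p k)] at h3
      exact h3
    set cnt : ℕ → (Fin n → ℕ) → ℕ := fun K a => ((Finset.range K).filter (fun k => p k a)).card
      with hcnt
    set SK : ℕ → Finset (Fin n → ℕ) := fun K => Ω.filter
      (fun a => (x : ℝ) ^ (-(δ₀ / 2)) * K < (cnt K a : ℝ)) with hSK
    have hSKcard : ∀ K : ℕ, 0 < K → ((SK K).card : ℝ) ≤ C₀ * (x : ℝ) ^ ((n : ℝ) - δ₀ / 2) := by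
      intro K hK
      have hK' : (0 : ℝ) < K := by exact_mod_cast hK
      have h3 : ((∑ a ∈ SK K, cnt K a : ℕ) : ℝ) ≤ K * (C₀ * (x : ℝ) ^ ((n : ℝ) - δ₀)) := by
        calc ((∑ a ∈ SK K, cnt K a : ℕ) : ℝ)
            ≤ ((∑ a ∈ Ω, cnt K a : ℕ) : ℝ) := by
              exact_mod_cast Finset.sum_le_sum_of_subset (Finset.filter_subset _ _)
          _ = ((∑ a ∈ Ω, ∑ k ∈ Finset.range K, if p k a then 1 else 0 : ℕ) : ℝ) := by
              congr 1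
              refine Finset.sum_congr rfl fun a _ => ?_
              rw [hcnt]
              simp only
              rw [Finset.card_filter]
          _ = ((∑ k ∈ Finset.range K, (Ω.filter (p k)).card : ℕ) : ℝ) := by
              congr 1
              rw [Finset.sum_comm]
              refine Finset.sum_congr rfl fun k _ => ?_
              rw [Finset.card_filter]
          _ = ∑ k ∈ Finset.range K, ((Ω.filter (p k)).card : ℝ) := by push_cast; rfl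
          _ ≤ ∑ _k ∈ Finset.range K, C₀ * (x : ℝ) ^ ((n : ℝ) - δ₀) :=
              Finset.sum_le_sum fun k _ => hcard k
          _ = _ := by rw [Finset.sum_const, Finset.card_range, nsmul_eq_mul]
      have h4 : ((SK K).card : ℝ) * ((x : ℝ) ^ (-(δ₀ / 2)) * K) ≤
          ((∑ a ∈ SK K, cnt K a : ℕ) : ℝ) := by
        rw [Nat.cast_sum]
        calc ((SK K).card : ℝ) * ((x : ℝ) ^ (-(δ₀ / 2)) * K)
            = ∑ _a ∈ SK K, ((x : ℝ) ^ (-(δ₀ / 2)) * K) := by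
              rw [Finset.sum_const, nsmul_eq_mul]
          _ ≤ ∑ a ∈ SK K, (cnt K a : ℝ) :=
              Finset.sum_le_sum fun a ha => (Finset.mem_filter.1 ha).2.le
      have h5 : (((SK K).card : ℝ) * (x : ℝ) ^ (-(δ₀ / 2))) * K ≤
          (C₀ * (x : ℝ) ^ ((n : ℝ) - δ₀)) * K := by
        calc (((SK K).card : ℝ) * (x : ℝ) ^ (-(δ₀ / 2))) * K
            = ((SK K).card : ℝ) * ((x : ℝ) ^ (-(δ₀ / 2)) * K) := by ring
          _ ≤ K * (C₀ * (x : ℝ) ^ ((n : ℝ) - δ₀)) := h4.trans h3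
          _ = _ := by ring
      have h6 := le_of_mul_le_mul_right h5 hK'
      have h7 : (x : ℝ) ^ (-(δ₀ / 2)) * (x : ℝ) ^ (δ₀ / 2) = 1 := by
        rw [← Real.rpow_add hx0]
        simp
      calc ((SK K).card : ℝ)
          = (((SK K).card : ℝ) * (x : ℝ) ^ (-(δ₀ / 2))) * (x : ℝ) ^ (δ₀ / 2) := by
            rw [mul_assoc, h7, mul_one]
        _ ≤ (C₀ * (x : ℝ) ^ ((n : ℝ) - δ₀)) * (x : ℝ) ^ (δ₀ / 2) :=
            mul_le_mul_of_nonneg_right h6 (Real.rpow_nonneg hx0.le _)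
        _ = C₀ * (x : ℝ) ^ ((n : ℝ) - δ₀ / 2) := by
            rw [mul_assoc, ← Real.rpow_add hx0]
            congr 2
            ring
    obtain ⟨S, hS⟩ := pigeon Ω SK (fun K => Finset.filter_subset _ _)
    refine ⟨S, ?_, ?_⟩
    · obtain ⟨K, hK, hK0⟩ := (hS.and_eventually (Filter.eventually_gt_atTop 0)).exists
      rw [← hK]
      exact hSKcard K hK0
    · refine hS.mono ?_
      intro K hK a ha haS
      have haΩ : a ∈ Ω := by
        rw [hΩ, Fintype.mem_piFinset]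
        exact fun i => Finset.mem_Icc.2 (ha i)
      have h3 : {k : ℕ | k < K ∧ ∃ H : ℝ, h k ≤ H ∧ H ≤ h k ^ B ∧
          Exceptional (ξ k) d H A C (fun i => ((Real.log (a i) : ℝ) : ℂ))} =
          (((Finset.range K).filter (fun k => p k a) : Finset ℕ) : Set ℕ) := by
        ext k
        simp [hp]
      rw [h3, Set.ncard_coe_finset]
      by_contra hlt
      push Not at hlt
      apply haS
      rw [← hK]
      exact Finset.mem_filter.2 ⟨haΩ, hlt⟩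

/-- all but few tuples in a box, no relations of degree at most `d` -/
theorem globalRel (hCNN : Pool.Agent.H72.PSV.T_CNN) (r n d : ℕ) :
    ∃ δ C₀ : ℝ, 0 < δ ∧ 0 < C₀ ∧ ∀ ξ : Fin r → ℂ, ∀ x : ℕ, 1 ≤ x →
      (Set.ncard {a : Fin n → ℕ | (∀ i, 1 ≤ a i ∧ a i ≤ x) ∧
        ¬ NoRelation ξ d (fun i => ((Real.log (a i) : ℝ) : ℂ))} : ℝ) ≤
        C₀ * (x : ℝ) ^ ((n : ℝ) - δ) := by
  classical
  obtain ⟨δ, C₀, hδ, -, hC₀, h1⟩ := single hCNN r n d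
  obtain ⟨C, hC, h2⟩ := h1 1 1
  refine ⟨δ, C₀, hδ, hC₀, fun ξ x hx => ?_⟩
  set M : ℝ := max (max 2 x) (∑ i, ‖ξ i‖) with hM
  have hM2 : 2 ≤ M := (le_max_left _ _).trans (le_max_left _ _)
  have hMx : (x : ℝ) ≤ M := (le_max_right _ _).trans (le_max_left _ _)
  have hMξ : ∀ i, ‖ξ i‖ ≤ M := fun i =>
    (Finset.single_le_sum (f := fun i => ‖ξ i‖) (fun _ _ => norm_nonneg _)
      (Finset.mem_univ i)).trans (le_max_right _ _)
  have hmax : max (1 : ℝ) 1 = 1 := max_self _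
  rw [hmax] at h2
  set Ω : Finset (Fin n → ℕ) := Fintype.piFinset (fun _ : Fin n => Finset.Icc 1 x) with hΩ
  set p : ℕ → (Fin n → ℕ) → Prop := fun k a => ∃ H : ℝ, (M + k) ≤ H ∧ H ≤ (M + k) ^ (1 : ℝ) ∧
    Exceptional ξ d H 1 C (fun i => ((Real.log (a i) : ℝ) : ℂ)) with hp
  have hcard : ∀ k, ((Ω.filter (p k)).card : ℝ) ≤ C₀ * (x : ℝ) ^ ((n : ℝ) - δ) := by
    intro k
    have hk : (0 : ℝ) ≤ k := Nat.cast_nonneg _
    have h3 := h2 x hx (M + k) (by linarith) (by rw [Real.rpow_one]; linarith) ξ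
      (fun i => by rw [Real.rpow_one]; linarith [hMξ i])
    rw [ncard_eq x (p k)] at h3
    exact h3
  obtain ⟨S, hS⟩ := pigeon Ω (fun k => Ω.filter (p k)) (fun k => Finset.filter_subset _ _)
  have hS1 : (S.card : ℝ) ≤ C₀ * (x : ℝ) ^ ((n : ℝ) - δ) := by
    obtain ⟨k, hk⟩ := hS.exists
    rw [← hk]
    exact hcard k
  refine le_trans ?_ hS1
  have hsub : {a : Fin n → ℕ | (∀ i, 1 ≤ a i ∧ a i ≤ x) ∧
      ¬ NoRelation ξ d (fun i => ((Real.log (a i) : ℝ) : ℂ))} ⊆ (S : Set (Fin n → ℕ)) := by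
    rintro a ⟨ha, hnot⟩
    by_contra haS
    apply hnot
    refine noRelation_of ξ d C _ fun h₀ => ?_
    obtain ⟨k, hk, hk0⟩ := (hS.and_eventually (Filter.eventually_ge_atTop ⌈h₀⌉₊)).exists
    have hk1 : h₀ ≤ k := (Nat.le_ceil _).trans (by exact_mod_cast hk0)
    refine ⟨M + k, by linarith, fun hexc => ?_⟩
    apply haS
    rw [← hk]
    refine Finset.mem_coe.2 (Finset.mem_filter.2 ⟨?_, M + k, le_rfl, by rw [Real.rpow_one], hexc⟩)
    rw [hΩ, Fintype.mem_piFinset]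
    exact fun i => Finset.mem_Icc.2 (ha i)
  have h4 := Set.ncard_le_ncard hsub (Finset.finite_toSet _)
  rw [Set.ncard_coe_finset] at h4
  exact_mod_cast h4

/-- The relative local theorem: no relations, one range of heights, sequences of ranges. -/
theorem localPart (hLCN : Pool.Agent.H72.PSV.T_LCN) (r n d : ℕ) : ∃ (δ : ℝ) (N₁ : ℕ), 0 < δ ∧
    (∀ N : ℕ, N₁ ≤ N → ∀ ξ : Fin r → ℂ, ∃ E : Finset ℕ, E.card ≤ r + 1 ∧
      ∀ a : Fin n → ℕ, Function.Injective a →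
        (∀ i, a i ∉ E ∧ N ≤ a i ∧ (a i : ℝ) ≤ N + (N : ℝ) ^ δ) →
        NoRelation ξ d (fun i => ((Real.log (a i) : ℝ) : ℂ))) ∧
    ∀ A B : ℝ, ∃ C : ℝ, 0 < C ∧ ∀ N : ℕ, N₁ ≤ N →
    (∀ (h : ℝ) (ξ : Fin r → ℂ), 2 ≤ h → (N : ℝ) ≤ h → (∀ i, ‖ξ i‖ ≤ h ^ B) →
      ∃ E : Finset ℕ, E.card ≤ r + 1 ∧ ∀ a : Fin n → ℕ, Function.Injective a →
        (∀ i, a i ∉ E ∧ N ≤ a i ∧ (a i : ℝ) ≤ N + (N : ℝ) ^ δ) →
        ∀ H : ℝ, h ≤ H → H ≤ h ^ B →
          ¬ Exceptional ξ d H A C (fun i => ((Real.log (a i) : ℝ) : ℂ))) ∧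
    (∀ (h : ℕ → ℝ) (ξ : ℕ → Fin r → ℂ), (∀ k, 2 ≤ h k) → (∀ k, (N : ℝ) ≤ h k) →
      (∀ k i, ‖ξ k i‖ ≤ h k ^ B) → ∀ η : ℝ, 0 < η →
      ∃ E : Finset ℕ, η * E.card ≤ r + 1 ∧ ∃ᶠ K : ℕ in Filter.atTop,
        ∀ a : Fin n → ℕ, Function.Injective a →
        (∀ i, a i ∉ E ∧ N ≤ a i ∧ (a i : ℝ) ≤ N + (N : ℝ) ^ δ) →
          (Set.ncard {k : ℕ | k < K ∧ ∃ H : ℝ, h k ≤ H ∧ H ≤ h k ^ B ∧
            Exceptional (ξ k) d H A C (fun i => ((Real.log (a i) : ℝ) : ℂ))} : ℝ) ≤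
            n * η * K) := by
  obtain ⟨δ₁, N₁, hδ₁, h1⟩ := localRel hLCN r n d
  obtain ⟨δ₂, N₂, hδ₂, h2⟩ := localScales hLCN r n d
  have hmono : ∀ (N : ℕ) (δ' : ℝ), 1 ≤ N → min δ₁ δ₂ ≤ δ' → ∀ b : ℕ,
      (b : ℝ) ≤ N + (N : ℝ) ^ (min δ₁ δ₂) → (b : ℝ) ≤ N + (N : ℝ) ^ δ' := by
    intro N δ' hN hδ' b hb
    refine hb.trans (add_le_add le_rfl ?_)
    exact Real.rpow_le_rpow_of_exponent_le (by exact_mod_cast hN) hδ'
  refine ⟨min δ₁ δ₂, max (max N₁ N₂) 1, lt_min hδ₁ hδ₂, ?_, ?_⟩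
  · intro N hN ξ
    have hN1 : 1 ≤ N := (le_max_right _ _).trans hN
    obtain ⟨E, hE, h3⟩ := h1 N (((le_max_left _ _).trans (le_max_left _ _)).trans hN) ξ
    exact ⟨E, hE, fun a ha hb => h3 a ha fun i => ⟨(hb i).1, (hb i).2.1,
      hmono N δ₁ hN1 (min_le_left _ _) _ (hb i).2.2⟩⟩
  · intro A B
    obtain ⟨C, hC, h3⟩ := h2 A B
    refine ⟨C, hC, fun N hN => ?_⟩
    have hN1 : 1 ≤ N := (le_max_right _ _).trans hN
    obtain ⟨h4, h5⟩ := h3 N (((le_max_right _ _).trans (le_max_left _ _)).trans hN)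
    refine ⟨fun h ξ hh hNh hξ => ?_, fun h ξ hh hNh hξ η hη => ?_⟩
    · obtain ⟨E, hE, h6⟩ := h4 h ξ hh hNh hξ
      exact ⟨E, hE, fun a ha hb => h6 a ha fun i => ⟨(hb i).1, (hb i).2.1,
        hmono N δ₂ hN1 (min_le_right _ _) _ (hb i).2.2⟩⟩
    · obtain ⟨E, hE, h6⟩ := h5 h ξ hh hNh hξ η hη
      exact ⟨E, hE, h6.mono fun K hK a ha hb => hK a ha fun i => ⟨(hb i).1, (hb i).2.1,
        hmono N δ₂ hN1 (min_le_right _ _) _ (hb i).2.2⟩⟩

/-- The relative global theorem: no relations, one range of heights, sequences of ranges. -/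
theorem globalPart (hCNN : Pool.Agent.H72.PSV.T_CNN) (r n d : ℕ) :
    ∃ δ C₀ : ℝ, 0 < δ ∧ 0 < C₀ ∧
    (∀ x : ℕ, 1 ≤ x → ∀ ξ : Fin r → ℂ, (Set.ncard {a : Fin n → ℕ | (∀ i, 1 ≤ a i ∧ a i ≤ x) ∧
        ¬ NoRelation ξ d (fun i => ((Real.log (a i) : ℝ) : ℂ))} : ℝ) ≤
        C₀ * (x : ℝ) ^ ((n : ℝ) - δ)) ∧
    ∀ A B : ℝ, ∃ C : ℝ, 0 < C ∧ ∀ x : ℕ, 1 ≤ x →
    (∀ (h : ℝ) (ξ : Fin r → ℂ), 2 ≤ h → (x : ℝ) ≤ h → (∀ i, ‖ξ i‖ ≤ h ^ B) →
      (Set.ncard {a : Fin n → ℕ | (∀ i, 1 ≤ a i ∧ a i ≤ x) ∧ ∃ H : ℝ, h ≤ H ∧ H ≤ h ^ B ∧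
        Exceptional ξ d H A C (fun i => ((Real.log (a i) : ℝ) : ℂ))} : ℝ) ≤
        C₀ * (x : ℝ) ^ ((n : ℝ) - δ)) ∧
    (∀ (h : ℕ → ℝ) (ξ : ℕ → Fin r → ℂ), (∀ k, 2 ≤ h k) → (∀ k, (x : ℝ) ≤ h k) →
      (∀ k i, ‖ξ k i‖ ≤ h k ^ B) →
      ∃ S : Finset (Fin n → ℕ), (S.card : ℝ) ≤ C₀ * (x : ℝ) ^ ((n : ℝ) - δ) ∧
        ∃ᶠ K : ℕ in Filter.atTop, ∀ a : Fin n → ℕ, (∀ i, 1 ≤ a i ∧ a i ≤ x) → a ∉ S →
          (Set.ncard {k : ℕ | k < K ∧ ∃ H : ℝ, h k ≤ H ∧ H ≤ h k ^ B ∧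
            Exceptional (ξ k) d H A C (fun i => ((Real.log (a i) : ℝ) : ℂ))} : ℝ) ≤
            (x : ℝ) ^ (-δ) * K) := by
  obtain ⟨δ₁, C₁, hδ₁, hC₁, h1⟩ := globalRel hCNN r n d
  obtain ⟨δ₂, C₂, hδ₂, hC₂, h2⟩ := globalScales hCNN r n d
  have hmono : ∀ (x : ℕ) (δ' C' : ℝ), 1 ≤ x → min δ₁ δ₂ ≤ δ' → C' ≤ max C₁ C₂ → 0 ≤ C' →
      C' * (x : ℝ) ^ ((n : ℝ) - δ') ≤ max C₁ C₂ * (x : ℝ) ^ ((n : ℝ) - min δ₁ δ₂) := by
    intro x δ' C' hx hδ' hC' hC0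
    have hx1 : (1 : ℝ) ≤ x := by exact_mod_cast hx
    refine mul_le_mul hC' (Real.rpow_le_rpow_of_exponent_le hx1 (by linarith))
      (Real.rpow_nonneg (by linarith) _) (hC0.trans hC')
  refine ⟨min δ₁ δ₂, max C₁ C₂, lt_min hδ₁ hδ₂, lt_max_of_lt_left hC₁, ?_, ?_⟩
  · intro x hx ξ
    exact (h1 ξ x hx).trans (hmono x δ₁ C₁ hx (min_le_left _ _) (le_max_left _ _) hC₁.le)
  · intro A B
    obtain ⟨C, hC, h3⟩ := h2 A B
    refine ⟨C, hC, fun x hx => ?_⟩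
    have hx1 : (1 : ℝ) ≤ x := by exact_mod_cast hx
    obtain ⟨h4, h5⟩ := h3 x hx
    refine ⟨fun h ξ hh hxh hξ => (h4 h ξ hh hxh hξ).trans
      (hmono x δ₂ C₂ hx (min_le_right _ _) (le_max_right _ _) hC₂.le), fun h ξ hh hxh hξ => ?_⟩
    obtain ⟨S, hS, h6⟩ := h5 h ξ hh hxh hξ
    refine ⟨S, hS.trans
      (hmono x δ₂ C₂ hx (min_le_right _ _) (le_max_right _ _) hC₂.le), ?_⟩
    refine h6.mono fun K hK a ha haS => (hK a ha haS).trans ?_
    refine mul_le_mul_of_nonneg_right ?_ (Nat.cast_nonneg _)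
    exact Real.rpow_le_rpow_of_exponent_le hx1 (neg_le_neg (min_le_right _ _))

/-- (1) For all `n, d` there are `C, δ > 0` and `N₁` such that for all `N ≥ N₁` there is a set `E` of
at most `N ^ (2 δ)` integers such that all `n`-tuples of distinct integers of
`[N, N + N ^ (3 δ)]` outside `E` satisfy the inequality `|P(log a 1, ..., log a n)| ≥ H ^ (-C)`, for
all nonzero `P` of degree at most `d` and height at most `H`, for all `H` from `N` up to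
`exp (exp (N ^ δ))`.

(2) For all `n, d` there are `C, δ > 0` such that for every `x` at most `C x ^ (n - δ)` of the
tuples `a` in `{1, ..., x} ^ n` have a height `H ≥ 2` with `max a i ≤ H ≤ exp (exp ((max a i) ^ δ))`
at which some nonzero integer polynomial `P` of degree at most `d` and height at most `H` satisfies
`|P(log a 1, ..., log a n)| < H ^ (-C)`.

(3) For all `r, n, d` there are `δ > 0` and `N₁` such that for all `N ≥ N₁` and all `ξ` in `ℂ ^ r` there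
is a set `E` of at most `r + 1` integers such that all `n`-tuples of distinct integers of
`[N, N + N ^ δ]` outside `E` satisfy no relation `P(ξ, log a) = 0`, for integer polynomials `P` of
degree at most `d` with `P(ξ, Y) ≠ 0`.  Moreover for all `A, B` there is `C > 0` with: for all
`N ≥ N₁`, `h ≥ max 2 N` and all `ξ` in `ℂ ^ r` with `|ξ i| ≤ h ^ B` there is a set `E` of at most
`r + 1` integers such that no `n`-tuple of distinct integers of `[N, N + N ^ δ]` outside `E` is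
exceptional relative to `ξ` at any height `H` in `[h, h ^ B]`; and for all sequences of such
`h k`, `ξ k` and `η > 0` there is a set `E` of at most `(r + 1) / η` integers such that for infinitely
many `K` each such tuple outside `E` has this property for all but at most `n η K` of the `k < K`.

(4) For all `r, n, d` there are `C₀, δ > 0` such that for all `x ≥ 1` and all `ξ` in `ℂ ^ r` all but
`C₀ x ^ (n - δ)` of the tuples in `{1, ..., x} ^ n` satisfy no relation as in (3).  Moreover for all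
`A, B` there is `C > 0` with: for all `x ≥ 1`, all `h ≥ max 2 x` and all `ξ` in `ℂ ^ r` with
`|ξ i| ≤ h ^ B`, all but `C₀ x ^ (n - δ)` of the tuples in `{1, ..., x} ^ n` are not exceptional
relative to `ξ` at any height in `[h, h ^ B]`; and for all sequences of such `h k`, `ξ k` there is a
set `S` of at most `C₀ x ^ (n - δ)` tuples such that for infinitely many `K` each tuple of
`{1, ..., x} ^ n` outside `S` has this property for all but at most `x ^ (-δ) K` of the `k < K`. -/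
theorem fourParts : (∀ n d : ℕ, ∃ (C δ : ℝ) (N₁ : ℕ), 0 < C ∧ 0 < δ ∧ ∀ N : ℕ, N₁ ≤ N →
      ∃ E : Finset ℕ, (E.card : ℝ) ≤ (N : ℝ) ^ (2 * δ) ∧
        ∀ a : Fin n → ℕ, Function.Injective a →
        (∀ i, a i ∉ E ∧ N ≤ a i ∧ (a i : ℝ) ≤ N + (N : ℝ) ^ (3 * δ)) →
        ∀ H : ℝ, (N : ℝ) ≤ H → Real.log (Real.log H) ≤ (N : ℝ) ^ δ →
          Good d H C (fun i => Real.log (a i))) ∧
    (∀ n d : ℕ, ∃ C δ : ℝ, 0 < C ∧ 0 < δ ∧ ∀ x : ℕ, 1 ≤ x →
      (Set.ncard {a : Fin n → ℕ | (∀ i, 1 ≤ a i ∧ a i ≤ x) ∧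
        ∃ H : ℝ, 2 ≤ H ∧ (∀ i, (a i : ℝ) ≤ H) ∧ (∃ i, Real.log (Real.log H) ≤ (a i : ℝ) ^ δ) ∧
          ¬ Good d H C (fun i => Real.log (a i))} : ℝ) ≤ C * (x : ℝ) ^ ((n : ℝ) - δ)) ∧
    (∀ r n d : ℕ, ∃ (δ : ℝ) (N₁ : ℕ), 0 < δ ∧
      (∀ N : ℕ, N₁ ≤ N → ∀ ξ : Fin r → ℂ, ∃ E : Finset ℕ, E.card ≤ r + 1 ∧
        ∀ a : Fin n → ℕ, Function.Injective a →
          (∀ i, a i ∉ E ∧ N ≤ a i ∧ (a i : ℝ) ≤ N + (N : ℝ) ^ δ) →
          NoRelation ξ d (fun i => ((Real.log (a i) : ℝ) : ℂ))) ∧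
      ∀ A B : ℝ, ∃ C : ℝ, 0 < C ∧ ∀ N : ℕ, N₁ ≤ N →
      (∀ (h : ℝ) (ξ : Fin r → ℂ), 2 ≤ h → (N : ℝ) ≤ h → (∀ i, ‖ξ i‖ ≤ h ^ B) →
        ∃ E : Finset ℕ, E.card ≤ r + 1 ∧ ∀ a : Fin n → ℕ, Function.Injective a →
          (∀ i, a i ∉ E ∧ N ≤ a i ∧ (a i : ℝ) ≤ N + (N : ℝ) ^ δ) →
          ∀ H : ℝ, h ≤ H → H ≤ h ^ B →
            ¬ Exceptional ξ d H A C (fun i => ((Real.log (a i) : ℝ) : ℂ))) ∧
      (∀ (h : ℕ → ℝ) (ξ : ℕ → Fin r → ℂ), (∀ k, 2 ≤ h k) → (∀ k, (N : ℝ) ≤ h k) →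
        (∀ k i, ‖ξ k i‖ ≤ h k ^ B) → ∀ η : ℝ, 0 < η →
        ∃ E : Finset ℕ, η * E.card ≤ r + 1 ∧ ∃ᶠ K : ℕ in Filter.atTop,
          ∀ a : Fin n → ℕ, Function.Injective a →
          (∀ i, a i ∉ E ∧ N ≤ a i ∧ (a i : ℝ) ≤ N + (N : ℝ) ^ δ) →
            (Set.ncard {k : ℕ | k < K ∧ ∃ H : ℝ, h k ≤ H ∧ H ≤ h k ^ B ∧
              Exceptional (ξ k) d H A C (fun i => ((Real.log (a i) : ℝ) : ℂ))} : ℝ) ≤
              n * η * K)) ∧
    (∀ r n d : ℕ, ∃ δ C₀ : ℝ, 0 < δ ∧ 0 < C₀ ∧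
      (∀ x : ℕ, 1 ≤ x → ∀ ξ : Fin r → ℂ, (Set.ncard {a : Fin n → ℕ |
          (∀ i, 1 ≤ a i ∧ a i ≤ x) ∧
          ¬ NoRelation ξ d (fun i => ((Real.log (a i) : ℝ) : ℂ))} : ℝ) ≤
          C₀ * (x : ℝ) ^ ((n : ℝ) - δ)) ∧
      ∀ A B : ℝ, ∃ C : ℝ, 0 < C ∧ ∀ x : ℕ, 1 ≤ x →
      (∀ (h : ℝ) (ξ : Fin r → ℂ), 2 ≤ h → (x : ℝ) ≤ h → (∀ i, ‖ξ i‖ ≤ h ^ B) →
        (Set.ncard {a : Fin n → ℕ | (∀ i, 1 ≤ a i ∧ a i ≤ x) ∧ ∃ H : ℝ, h ≤ H ∧ H ≤ h ^ B ∧
          Exceptional ξ d H A C (fun i => ((Real.log (a i) : ℝ) : ℂ))} : ℝ) ≤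
          C₀ * (x : ℝ) ^ ((n : ℝ) - δ)) ∧
      (∀ (h : ℕ → ℝ) (ξ : ℕ → Fin r → ℂ), (∀ k, 2 ≤ h k) → (∀ k, (x : ℝ) ≤ h k) →
        (∀ k i, ‖ξ k i‖ ≤ h k ^ B) →
        ∃ S : Finset (Fin n → ℕ), (S.card : ℝ) ≤ C₀ * (x : ℝ) ^ ((n : ℝ) - δ) ∧
          ∃ᶠ K : ℕ in Filter.atTop, ∀ a : Fin n → ℕ, (∀ i, 1 ≤ a i ∧ a i ≤ x) → a ∉ S →
            (Set.ncard {k : ℕ | k < K ∧ ∃ H : ℝ, h k ≤ H ∧ H ≤ h k ^ B ∧
              Exceptional (ξ k) d H A C (fun i => ((Real.log (a i) : ℝ) : ℂ))} : ℝ) ≤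
              (x : ℝ) ^ (-δ) * K)) :=
  ⟨fun n d => localAbs Pool.Agent.H72.PSV.lcnAll n d,
    fun n d => absolute Pool.Agent.H72.PSV.cnnAll n d,
    fun r n d => localPart Pool.Agent.H72.PSV.lcnAll r n d,
    fun r n d => globalPart Pool.Agent.H72.PSV.cnnAll r n d⟩

end Pool.Agent.H72.PSV.Kept
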