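import Pool.Agent.H72.PSV.LFTQ

/-!
Module LOC of the board psv_modules (MP_3cf473_nt, PowerSaving): at every height at most `r + 1`
exceptional integers in every short interval.
-/

set_option autoImplicit false

open Finset Filter

namespace Pool.Agent.H72.PSV

open Pool.Agent.H72.BF

theorem loc (hPKG : T_PKG) (hEVP : T_EVP) (hCLR : T_CLR) (hGIN : T_GIN) (hELI : T_ELI) :
    T_LOC := by
  classical
  intro r d
  obtain ⟨D, hD⟩ := hELI r d
  obtain ⟨dl, N1, CG, hdl, hCG, hG⟩ := hGIN (r + 1) D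
  refine ⟨min dl 1, N1, lt_min hdl one_pos, fun A => ?_⟩
  by_contra hcon
  push Not at hcon
  choose H hH2 ξ hξ N hN1 hN hNH a ha ha0 haN hbad using
    fun j : ℕ => hcon ((j : ℝ) + 1) (by positivity)
  obtain ⟨P⟩ := hPKG H hH2
  -- sizes
  have hNr : ∀ j, (1 : ℝ) ≤ N j := fun j => by exact_mod_cast hN j
  have hpow1 : ∀ j, (N j : ℝ) ^ (min dl 1) ≤ N j := by
    intro j
    calc (N j : ℝ) ^ (min dl 1) ≤ (N j : ℝ) ^ (1 : ℝ) :=
          Real.rpow_le_rpow_of_exponent_le (hNr j) (min_le_right _ _)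
      _ = N j := Real.rpow_one _
  have haH : ∀ j i, (a j i : ℝ) ≤ H j ^ 2 := by
    intro j i
    have h1 := haN j i
    have h2 := hpow1 j
    have h3 := hNH j
    have h4 := hH2 j
    nlinarith
  have ha1 : ∀ j i, 1 ≤ a j i := fun j i =>
    ((hN j).trans (ha0 j)).trans ((ha j).monotone (Fin.zero_le i))
  have ha1r : ∀ j i, (1 : ℝ) ≤ a j i := fun j i => by exact_mod_cast ha1 j i
  have hzO : ∀ i, (fun j => ((Real.log (a j i) : ℝ) : ℂ)) ∈ P.O := by
    intro i
    refine P.mem_of_le 2 fun j => ?_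
    rw [Complex.norm_real, Real.norm_eq_abs, abs_of_nonneg (Real.log_nonneg (ha1r j i))]
    have h1 := Real.log_le_sub_one_of_pos (by linarith [ha1r j i] : (0 : ℝ) < a j i)
    have h2 := haH j i
    linarith
  have hrel : ∀ i, RelR P.kk (fun i => P.ev (fun j => ξ j i)) d
      (P.ev (fun j => ((Real.log (a j i) : ℝ) : ℂ))) := by
    intro i
    exact rel_kk hEVP P d A ξ hξ _ (hzO i) (Filter.Eventually.of_forall fun j => hbad j i)
  obtain ⟨Q, hQ0, hQD, hQ⟩ := hD P.kk P.F _ _ hrel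
  set w : ℕ → Fin (r + 1) → ℂ := fun j k =>
    ((Real.log (a j k.succ) : ℝ) : ℂ) - ((Real.log (a j 0) : ℝ) : ℂ) with hw
  have hwO : ∀ k, (fun j => w j k) ∈ P.O := fun k => P.O.sub_mem (hzO k.succ) (hzO 0)
  have hwe : (fun k => P.ev (fun j => w j k)) =
      fun k : Fin (r + 1) => P.ev (fun j => ((Real.log (a j k.succ) : ℝ) : ℂ)) -
        P.ev (fun j => ((Real.log (a j 0) : ℝ) : ℂ)) := by
    funext k
    rw [← P.ev_sub (hzO k.succ) (hzO 0)]
    rfl
  have hQ' : MvPolynomial.aeval (fun k => P.ev (fun j => w j k)) Q = 0 := by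
    rw [hwe]
    exact hQ
  obtain ⟨c, R, hRD, hRH, hR0, hRs⟩ := lift_rel hCLR hEVP P D Q hQ0 hQD w hwO hQ'
  set c1 : ℕ := max c 2 with hc1
  set c2 : ℕ := ⌈(c1 : ℝ) * CG⌉₊ with hc2
  obtain ⟨j, hj0, hjs⟩ := (hR0.and (hRs (c2 + 1))).exists
  have hHj := hH2 j
  have hHp : (0 : ℝ) < H j := by linarith
  have hH1 : (1 : ℝ) ≤ H j := by linarith
  have hlt : ∀ k : Fin (r + 1), a j 0 < a j k.succ := fun k => ha j (Fin.succ_pos k)
  have h1 := hG (a j 0) ((hN1 j).trans (ha0 j)) (fun k => a j k.succ - a j 0) (by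
      intro k k' hkk
      have h2 := hlt k
      have h3 := hlt k'
      have h4 : a j k.succ = a j k'.succ := by
        simp only at hkk
        omega
      exact Fin.succ_injective _ ((ha j).injective h4)) (fun k => by
      have := hlt k
      omega) (fun k => by
      have h2 := haN j k.succ
      have h3 : (N j : ℝ) ≤ a j 0 := by exact_mod_cast ha0 j
      have h4 : (N j : ℝ) ^ (min dl 1) ≤ (a j 0 : ℝ) ^ dl := by
        calc (N j : ℝ) ^ (min dl 1) ≤ (N j : ℝ) ^ dl :=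
              Real.rpow_le_rpow_of_exponent_le (hNr j) (min_le_left _ _)
          _ ≤ (a j 0 : ℝ) ^ dl := Real.rpow_le_rpow (by linarith [hNr j]) h3 hdl.le
      rw [Nat.cast_sub (hlt k).le]
      linarith) (H j ^ c1) (by
      refine (haH j 0).trans ?_
      exact pow_le_pow_right₀ hH1 (le_max_right _ _)) (R j) hj0 (hRD j) (fun m =>
      (hRH j m).trans (pow_le_pow_right₀ hH1 (le_max_left _ _)))
  have h2 : (fun k : Fin (r + 1) =>
      ((Real.log (1 + ((a j k.succ - a j 0 : ℕ) : ℝ) / (a j 0 : ℝ)) : ℝ) : ℂ)) = w j := by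
    funext k
    have h3 : (0 : ℝ) < a j 0 := by linarith [ha1r j 0]
    have h4 : (0 : ℝ) < a j k.succ := by linarith [ha1r j k.succ]
    have h5 : 1 + ((a j k.succ - a j 0 : ℕ) : ℝ) / (a j 0 : ℝ) = (a j k.succ : ℝ) / a j 0 := by
      rw [Nat.cast_sub (hlt k).le]
      field_simp
      ring
    rw [h5, Real.log_div h4.ne' h3.ne', hw]
    push_cast
    rfl
  rw [h2] at h1
  have h3 : (H j ^ c1) ^ CG ≤ H j ^ c2 := by
    rw [← Real.rpow_natCast, ← Real.rpow_mul hHp.le, ← Real.rpow_natCast]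
    exact Real.rpow_le_rpow_of_exponent_le hH1 (Nat.le_ceil _)
  have h4 : (0 : ℝ) ≤ ‖MvPolynomial.aeval (w j) (R j)‖ := norm_nonneg _
  have h5 : 1 ≤ H j ^ c2 * ‖MvPolynomial.aeval (w j) (R j)‖ :=
    h1.trans (mul_le_mul_of_nonneg_right h3 h4)
  rw [pow_succ] at hjs
  nlinarith

end Pool.Agent.H72.PSV
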