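import Pool.Agent.H72.PSV.T1
import Pool.Agent.H72.AAP.Avg2

/-!
The final step of the board psv_modules (MP_3cf473_nt, PowerSaving).
-/

set_option autoImplicit false

namespace Pool.Agent.H72.PSV

open MvPolynomial

/-- Some integer polynomial `P(X, Y)` in variables `X 1, ..., X r` and `Y 1, ..., Y n` of total
degree at most `d` with coefficients of absolute value at most `H` has absolute value below
`H ^ (-B)` at the point `(ξ, y)`, although the polynomial `P(ξ, Y)` in `Y 1, ..., Y n` has a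
coefficient of absolute value at least `H ^ (-A)`. -/
def Exceptional {r n : ℕ} (ξ : Fin r → ℂ) (d : ℕ) (H A B : ℝ) (y : Fin n → ℂ) : Prop :=
  ∃ P : MvPolynomial (Fin r ⊕ Fin n) ℤ, P.totalDegree ≤ d ∧
    (∀ e : Fin r ⊕ Fin n →₀ ℕ, |((coeff e P : ℤ) : ℝ)| ≤ H) ∧
    ‖aeval (Sum.elim ξ y) P‖ < H ^ (-B) ∧
    ∃ e : Fin n →₀ ℕ, H ^ (-A) ≤ ‖coeff e (aeval (Sum.elim (fun i => C (ξ i)) X) P)‖

theorem append_equiv {r n : ℕ} {α : Type} (u : Fin r → α) (v : Fin n → α) :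
    Fin.append u v ∘ finSumFinEquiv = Sum.elim u v := by
  funext i
  cases i with
  | inl i => simp
  | inr i => simp

theorem bad_of_exc {r n : ℕ} (ξ : Fin r → ℂ) (d : ℕ) (H A B : ℝ) (hH : 2 ≤ H) (y : Fin n → ℂ)
    (h : Exceptional ξ d H A B y) : Pool.Agent.H72.BF.badRN ξ d A B H y := by
  have hpos : ∀ C : ℝ, (0 : ℝ) < H ^ C := fun C => Real.rpow_pos_of_pos (by linarith) C
  obtain ⟨P, h1, h2, h3, e, h4⟩ := h
  refine ⟨rename finSumFinEquiv P, (totalDegree_rename_le _ _).trans h1, ?_, ?_, e, ?_⟩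
  · intro m
    have h5 : m = (m.mapDomain finSumFinEquiv.symm).mapDomain finSumFinEquiv := by
      rw [← Finsupp.mapDomain_comp]
      simp
    rw [h5, coeff_rename_mapDomain _ finSumFinEquiv.injective]
    exact h2 _
  · rw [aeval_rename, append_equiv]
    rw [Real.rpow_neg (by linarith), ← one_div, lt_div_iff₀ (hpos B), mul_comm] at h3
    exact h3
  · rw [aeval_rename, append_equiv]
    rw [Real.rpow_neg (by linarith), ← one_div, div_le_iff₀ (hpos A), mul_comm] at h4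
    exact h4

/-- If a point is exceptional at a height `H` between `h` and `h ^ B`, it is exceptional at the
height `h ^ B`, for another exponent. -/
theorem exc_up {r n : ℕ} (ξ : Fin r → ℂ) (d : ℕ) (h H A B C : ℝ) (hh : 2 ≤ h) (hH : h ≤ H)
    (hHB : H ≤ h ^ B) (hB : 1 ≤ B) (hC : 0 ≤ C) (y : Fin n → ℂ)
    (hE : Exceptional ξ d H A (C * B) y) : Exceptional ξ d (h ^ B) (max A 0) C y := by
  have hh0 : (0 : ℝ) ≤ h := by linarith
  have hh1 : (1 : ℝ) ≤ h := by linarith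
  have hH0 : (0 : ℝ) < H := by linarith
  obtain ⟨P, h1, h2, h3, e, h4⟩ := hE
  refine ⟨P, h1, fun m => (h2 m).trans hHB, ?_, e, ?_⟩
  · refine lt_of_lt_of_le h3 ?_
    have h5 : (h ^ B) ^ (-C) = h ^ (-(C * B)) := by
      rw [← Real.rpow_mul hh0]
      congr 1
      ring
    rw [h5]
    refine Real.rpow_le_rpow_of_nonpos (by linarith) hH ?_
    have : 0 ≤ C * B := mul_nonneg hC (by linarith)
    linarith
  · refine le_trans ?_ h4
    calc (h ^ B) ^ (-(max A 0)) ≤ H ^ (-(max A 0)) := by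
          refine Real.rpow_le_rpow_of_nonpos hH0 hHB ?_
          have : 0 ≤ max A 0 := le_max_right _ _
          linarith
      _ ≤ H ^ (-A) := by
          refine Real.rpow_le_rpow_of_exponent_le (by linarith) ?_
          have : A ≤ max A 0 := le_max_left _ _
          linarith

theorem le_up (h B : ℝ) (hh : 2 ≤ h) : h ≤ h ^ (max B 1) := by
  calc h = h ^ (1 : ℝ) := (Real.rpow_one _).symm
    _ ≤ h ^ (max B 1) := Real.rpow_le_rpow_of_exponent_le (by linarith) (le_max_right _ _)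

/-- Exchange of objects and scales: if at every scale at most `ε |Ω|` objects are bad, then outside
of `δ |Ω|` objects every object is bad at most at `(ε / δ) K` of the first `K` scales, for
infinitely many `K`. -/
theorem seq_gen {β : Type} (Ω : Finset β) (ε : ℝ) (hε : 0 ≤ ε) (E : β → ℕ → Prop)
    (hE : ∀ k, (Set.ncard {b : β | b ∈ Ω ∧ E b k} : ℝ) ≤ ε * Ω.card) (δ : ℝ) (hδ : 0 < δ) :
    ∃ G : Finset β, G ⊆ Ω ∧
      (1 - δ) * (Ω.card : ℝ) ≤ (G.card : ℝ) ∧ ∃ᶠ K : ℕ in Filter.atTop, ∀ b ∈ G,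
        δ * (Set.ncard {k : ℕ | k < K ∧ E b k} : ℝ) ≤ ε * K := by
  classical
  have hfin : ∀ k, Set.Finite {b : β | b ∈ Ω ∧ E b k} := fun k =>
    Set.Finite.subset Ω.finite_toSet (fun a ha => ha.1)
  rcases hε.eq_or_lt with h0 | hpos
  · refine ⟨Ω, Finset.Subset.refl _, ?_, Filter.Eventually.frequently ?_⟩
    · have : (0 : ℝ) ≤ δ * Ω.card := by positivity
      linarith
    · refine Filter.Eventually.of_forall fun K b hb => ?_
      have h1 : {k : ℕ | k < K ∧ E b k} = ∅ := by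
        ext k
        simp only [Set.mem_setOf_eq, Set.mem_empty_iff_false, iff_false, not_and]
        intro _ hbk
        have h2 := hE k
        rw [← h0, zero_mul] at h2
        have h3 : Set.ncard {b : β | b ∈ Ω ∧ E b k} = 0 := by
          have h4 : (Set.ncard {b : β | b ∈ Ω ∧ E b k} : ℝ) = 0 :=
            le_antisymm h2 (Nat.cast_nonneg _)
          exact_mod_cast h4
        rw [Set.ncard_eq_zero (hfin k)] at h3
        have h5 : b ∈ ({b : β | b ∈ Ω ∧ E b k} : Set β) := ⟨hb, hbk⟩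
        rw [h3] at h5
        exact h5
      rw [h1, ← h0]
      simp
  · have hE2 : ∀ k, ((Ω.filter (fun b => E b k)).card : ℝ) ≤ ε / δ * (δ * (Ω.card : ℝ)) := by
      intro k
      rw [← mul_assoc, div_mul_cancel₀ _ hδ.ne']
      refine le_trans ?_ (hE k)
      have h3 : ((Ω.filter (fun b => E b k) : Finset β) : Set β) ⊆ {b : β | b ∈ Ω ∧ E b k} := by
        intro a ha
        rw [Finset.mem_coe, Finset.mem_filter] at ha
        exact ha
      have h4 := Set.ncard_le_ncard h3 (hfin k)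
      rw [Set.ncard_coe_finset] at h4
      exact_mod_cast h4
    obtain ⟨G, hG1, hG2, hG3⟩ := Pool.Agent.H72.AAP.exchange2 Ω E δ (ε / δ) (Ω.card : ℝ)
      (div_pos hpos hδ) hE2
    refine ⟨G, hG1, by linarith, ?_⟩
    refine hG3.mono ?_
    intro K hK a ha
    have h5 := hK a ha
    have h6 : {k : ℕ | k < K ∧ E a k} = (((Finset.range K).filter (fun k => E a k) :
        Finset ℕ) : Set ℕ) := by
      ext k
      simp
    have h7 : Set.ncard {k : ℕ | k < K ∧ E a k} =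
        ((Finset.range K).filter (fun k => E a k)).card := by
      rw [h6, Set.ncard_coe_finset]
    rw [← h7] at h5
    calc δ * (Set.ncard {k : ℕ | k < K ∧ E a k} : ℝ) ≤ δ * (ε / δ * K) :=
          mul_le_mul_of_nonneg_left h5 hδ.le
      _ = ε * K := by field_simp

/-- the scales at which a tuple is exceptional -/
theorem seq_form {β : Type} {r n : ℕ} (d : ℕ) (Ω : Finset β) (z : β → Fin n → ℂ) (ε : ℝ)
    (hε : 0 ≤ ε) (A B C : ℝ) (hC : 0 < C) (h : ℕ → ℝ) (ξ : ℕ → Fin r → ℂ) (hh : ∀ k, 2 ≤ h k)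
    (hmain : ∀ k, (Set.ncard {b : β | b ∈ Ω ∧
      Pool.Agent.H72.BF.badRN (ξ k) d (max A 0) C (h k ^ (max B 1)) (z b)} : ℝ) ≤
      ε * Ω.card) (δ : ℝ) (hδ : 0 < δ) : ∃ G : Finset β, G ⊆ Ω ∧
      (1 - δ) * (Ω.card : ℝ) ≤ (G.card : ℝ) ∧ ∃ᶠ K : ℕ in Filter.atTop, ∀ b ∈ G,
        δ * (Set.ncard {k : ℕ | k < K ∧ ∃ H : ℝ, h k ≤ H ∧ H ≤ h k ^ B ∧
          Exceptional (ξ k) d H A (C * max B 1) (z b)} : ℝ) ≤ ε * K := by
  refine seq_gen Ω ε hε (fun b k => ∃ H : ℝ, h k ≤ H ∧ H ≤ h k ^ B ∧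
    Exceptional (ξ k) d H A (C * max B 1) (z b)) (fun k => ?_) δ hδ
  have hk := hh k
  refine le_trans ?_ (hmain k)
  have hfin : Set.Finite {b : β | b ∈ Ω ∧
      Pool.Agent.H72.BF.badRN (ξ k) d (max A 0) C (h k ^ (max B 1)) (z b)} :=
    Set.Finite.subset Ω.finite_toSet (fun a ha => ha.1)
  refine Nat.cast_le.2 (Set.ncard_le_ncard ?_ hfin)
  rintro a ⟨ha1, H, hH1, hH2, hexc⟩
  refine ⟨ha1, bad_of_exc _ _ _ _ _ (hk.trans (le_up _ B hk)) _ ?_⟩
  refine exc_up (ξ k) d (h k) H A (max B 1) C hk hH1 (hH2.trans ?_) (le_max_right _ _) hC.le _ hexc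
  exact Real.rpow_le_rpow_of_exponent_le (by linarith) (le_max_left _ _)

/-- `|P(y)| ≥ H ^ (-C)` for all nonzero integer polynomials `P` of total degree at most `d` with
coefficients of absolute value at most `H`. -/
def Good {n : ℕ} (d : ℕ) (H C : ℝ) (y : Fin n → ℝ) : Prop :=
  ∀ P : MvPolynomial (Fin n) ℤ, P ≠ 0 → P.totalDegree ≤ d →
    (∀ m : Fin n →₀ ℕ, |((coeff m P : ℤ) : ℝ)| ≤ H) → H ^ (-C) ≤ |aeval y P|

theorem aeval_X_eq_map {n : ℕ} (P : MvPolynomial (Fin n) ℤ) :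
    (aeval (X : Fin n → MvPolynomial (Fin n) ℂ) P) = map (Int.castRingHom ℂ) P := by
  induction P using MvPolynomial.induction_on with
  | C a => simp
  | add p q hp hq => rw [map_add, map_add, hp, hq]
  | mul_X p i hp => rw [map_mul, map_mul, hp, aeval_X, map_X]

theorem exc_of_not_good {n : ℕ} (d : ℕ) (H C : ℝ) (hH : 2 ≤ H) (y : Fin n → ℝ)
    (h : ¬ Good d H C y) :
    Exceptional (fun i : Fin 0 => (0 : ℂ)) d H 0 C (fun i => ((y i : ℝ) : ℂ)) := by
  classical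
  unfold Good at h
  push Not at h
  obtain ⟨P, hP0, hPd, hPH, hP⟩ := h
  set e : Fin 0 ⊕ Fin n ≃ Fin n := Equiv.emptySum (Fin 0) (Fin n) with he
  have hcomp : ∀ {α : Type} (u : Fin 0 → α) (v : Fin n → α), Sum.elim u v ∘ e.symm = v := by
    intro α u v
    funext i
    simp [he]
  refine ⟨rename e.symm P, (totalDegree_rename_le _ _).trans hPd, ?_, ?_, ?_⟩
  · intro m
    have h5 : m = (m.mapDomain e).mapDomain e.symm := by
      rw [← Finsupp.mapDomain_comp]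
      simp
    rw [h5, coeff_rename_mapDomain _ e.symm.injective]
    exact hPH _
  · rw [aeval_rename, hcomp]
    have h1 : aeval (fun i => ((y i : ℝ) : ℂ)) P = ((aeval y P : ℝ) : ℂ) :=
      MvPolynomial.aeval_algebraMap_apply (A := ℝ) ℂ y P
    rw [h1, Complex.norm_real, Real.norm_eq_abs]
    exact hP
  · obtain ⟨m, hm⟩ := MvPolynomial.ne_zero_iff.1 hP0
    refine ⟨m, ?_⟩
    rw [aeval_rename, hcomp, aeval_X_eq_map, coeff_map]
    simp only [neg_zero, Real.rpow_zero, eq_intCast, Complex.norm_intCast]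
    exact_mod_cast Int.one_le_abs hm

/-- the relative theorem for one range of heights -/
theorem single (hCNN : T_CNN) (r n d : ℕ) : ∃ δ C₀ : ℝ, 0 < δ ∧ δ ≤ 1 ∧ 0 < C₀ ∧
    ∀ A B : ℝ, ∃ C : ℝ, 0 < C ∧ ∀ x : ℕ, 1 ≤ x → ∀ h : ℝ, 2 ≤ h → (x : ℝ) ≤ h ^ (max B 1) →
    ∀ ξ : Fin r → ℂ, (∀ i, ‖ξ i‖ ≤ h ^ (max B 1)) →
    (Set.ncard {a : Fin n → ℕ | (∀ i, 1 ≤ a i ∧ a i ≤ x) ∧ ∃ H : ℝ, h ≤ H ∧ H ≤ h ^ B ∧
      Exceptional ξ d H A C (fun i => ((Real.log (a i) : ℝ) : ℂ))} : ℝ) ≤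
      C₀ * (x : ℝ) ^ ((n : ℝ) - δ) := by
  obtain ⟨δ, C₀, hδ, hδ1, hC₀, h1⟩ := hCNN r n d
  refine ⟨δ, C₀, hδ, hδ1, hC₀, fun A B => ?_⟩
  obtain ⟨C, hC, h2⟩ := h1 (max A 0)
  refine ⟨C * max B 1, mul_pos hC (lt_max_of_lt_right one_pos), fun x hx h hh hxh ξ hξ => ?_⟩
  refine le_trans ?_ (h2 x hx (h ^ (max B 1)) (hh.trans (le_up _ B hh)) hxh ξ hξ)
  have hfin : Set.Finite {a : Fin n → ℕ | (∀ i, 1 ≤ a i ∧ a i ≤ x) ∧
      Pool.Agent.H72.BF.badRN ξ d (max A 0) C (h ^ (max B 1))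
        (fun i => ((Real.log (a i) : ℝ) : ℂ))} := by
    refine Set.Finite.subset (Fintype.piFinset (fun _ : Fin n => Finset.Icc 1 x)).finite_toSet ?_
    intro a ha
    rw [Finset.mem_coe, Fintype.mem_piFinset]
    intro i
    exact Finset.mem_Icc.2 (ha.1 i)
  refine Nat.cast_le.2 (Set.ncard_le_ncard ?_ hfin)
  rintro a ⟨ha1, H, hH1, hH2, hexc⟩
  refine ⟨ha1, bad_of_exc _ _ _ _ _ (hh.trans (le_up _ B hh)) _ ?_⟩
  refine exc_up ξ d h H A (max B 1) C hh hH1 (hH2.trans ?_) (le_max_right _ _) hC.le _ hexc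
  exact Real.rpow_le_rpow_of_exponent_le (by linarith) (le_max_left _ _)

end Pool.Agent.H72.PSV
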