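import Pool.Agent.H72.PSV.Main

/-!
The final step of the board psv_modules (MP_3cf473_nt, PowerSaving): one exceptional set for all
heights in a doubly exponential range.
-/

set_option autoImplicit false

namespace Pool.Agent.H72.PSV

open MvPolynomial

theorem ncard_eq {n : ℕ} (x : ℕ) (p : (Fin n → ℕ) → Prop) [DecidablePred p] :
    Set.ncard {a : Fin n → ℕ | (∀ i, 1 ≤ a i ∧ a i ≤ x) ∧ p a} =
      ((Fintype.piFinset (fun _ : Fin n => Finset.Icc 1 x)).filter p).card := by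
  rw [← Set.ncard_coe_finset]
  congr 1
  ext a
  simp [Fintype.mem_piFinset]

theorem log_four_gt : (1 : ℝ) < Real.log 4 := by
  have h1 : Real.log 4 = 2 * Real.log 2 := by
    rw [show (4 : ℝ) = 2 ^ 2 by norm_num, Real.log_pow]
    norm_num
  have := Real.log_two_gt_d9
  linarith

/-- one dyadic range of tuples, all heights up to `exp (exp (X ^ δ))` -/
theorem dyadic (hCNN : T_CNN) (n d : ℕ) : ∃ C₁ C δ : ℝ, 0 < C₁ ∧ 0 < C ∧ 0 < δ ∧ δ ≤ 1 ∧
    ∀ x : ℕ, 1 ≤ x →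
    (Set.ncard {a : Fin n → ℕ | (∀ i, 1 ≤ a i ∧ a i ≤ x) ∧ ∃ H : ℝ, 2 ≤ H ∧ (x : ℝ) ≤ 2 * H ∧
      Real.log (Real.log H) ≤ (x : ℝ) ^ δ ∧ ¬ Good d H C (fun i => Real.log (a i))} : ℝ) ≤
      C₁ * (x : ℝ) ^ ((n : ℝ) - δ) := by
  classical
  obtain ⟨δ₀, C₀, hδ₀, hδ₁, hC₀, h1⟩ := single hCNN 0 n d
  obtain ⟨C, hC, h2⟩ := h1 0 2
  have hmax : max (2 : ℝ) 1 = 2 := by norm_num
  rw [hmax] at h2
  refine ⟨8 ^ (n + 1) + 3 * C₀, C, δ₀ / 2, by positivity, hC, by positivity, by linarith, ?_⟩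
  intro x hx
  have hx1 : (1 : ℝ) ≤ x := by exact_mod_cast hx
  have hx0 : (0 : ℝ) < x := by linarith
  set Ω : Finset (Fin n → ℕ) := Fintype.piFinset (fun _ : Fin n => Finset.Icc 1 x) with hΩ
  set p : (Fin n → ℕ) → Prop := fun a => ∃ H : ℝ, 2 ≤ H ∧ (x : ℝ) ≤ 2 * H ∧
      Real.log (Real.log H) ≤ (x : ℝ) ^ (δ₀ / 2) ∧
      ¬ Good d H C (fun i => Real.log (a i)) with hp
  rw [ncard_eq x p]
  rcases lt_or_ge x 8 with hx8 | hx8
  · -- small `x`
    have h3 : ((Ω.filter p).card : ℝ) ≤ (x : ℝ) ^ n := by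
      have h4 : (Ω.filter p).card ≤ Ω.card := Finset.card_filter_le _ _
      have h5 : Ω.card = x ^ n := by simp [hΩ, Fintype.card_piFinset]
      rw [h5] at h4
      exact_mod_cast h4
    have hx8' : (x : ℝ) ≤ 8 := by exact_mod_cast hx8.le
    have h6 : (x : ℝ) ^ n ≤ 8 ^ n := pow_le_pow_left₀ hx0.le hx8' n
    have h7 : (8 : ℝ)⁻¹ ≤ (x : ℝ) ^ ((n : ℝ) - δ₀ / 2) := by
      calc (8 : ℝ)⁻¹ ≤ (x : ℝ)⁻¹ := inv_anti₀ hx0 hx8'
        _ = (x : ℝ) ^ (-1 : ℝ) := (Real.rpow_neg_one _).symm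
        _ ≤ (x : ℝ) ^ ((n : ℝ) - δ₀ / 2) := by
          refine Real.rpow_le_rpow_of_exponent_le hx1 ?_
          have : (0 : ℝ) ≤ n := Nat.cast_nonneg _
          linarith
    calc ((Ω.filter p).card : ℝ) ≤ 8 ^ n := h3.trans h6
      _ = 8 ^ (n + 1) * (8 : ℝ)⁻¹ := by rw [pow_succ]; field_simp
      _ ≤ 8 ^ (n + 1) * (x : ℝ) ^ ((n : ℝ) - δ₀ / 2) :=
          mul_le_mul_of_nonneg_left h7 (by positivity)
      _ ≤ (8 ^ (n + 1) + 3 * C₀) * (x : ℝ) ^ ((n : ℝ) - δ₀ / 2) := by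
          refine mul_le_mul_of_nonneg_right ?_ (Real.rpow_nonneg hx0.le _)
          linarith
  · -- large `x`
    have hx8' : (8 : ℝ) ≤ x := by exact_mod_cast hx8
    set y : ℝ := (x : ℝ) / 2 with hy
    have hy4 : (4 : ℝ) ≤ y := by rw [hy]; linarith
    have hlogy : 1 < Real.log y :=
      log_four_gt.trans_le (Real.log_le_log (by norm_num) hy4)
    set K : ℕ := ⌊2 * (x : ℝ) ^ (δ₀ / 2)⌋₊ + 1 with hK
    have hxd : (1 : ℝ) ≤ (x : ℝ) ^ (δ₀ / 2) := Real.one_le_rpow hx1 (by positivity)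
    have hK3 : (K : ℝ) ≤ 3 * (x : ℝ) ^ (δ₀ / 2) := by
      have h3 : ((⌊2 * (x : ℝ) ^ (δ₀ / 2)⌋₊ : ℕ) : ℝ) ≤ 2 * (x : ℝ) ^ (δ₀ / 2) :=
        Nat.floor_le (by positivity)
      rw [hK]
      push_cast
      linarith
    set h : ℕ → ℝ := fun j => y ^ (2 ^ j : ℕ) with hh
    have hh1 : ∀ j, y ≤ h j := by
      intro j
      calc y = y ^ 1 := (pow_one y).symm
        _ ≤ y ^ (2 ^ j : ℕ) := pow_le_pow_right₀ (by linarith) Nat.one_le_two_pow
    set q : ℕ → (Fin n → ℕ) → Prop := fun j a => ∃ H : ℝ, h j ≤ H ∧ H ≤ h j ^ (2 : ℝ) ∧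
      Exceptional (fun i : Fin 0 => (0 : ℂ)) d H 0 C (fun i => ((Real.log (a i) : ℝ) : ℂ)) with hq
    have hqj : ∀ j, ((Ω.filter (q j)).card : ℝ) ≤ C₀ * (x : ℝ) ^ ((n : ℝ) - δ₀) := by
      intro j
      have h3 := h2 x hx (h j) (by linarith [hh1 j]) (by
        have h4 := hh1 j
        rw [Real.rpow_two]
        nlinarith) (fun i : Fin 0 => (0 : ℂ)) (fun i => i.elim0)
      rw [ncard_eq x (q j)] at h3
      exact h3
    have hsub : Ω.filter p ⊆ (Finset.range K).biUnion (fun j => Ω.filter (q j)) := by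
      intro a ha
      rw [Finset.mem_filter] at ha
      obtain ⟨haΩ, H, hH2, hxH, hHx, hbad⟩ := ha
      have hyH : y ≤ H := by rw [hy]; linarith
      have hlogH : Real.log y ≤ Real.log H := Real.log_le_log (by linarith) hyH
      have hlogH1 : 1 < Real.log H := hlogy.trans_le hlogH
      obtain ⟨j, hj1, hj2⟩ := exists_nat_pow_near
        ((one_le_div (by linarith)).2 hlogH : (1 : ℝ) ≤ Real.log H / Real.log y)
        (by norm_num : (1 : ℝ) < 2)
      rw [le_div_iff₀ (by linarith)] at hj1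
      rw [div_lt_iff₀ (by linarith)] at hj2
      have hj1' : h j ≤ H := by
        rw [← Real.log_le_log_iff (by linarith [hh1 j]) (by linarith), hh]
        simp only
        rw [Real.log_pow]
        push_cast
        exact hj1
      have hj2' : H ≤ h j ^ (2 : ℝ) := by
        have h5 : h j ^ (2 : ℝ) = y ^ (2 ^ (j + 1) : ℕ) := by
          rw [Real.rpow_two, hh]
          simp only
          rw [← pow_mul, pow_succ]
        rw [h5, ← Real.log_le_log_iff (by linarith) (by positivity), Real.log_pow]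
        push_cast
        exact hj2.le
      have hjK : j < K := by
        have h6 : (2 : ℝ) ^ j ≤ Real.log H := by
          refine le_trans ?_ hj1
          nlinarith [pow_pos (by norm_num : (0 : ℝ) < 2) j]
        have h7 : (j : ℝ) * Real.log 2 ≤ Real.log (Real.log H) := by
          rw [← Real.log_pow]
          exact Real.log_le_log (by positivity) h6
        have h8 := Real.log_two_gt_d9
        have h9 : (j : ℝ) ≤ 2 * (x : ℝ) ^ (δ₀ / 2) := by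
          have : (0 : ℝ) ≤ j := Nat.cast_nonneg _
          nlinarith
        rw [hK]
        exact Nat.lt_succ_of_le (Nat.le_floor h9)
      rw [Finset.mem_biUnion]
      refine ⟨j, Finset.mem_range.2 hjK, Finset.mem_filter.2 ⟨haΩ, H, hj1', hj2', ?_⟩⟩
      exact exc_of_not_good d H C hH2 _ hbad
    have h10 : ((Ω.filter p).card : ℝ) ≤ ∑ j ∈ Finset.range K, ((Ω.filter (q j)).card : ℝ) := by
      have := (Finset.card_le_card hsub).trans Finset.card_biUnion_le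
      exact_mod_cast this
    calc ((Ω.filter p).card : ℝ) ≤ ∑ j ∈ Finset.range K, ((Ω.filter (q j)).card : ℝ) := h10
      _ ≤ ∑ _j ∈ Finset.range K, C₀ * (x : ℝ) ^ ((n : ℝ) - δ₀) :=
          Finset.sum_le_sum fun j _ => hqj j
      _ = K * (C₀ * (x : ℝ) ^ ((n : ℝ) - δ₀)) := by
          rw [Finset.sum_const, Finset.card_range, nsmul_eq_mul]
      _ ≤ (3 * (x : ℝ) ^ (δ₀ / 2)) * (C₀ * (x : ℝ) ^ ((n : ℝ) - δ₀)) :=
          mul_le_mul_of_nonneg_right hK3 (by positivity)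
      _ = 3 * C₀ * ((x : ℝ) ^ (δ₀ / 2) * (x : ℝ) ^ ((n : ℝ) - δ₀)) := by ring
      _ = 3 * C₀ * (x : ℝ) ^ ((n : ℝ) - δ₀ / 2) := by
          rw [← Real.rpow_add hx0]
          congr 2
          ring
      _ ≤ (8 ^ (n + 1) + 3 * C₀) * (x : ℝ) ^ ((n : ℝ) - δ₀ / 2) := by
          refine mul_le_mul_of_nonneg_right ?_ (Real.rpow_nonneg hx0.le _)
          have : (0 : ℝ) < 8 ^ (n + 1) := by positivity
          linarith

theorem Good.mono {n : ℕ} {d : ℕ} {H C C' : ℝ} {y : Fin n → ℝ} (h : Good d H C y) (hH : 2 ≤ H)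
    (hC : C ≤ C') : Good d H C' y := by
  intro P h1 h2 h3
  refine le_trans ?_ (h P h1 h2 h3)
  exact Real.rpow_le_rpow_of_exponent_le (by linarith) (by linarith)

/-- the absolute theorem: one exceptional set of tuples -/
theorem absolute (hCNN : T_CNN) (n d : ℕ) : ∃ C δ : ℝ, 0 < C ∧ 0 < δ ∧ ∀ x : ℕ, 1 ≤ x →
    (Set.ncard {a : Fin n → ℕ | (∀ i, 1 ≤ a i ∧ a i ≤ x) ∧
      ∃ H : ℝ, 2 ≤ H ∧ (∀ i, (a i : ℝ) ≤ H) ∧ (∃ i, Real.log (Real.log H) ≤ (a i : ℝ) ^ δ) ∧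
        ¬ Good d H C (fun i => Real.log (a i))} : ℝ) ≤ C * (x : ℝ) ^ ((n : ℝ) - δ) := by
  classical
  obtain ⟨C₁, C, δ, hC₁, hC, hδ, hδ1, h1⟩ := dyadic hCNN n d
  -- number of dyadic ranges
  set M : ℝ := 1 + 2 * (δ / 2)⁻¹ with hM
  have hδ2 : 0 < δ / 2 := by positivity
  have hMpos : 0 < M := by positivity
  set C₂ : ℝ := M * C₁ * 2 ^ (n : ℝ) with hC₂
  have hC₂pos : 0 < C₂ := by positivity
  refine ⟨max C C₂, δ / 2, lt_max_of_lt_left hC, hδ2, ?_⟩
  intro x hx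
  have hx1 : (1 : ℝ) ≤ x := by exact_mod_cast hx
  have hx0 : (0 : ℝ) < x := by linarith
  have hxpow : (0 : ℝ) ≤ (x : ℝ) ^ ((n : ℝ) - δ / 2) := Real.rpow_nonneg hx0.le _
  set Ω : ℕ → Finset (Fin n → ℕ) := fun x => Fintype.piFinset (fun _ : Fin n => Finset.Icc 1 x)
    with hΩ
  set p : (Fin n → ℕ) → Prop := fun a => ∃ H : ℝ, 2 ≤ H ∧ (∀ i, (a i : ℝ) ≤ H) ∧
    (∃ i, Real.log (Real.log H) ≤ (a i : ℝ) ^ (δ / 2)) ∧
        ¬ Good d H (max C C₂) (fun i => Real.log (a i)) with hp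
  rw [ncard_eq x p]
  rcases Nat.eq_zero_or_pos n with hn | hn
  · have h3 : (Fintype.piFinset (fun _ : Fin n => Finset.Icc 1 x)).filter p = ∅ := by
      refine Finset.filter_eq_empty_iff.2 ?_
      rintro a - ⟨H, -, -, ⟨i, -⟩, -⟩
      subst hn
      exact i.elim0
    rw [h3]
    simp only [Finset.card_empty, Nat.cast_zero]
    exact mul_nonneg (hC.le.trans (le_max_left _ _)) hxpow
  · set q : ℕ → (Fin n → ℕ) → Prop := fun k a => ∃ H : ℝ, 2 ≤ H ∧
      ((2 ^ (k + 1) : ℕ) : ℝ) ≤ 2 * H ∧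
      Real.log (Real.log H) ≤ ((2 ^ (k + 1) : ℕ) : ℝ) ^ δ ∧
      ¬ Good d H C (fun i => Real.log (a i)) with hq
    have hqk : ∀ k, (((Ω (2 ^ (k + 1))).filter (q k)).card : ℝ) ≤
        C₁ * ((2 ^ (k + 1) : ℕ) : ℝ) ^ ((n : ℝ) - δ) := by
      intro k
      have h3 := h1 (2 ^ (k + 1)) Nat.one_le_two_pow
      rw [ncard_eq (2 ^ (k + 1)) (q k)] at h3
      exact h3
    set K : ℕ := Nat.log 2 x + 1 with hK
    have hsub : (Ω x).filter p ⊆
        (Finset.range K).biUnion (fun k => (Ω (2 ^ (k + 1))).filter (q k)) := by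
      intro a ha
      rw [Finset.mem_filter] at ha
      obtain ⟨haΩ, H, hH2, haH, ⟨i₀, hi₀⟩, hbad⟩ := ha
      rw [hΩ, Fintype.mem_piFinset] at haΩ
      have : Nonempty (Fin n) := ⟨i₀⟩
      obtain ⟨i₁, hi₁⟩ := Finite.exists_max a
      set m : ℕ := a i₁ with hm
      have hm1 : 1 ≤ m := (Finset.mem_Icc.1 (haΩ i₁)).1
      have hmx : m ≤ x := (Finset.mem_Icc.1 (haΩ i₁)).2
      set k : ℕ := Nat.log 2 m with hk
      have hk1 : 2 ^ k ≤ m := Nat.pow_log_le_self 2 (by omega)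
      have hk2 : m < 2 ^ (k + 1) := Nat.lt_pow_succ_log_self (by norm_num) m
      have hkK : k < K := by
        have : k ≤ Nat.log 2 x := Nat.log_mono_right hmx
        omega
      rw [Finset.mem_biUnion]
      refine ⟨k, Finset.mem_range.2 hkK, Finset.mem_filter.2 ⟨?_, H, hH2, ?_, ?_, ?_⟩⟩
      · rw [hΩ, Fintype.mem_piFinset]
        intro i
        exact Finset.mem_Icc.2 ⟨(Finset.mem_Icc.1 (haΩ i)).1, (hi₁ i).trans hk2.le⟩
      · have h3 : ((2 ^ (k + 1) : ℕ) : ℝ) ≤ 2 * (m : ℝ) := by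
          have : 2 ^ (k + 1) ≤ 2 * m := by rw [pow_succ]; omega
          exact_mod_cast this
        have h4 := haH i₁
        linarith
      · refine hi₀.trans ?_
        have h5 : (a i₀ : ℝ) ≤ ((2 ^ (k + 1) : ℕ) : ℝ) := by
          exact_mod_cast (hi₁ i₀).trans hk2.le
        have h6 : (1 : ℝ) ≤ ((2 ^ (k + 1) : ℕ) : ℝ) := by
          exact_mod_cast (Nat.one_le_two_pow : 1 ≤ 2 ^ (k + 1))
        calc (a i₀ : ℝ) ^ (δ / 2) ≤ ((2 ^ (k + 1) : ℕ) : ℝ) ^ (δ / 2) :=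
              Real.rpow_le_rpow (Nat.cast_nonneg _) h5 hδ2.le
          _ ≤ ((2 ^ (k + 1) : ℕ) : ℝ) ^ δ :=
              Real.rpow_le_rpow_of_exponent_le h6 (by linarith)
      · intro hg
        exact hbad (hg.mono hH2 (le_max_left _ _))
    have hnd : (0 : ℝ) ≤ (n : ℝ) - δ := by
      have : (1 : ℝ) ≤ n := by exact_mod_cast hn
      linarith
    have hqk2 : ∀ k ∈ Finset.range K, (((Ω (2 ^ (k + 1))).filter (q k)).card : ℝ) ≤
        C₁ * (2 ^ (n : ℝ) * (x : ℝ) ^ ((n : ℝ) - δ)) := by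
      intro k hk
      refine (hqk k).trans (mul_le_mul_of_nonneg_left ?_ hC₁.le)
      have h3 : 2 ^ k ≤ x := by
        have h4 : k ≤ Nat.log 2 x := by
          have := Finset.mem_range.1 hk
          omega
        exact (Nat.pow_le_pow_right (by norm_num) h4).trans (Nat.pow_log_le_self 2 (by omega))
      have h5 : ((2 ^ (k + 1) : ℕ) : ℝ) ≤ 2 * (x : ℝ) := by
        have : 2 ^ (k + 1) ≤ 2 * x := by rw [pow_succ]; omega
        exact_mod_cast this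
      calc ((2 ^ (k + 1) : ℕ) : ℝ) ^ ((n : ℝ) - δ) ≤ (2 * (x : ℝ)) ^ ((n : ℝ) - δ) :=
            Real.rpow_le_rpow (Nat.cast_nonneg _) h5 hnd
        _ = 2 ^ ((n : ℝ) - δ) * (x : ℝ) ^ ((n : ℝ) - δ) :=
            Real.mul_rpow (by norm_num) hx0.le
        _ ≤ 2 ^ (n : ℝ) * (x : ℝ) ^ ((n : ℝ) - δ) := by
            refine mul_le_mul_of_nonneg_right ?_ (Real.rpow_nonneg hx0.le _)
            exact Real.rpow_le_rpow_of_exponent_le (by norm_num) (by linarith)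
    have hKM : (K : ℝ) ≤ M * (x : ℝ) ^ (δ / 2) := by
      have h3 : (Nat.log 2 x : ℝ) * Real.log 2 ≤ Real.log x := by
        have h4 : ((2 ^ Nat.log 2 x : ℕ) : ℝ) ≤ x := by
          exact_mod_cast Nat.pow_log_le_self 2 (by omega)
        have h5 := Real.log_le_log (by positivity) h4
        rw [Nat.cast_pow, Real.log_pow] at h5
        exact_mod_cast h5
      have h6 := Real.log_le_rpow_div hx0.le hδ2
      have h7 := Real.log_two_gt_d9
      have h8 : (0 : ℝ) ≤ (Nat.log 2 x : ℝ) := Nat.cast_nonneg _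
      have h9 : (1 : ℝ) ≤ (x : ℝ) ^ (δ / 2) := Real.one_le_rpow hx1 hδ2.le
      have h10 : (Nat.log 2 x : ℝ) ≤ 2 * ((x : ℝ) ^ (δ / 2) / (δ / 2)) := by nlinarith
      rw [hK, hM]
      push_cast
      have h11 : 2 * ((x : ℝ) ^ (δ / 2) / (δ / 2)) = 2 * (δ / 2)⁻¹ * (x : ℝ) ^ (δ / 2) := by
        rw [div_eq_mul_inv]
        ring
      rw [h11] at h10
      linarith
    have h12 : ((((Ω x).filter p)).card : ℝ) ≤
        ∑ k ∈ Finset.range K, (((Ω (2 ^ (k + 1))).filter (q k)).card : ℝ) := by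
      have := (Finset.card_le_card hsub).trans Finset.card_biUnion_le
      exact_mod_cast this
    calc ((((Ω x).filter p)).card : ℝ)
        ≤ ∑ k ∈ Finset.range K, (((Ω (2 ^ (k + 1))).filter (q k)).card : ℝ) := h12
      _ ≤ ∑ _k ∈ Finset.range K, C₁ * (2 ^ (n : ℝ) * (x : ℝ) ^ ((n : ℝ) - δ)) :=
          Finset.sum_le_sum hqk2
      _ = K * (C₁ * (2 ^ (n : ℝ) * (x : ℝ) ^ ((n : ℝ) - δ))) := by
          rw [Finset.sum_const, Finset.card_range, nsmul_eq_mul]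
      _ ≤ (M * (x : ℝ) ^ (δ / 2)) * (C₁ * (2 ^ (n : ℝ) * (x : ℝ) ^ ((n : ℝ) - δ))) :=
          mul_le_mul_of_nonneg_right hKM (by positivity)
      _ = C₂ * ((x : ℝ) ^ (δ / 2) * (x : ℝ) ^ ((n : ℝ) - δ)) := by rw [hC₂]; ring
      _ = C₂ * (x : ℝ) ^ ((n : ℝ) - δ / 2) := by
          rw [← Real.rpow_add hx0]
          congr 2
          ring
      _ ≤ max C C₂ * (x : ℝ) ^ ((n : ℝ) - δ / 2) :=
          mul_le_mul_of_nonneg_right (le_max_right _ _) hxpow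

end Pool.Agent.H72.PSV
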