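import Pool.Agent.H72.PSV.T1

open Finset Filter

namespace Pool.Agent.H72.PSV

open Pool.Agent.H72.BF (RelR badR badRN Pkg)

/-! Targets, second part (MP_3cf473_nt, PowerSaving): in every short interval all tuples of distinct
integers but those with an entry in a set of `r + 1` integers. -/

noncomputable section

/-- a filtration of a subalgebra with at most `c (n + 1) ^ ρ` dimensions in degree `n ≥ 1` -/
structure Filt (K F : Type) [Field K] [Field F] [Algebra K F] (ρ c : ℕ) where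
  G : ℕ → Submodule K F
  one : (1 : F) ∈ G 1
  mono : ∀ n m, 1 ≤ n → n ≤ m → G n ≤ G m
  mul : ∀ n m, 1 ≤ n → 1 ≤ m → ∀ x ∈ G n, ∀ y ∈ G m, x * y ∈ G (n + m)
  fin : ∀ n, 1 ≤ n → FiniteDimensional K (G n)
  dim : ∀ n, 1 ≤ n → Module.finrank K (G n) ≤ c * (n + 1) ^ ρ

/-- ROW FBS: the filtration by the degree of the polynomials in `s` -/
def T_FBS : Prop := ∀ (ρ : ℕ) (K F : Type) [Field K] [Field F] [Algebra K F] (s : Fin ρ → F),
  ∃ Φ : Filt K F ρ 1, ∀ i, s i ∈ Φ.G 1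

/-- ROW FST: adjunction of an element which is algebraic of bounded degree -/
def T_FST : Prop := ∀ ρ c d : ℕ, ∃ c' : ℕ, ∀ (K F : Type) [Field K] [Field F] [Algebra K F]
  (Φ : Filt K F ρ c) (y : F) (a : Fin (d + 1) → F), (∀ l, a l ∈ Φ.G (d + 1)) → (∃ l, a l ≠ 0) →
  ∑ l, a l * y ^ (l : ℕ) = 0 →
  ∃ Φ' : Filt K F ρ c', (∀ n, 1 ≤ n → Φ.G n ≤ Φ'.G n) ∧ y ∈ Φ'.G 1

/-- ROW FCT: `ρ + 1` elements of degree one satisfy a relation of bounded degree -/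
def T_FCT : Prop := ∀ ρ c : ℕ, ∃ D : ℕ, ∀ (K F : Type) [Field K] [Field F] [Algebra K F]
  (Φ : Filt K F ρ c) (u : Fin (ρ + 1) → F), (∀ i, u i ∈ Φ.G 1) →
  ∃ Q : MvPolynomial (Fin (ρ + 1)) K, Q ≠ 0 ∧ Q.totalDegree ≤ D ∧ MvPolynomial.aeval u Q = 0

/-- a relation of degree at most `d` between `t` and the tuple `y` which is nontrivial in `y` -/
def RelRN (K : Type) {F : Type} [Field K] [Field F] [Algebra K F] {r n : ℕ} (t : Fin r → F)
    (d : ℕ) (y : Fin n → F) : Prop :=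
  ∃ Q : MvPolynomial (Fin (r + n)) K, Q.totalDegree ≤ d ∧
    MvPolynomial.aeval (Fin.append t y : Fin (r + n) → F) Q = 0 ∧
    MvPolynomial.aeval (Fin.append (fun i => MvPolynomial.C (t i)) MvPolynomial.X :
      Fin (r + n) → MvPolynomial (Fin n) F) Q ≠ 0

/-- ROW RPO: a dependent tuple has an entry which is algebraic over the previous ones; stated for
filtrations -/
def T_RPO : Prop := ∀ (r n d : ℕ) (K F : Type) [Field K] [Field F] [Algebra K F]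
  (t : Fin r → F) (y : Fin n → F), RelRN K t d y →
  ∃ p : Fin n, ∀ (ρ c : ℕ) (Φ : Filt K F ρ c), (∀ i, t i ∈ Φ.G 1) →
    (∀ q : Fin n, q < p → y q ∈ Φ.G 1) →
    ∃ a : Fin (d + 1) → F, (∀ l, a l ∈ Φ.G (d + 1)) ∧ (∃ l, a l ≠ 0) ∧
      ∑ l, a l * y p ^ (l : ℕ) = 0

/-- ROW MAT: the combinatorial step -/
def T_MAT : Prop := ∀ r n d : ℕ, ∃ M D : ℕ, ∀ (K F : Type) [Field K] [Field F] [Algebra K F]
  (t : Fin r → F) (α : Type) (y : α → F),
  (∀ m : ℕ, m ≤ M → ∀ a : Fin (m + 1) → α, Function.Injective a → ∃ i₀ : Fin (m + 1),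
    ∀ Q : MvPolynomial (Fin m) K, Q ≠ 0 → Q.totalDegree ≤ D →
      MvPolynomial.aeval (fun i : Fin m => y (a (i₀.succAbove i)) - y (a i₀)) Q ≠ 0) →
  ∃ B : Finset α, B.card ≤ r + 1 ∧ ∀ a : Fin n → α, Function.Injective a → (∀ i, a i ∉ B) →
    ¬ RelRN K t d (fun i => y (a i))

/-- ROW RKN: a sequence of tuples which are bad at almost all scales satisfies a relation in the
residue field -/
def T_RKN : Prop := ∀ (H : ℕ → ℝ) (P : Pkg H) (r n d : ℕ) (A : ℝ) (ξ : ℕ → Fin r → ℂ)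
  (z : ℕ → Fin n → ℂ), (∀ j i, ‖ξ j i‖ ≤ H j) → (∀ i, (fun j => z j i) ∈ P.O) →
  (∀ᶠ j : ℕ in (hyperfilter ℕ : Filter ℕ), badRN (ξ j) d A ((j : ℝ) + 1) (H j) (z j)) →
  RelRN P.kk (fun i => P.ev (fun j => ξ j i)) d (fun i => P.ev (fun j => z j i))

/-- ROW LCN: at every height all tuples of distinct integers of a short interval are good, except
those with an entry in a set of `r + 1` integers -/
def T_LCN : Prop := ∀ r n d : ℕ, ∃ (dl : ℝ) (N1 : ℕ), 0 < dl ∧ ∀ A : ℝ, ∃ C : ℝ, 0 < C ∧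
  ∀ H : ℝ, 2 ≤ H → ∀ ξ : Fin r → ℂ, (∀ i, ‖ξ i‖ ≤ H) → ∀ N : ℕ, N1 ≤ N → 1 ≤ N → (N : ℝ) ≤ H →
  ∃ B : Finset ℕ, B.card ≤ r + 1 ∧ ∀ a : Fin n → ℕ, Function.Injective a → (∀ i, a i ∉ B) →
    (∀ i, N ≤ a i ∧ (a i : ℝ) ≤ N + (N : ℝ) ^ dl) →
    ¬ badRN ξ d A C H (fun i => ((Real.log (a i) : ℝ) : ℂ))

end

end Pool.Agent.H72.PSV
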