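import Pool.Agent.H72.PSV.Main3
import Pool.Agent.H72.PSV.T2

/-!
The final step of the board psv_modules (MP_3cf473_nt, PowerSaving): all tuples of distinct integers
in short intervals.
-/

set_option autoImplicit false

namespace Pool.Agent.H72.PSV

open MvPolynomial

/-- short intervals, one range of heights -/
theorem localSingle (hLCN : T_LCN) (r n d : ℕ) : ∃ (δ : ℝ) (N₁ : ℕ), 0 < δ ∧ 1 ≤ N₁ ∧
    ∀ A B : ℝ, ∃ C : ℝ, 0 < C ∧ ∀ N : ℕ, N₁ ≤ N → ∀ (h : ℝ) (ξ : Fin r → ℂ), 2 ≤ h →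
    (N : ℝ) ≤ h → (∀ i, ‖ξ i‖ ≤ h ^ B) →
    ∃ E : Finset ℕ, E.card ≤ r + 1 ∧ ∀ a : Fin n → ℕ, Function.Injective a →
      (∀ i, a i ∉ E ∧ N ≤ a i ∧ (a i : ℝ) ≤ N + (N : ℝ) ^ δ) →
      ∀ H : ℝ, h ≤ H → H ≤ h ^ B →
        ¬ Exceptional ξ d H A C (fun i => ((Real.log (a i) : ℝ) : ℂ)) := by
  obtain ⟨δ, N₁, hδ, h1⟩ := hLCN r n d
  refine ⟨δ, max N₁ 1, hδ, le_max_right _ _, fun A B => ?_⟩
  obtain ⟨C, hC, h2⟩ := h1 (max A 0)
  refine ⟨C * max B 1, mul_pos hC (lt_max_of_lt_right one_pos), fun N hN h ξ hh hNh hξ => ?_⟩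
  have hB : h ^ B ≤ h ^ (max B 1) :=
    Real.rpow_le_rpow_of_exponent_le (by linarith) (le_max_left _ _)
  obtain ⟨E, hE, h3⟩ := h2 (h ^ (max B 1)) (hh.trans (le_up _ B hh)) ξ
    (fun i => (hξ i).trans hB) N ((le_max_left _ _).trans hN) ((le_max_right _ _).trans hN)
    (hNh.trans (le_up _ B hh))
  refine ⟨E, hE, fun a hainj ha H hH1 hH2 hexc => ?_⟩
  refine h3 a hainj (fun i => (ha i).1) (fun i => (ha i).2) ?_
  refine bad_of_exc _ _ _ _ _ (hh.trans (le_up _ B hh)) _ ?_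
  exact exc_up ξ d h H A (max B 1) C hh hH1 (hH2.trans hB) (le_max_right _ _) hC.le _ hexc

/-- the doubly exponential range of heights is covered by few ranges `[y ^ (2 ^ j), y ^ (2 ^ j * 2)]` -/
theorem scale_of {y H T : ℝ} (hy : 4 ≤ y) (hyH : y ≤ H) (hT : Real.log (Real.log H) ≤ T)
    (hT1 : 1 ≤ T) : ∃ j : ℕ, j < ⌊2 * T⌋₊ + 1 ∧ y ^ (2 ^ j : ℕ) ≤ H ∧
      H ≤ (y ^ (2 ^ j : ℕ)) ^ (2 : ℝ) := by
  have hlogy : 1 < Real.log y := log_four_gt.trans_le (Real.log_le_log (by norm_num) hy)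
  have hlogH : Real.log y ≤ Real.log H := Real.log_le_log (by linarith) hyH
  have hlogH1 : 1 < Real.log H := hlogy.trans_le hlogH
  obtain ⟨j, hj1, hj2⟩ := exists_nat_pow_near
    ((one_le_div (by linarith)).2 hlogH : (1 : ℝ) ≤ Real.log H / Real.log y)
    (by norm_num : (1 : ℝ) < 2)
  rw [le_div_iff₀ (by linarith)] at hj1
  rw [div_lt_iff₀ (by linarith)] at hj2
  have hyj : 0 < y ^ (2 ^ j : ℕ) := pow_pos (by linarith) _
  refine ⟨j, ?_, ?_, ?_⟩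
  · have h6 : (2 : ℝ) ^ j ≤ Real.log H := by
      refine le_trans ?_ hj1
      nlinarith [pow_pos (by norm_num : (0 : ℝ) < 2) j]
    have h7 : (j : ℝ) * Real.log 2 ≤ Real.log (Real.log H) := by
      rw [← Real.log_pow]
      exact Real.log_le_log (by positivity) h6
    have h8 := Real.log_two_gt_d9
    have h9 : (j : ℝ) ≤ 2 * T := by
      have : (0 : ℝ) ≤ j := Nat.cast_nonneg _
      nlinarith
    exact Nat.lt_succ_of_le (Nat.le_floor h9)
  · rw [← Real.log_le_log_iff hyj (by linarith), Real.log_pow]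
    push_cast
    exact hj1
  · have h5 : (y ^ (2 ^ j : ℕ)) ^ (2 : ℝ) = y ^ (2 ^ (j + 1) : ℕ) := by
      rw [Real.rpow_two, ← pow_mul, pow_succ]
    rw [h5, ← Real.log_le_log_iff (by linarith) (by positivity), Real.log_pow]
    push_cast
    exact hj2.le

/-- short intervals, all heights in a doubly exponential range -/
theorem localAbs (hLCN : T_LCN) (n d : ℕ) : ∃ (C δ : ℝ) (N₁ : ℕ), 0 < C ∧ 0 < δ ∧
    ∀ N : ℕ, N₁ ≤ N → ∃ E : Finset ℕ, (E.card : ℝ) ≤ (N : ℝ) ^ (2 * δ) ∧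
      ∀ a : Fin n → ℕ, Function.Injective a →
      (∀ i, a i ∉ E ∧ N ≤ a i ∧ (a i : ℝ) ≤ N + (N : ℝ) ^ (3 * δ)) →
      ∀ H : ℝ, (N : ℝ) ≤ H → Real.log (Real.log H) ≤ (N : ℝ) ^ δ →
        Good d H C (fun i => Real.log (a i)) := by
  classical
  obtain ⟨δ₀, N₁, hδ₀, hN₁, h1⟩ := localSingle hLCN 0 n d
  obtain ⟨C, hC, h2⟩ := h1 0 2
  set δ : ℝ := δ₀ / 3 with hδ
  have hδpos : 0 < δ := by positivity
  obtain ⟨N₂, hN₂⟩ : ∃ N₂ : ℕ, ∀ N : ℕ, N₂ ≤ N → 3 ≤ (N : ℝ) ^ δ := by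
    have h3 := (tendsto_rpow_atTop hδpos).comp (tendsto_natCast_atTop_atTop (R := ℝ))
    obtain ⟨N₂, h4⟩ := Filter.eventually_atTop.1 (h3.eventually_ge_atTop 3)
    exact ⟨N₂, fun N hN => h4 N hN⟩
  refine ⟨C, δ, max (max N₁ N₂) 4, hC, hδpos, fun N hN => ?_⟩
  have hN1 : N₁ ≤ N := ((le_max_left _ _).trans (le_max_left _ _)).trans hN
  have hN2 := hN₂ N (((le_max_right _ _).trans (le_max_left _ _)).trans hN)
  have hN4 : (4 : ℝ) ≤ N := by exact_mod_cast (le_max_right _ _).trans hN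
  have hN0 : (0 : ℝ) < N := by linarith
  have hT1 : (1 : ℝ) ≤ (N : ℝ) ^ δ := by linarith
  set h : ℕ → ℝ := fun j => (N : ℝ) ^ (2 ^ j : ℕ) with hh
  have hh1 : ∀ j, (N : ℝ) ≤ h j := by
    intro j
    calc (N : ℝ) = (N : ℝ) ^ 1 := (pow_one _).symm
      _ ≤ (N : ℝ) ^ (2 ^ j : ℕ) := pow_le_pow_right₀ (by linarith) Nat.one_le_two_pow
  choose E hE hEa using fun j => h2 N hN1 (h j) (fun i : Fin 0 => (0 : ℂ))
    (by linarith [hh1 j]) (hh1 j) (fun i => i.elim0)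
  set K : ℕ := ⌊2 * (N : ℝ) ^ δ⌋₊ + 1 with hK
  have hK3 : (K : ℝ) ≤ 3 * (N : ℝ) ^ δ := by
    have h3 : ((⌊2 * (N : ℝ) ^ δ⌋₊ : ℕ) : ℝ) ≤ 2 * (N : ℝ) ^ δ :=
      Nat.floor_le (by positivity)
    rw [hK]
    push_cast
    linarith
  refine ⟨(Finset.range K).biUnion E, ?_, ?_⟩
  · have h3 : ((Finset.range K).biUnion E).card ≤ K := by
      refine Finset.card_biUnion_le.trans ?_
      calc ∑ j ∈ Finset.range K, (E j).card ≤ ∑ _j ∈ Finset.range K, 1 :=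
            Finset.sum_le_sum fun j _ => by simpa using hE j
        _ = K := by simp
    calc ((((Finset.range K).biUnion E).card : ℕ) : ℝ) ≤ K := by exact_mod_cast h3
      _ ≤ 3 * (N : ℝ) ^ δ := hK3
      _ ≤ (N : ℝ) ^ δ * (N : ℝ) ^ δ := mul_le_mul_of_nonneg_right hN2 (by positivity)
      _ = (N : ℝ) ^ (2 * δ) := by
          rw [← Real.rpow_add hN0]
          congr 1
          ring
  · intro a hainj ha H hNH hHT
    by_contra hbad
    obtain ⟨j, hjK, hj1, hj2⟩ := scale_of hN4 hNH hHT hT1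
    refine hEa j a hainj (fun i => ⟨?_, (ha i).2.1, ?_⟩) H hj1 hj2
      (exc_of_not_good d H C (by linarith) _ hbad)
    · intro hi
      exact (ha i).1 (Finset.mem_biUnion.2 ⟨j, Finset.mem_range.2 hjK, hi⟩)
    · have := (ha i).2.2
      have h3 : 3 * δ = δ₀ := by rw [hδ]; ring
      rw [h3] at this
      exact this

/-- short intervals, arbitrary sequences of scales -/
theorem localScales (hLCN : T_LCN) (r n d : ℕ) : ∃ (δ : ℝ) (N₁ : ℕ), 0 < δ ∧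
    ∀ A B : ℝ, ∃ C : ℝ, 0 < C ∧ ∀ N : ℕ, N₁ ≤ N →
    (∀ (h : ℝ) (ξ : Fin r → ℂ), 2 ≤ h → (N : ℝ) ≤ h → (∀ i, ‖ξ i‖ ≤ h ^ B) →
      ∃ E : Finset ℕ, E.card ≤ r + 1 ∧ ∀ a : Fin n → ℕ, Function.Injective a →
        (∀ i, a i ∉ E ∧ N ≤ a i ∧ (a i : ℝ) ≤ N + (N : ℝ) ^ δ) →
        ∀ H : ℝ, h ≤ H → H ≤ h ^ B →
          ¬ Exceptional ξ d H A C (fun i => ((Real.log (a i) : ℝ) : ℂ))) ∧
    (∀ (h : ℕ → ℝ) (ξ : ℕ → Fin r → ℂ), (∀ k, 2 ≤ h k) → (∀ k, (N : ℝ) ≤ h k) →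
      (∀ k i, ‖ξ k i‖ ≤ h k ^ B) → ∀ η : ℝ, 0 < η →
      ∃ E : Finset ℕ, η * E.card ≤ r + 1 ∧ ∃ᶠ K : ℕ in Filter.atTop,
        ∀ a : Fin n → ℕ, Function.Injective a →
        (∀ i, a i ∉ E ∧ N ≤ a i ∧ (a i : ℝ) ≤ N + (N : ℝ) ^ δ) →
          (Set.ncard {k : ℕ | k < K ∧ ∃ H : ℝ, h k ≤ H ∧ H ≤ h k ^ B ∧
            Exceptional (ξ k) d H A C (fun i => ((Real.log (a i) : ℝ) : ℂ))} : ℝ) ≤
            n * η * K) := by
  classical
  obtain ⟨δ, N₁, hδ, hN₁, h1⟩ := localSingle hLCN r n d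
  refine ⟨δ, N₁, hδ, fun A B => ?_⟩
  obtain ⟨C, hC, h2⟩ := h1 A B
  refine ⟨C, hC, fun N hN => ⟨h2 N hN, fun h ξ hh hNh hξ η hη => ?_⟩⟩
  choose E hE hEa using fun k => h2 N hN (h k) (ξ k) (hh k) (hNh k) (hξ k)
  -- integers of the interval
  set I : Finset ℕ := Finset.Icc N ⌊(N : ℝ) + (N : ℝ) ^ δ⌋₊ with hI
  set cnt : ℕ → ℕ → ℕ := fun K b => ((Finset.range K).filter (fun k => b ∈ E k)).card with hcnt
  set EK : ℕ → Finset ℕ := fun K => I.filter (fun b => η * K < (cnt K b : ℝ)) with hEK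
  have hEKcard : ∀ K : ℕ, 0 < K → η * ((EK K).card : ℝ) ≤ r + 1 := by
    intro K hK
    have hK' : (0 : ℝ) < K := by exact_mod_cast hK
    have h3 : ∑ b ∈ EK K, cnt K b ≤ (r + 1) * K := by
      calc ∑ b ∈ EK K, cnt K b
          = ∑ b ∈ EK K, ∑ k ∈ Finset.range K, if b ∈ E k then 1 else 0 := by
            refine Finset.sum_congr rfl fun b _ => ?_
            rw [hcnt]
            simp only
            rw [Finset.card_filter]
        _ = ∑ k ∈ Finset.range K, ∑ b ∈ EK K, if b ∈ E k then 1 else 0 := Finset.sum_comm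
        _ ≤ ∑ _k ∈ Finset.range K, (r + 1) := by
            refine Finset.sum_le_sum fun k _ => ?_
            rw [← Finset.card_filter]
            refine le_trans (Finset.card_le_card ?_) (hE k)
            intro b hb
            exact (Finset.mem_filter.1 hb).2
        _ = (r + 1) * K := by simp [mul_comm]
    have h4 : ((EK K).card : ℝ) * (η * K) ≤ ((∑ b ∈ EK K, cnt K b : ℕ) : ℝ) := by
      rw [Nat.cast_sum]
      calc ((EK K).card : ℝ) * (η * K) = ∑ _b ∈ EK K, (η * K) := by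
            rw [Finset.sum_const, nsmul_eq_mul]
        _ ≤ ∑ b ∈ EK K, (cnt K b : ℝ) :=
            Finset.sum_le_sum fun b hb => (Finset.mem_filter.1 hb).2.le
    have h5 : ((∑ b ∈ EK K, cnt K b : ℕ) : ℝ) ≤ (r + 1) * K := by exact_mod_cast h3
    have h6 : (η * ((EK K).card : ℝ)) * K ≤ (r + 1) * K := by
      calc (η * ((EK K).card : ℝ)) * K = ((EK K).card : ℝ) * (η * K) := by ring
        _ ≤ _ := h4.trans h5
    exact le_of_mul_le_mul_right h6 hK'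
  -- a set which occurs for infinitely many `K`
  obtain ⟨E₀, hE₀⟩ : ∃ E₀ : Finset ℕ, ∃ᶠ K : ℕ in Filter.atTop, EK K = E₀ := by
    by_contra hcon
    have h3 : ∀ S ∈ I.powerset, ∀ᶠ K : ℕ in Filter.atTop, EK K ≠ S := by
      intro S _
      by_contra hS
      exact hcon ⟨S, fun hS' => hS hS'⟩
    obtain ⟨K, hK⟩ := ((Filter.eventually_all_finset I.powerset).2 h3).exists
    exact hK (EK K) (Finset.mem_powerset.2 (Finset.filter_subset _ _)) rfl
  refine ⟨E₀, ?_, ?_⟩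
  · obtain ⟨K, hK, hK0⟩ := (hE₀.and_eventually (Filter.eventually_gt_atTop 0)).exists
    rw [← hK]
    exact hEKcard K hK0
  · refine hE₀.mono ?_
    intro K hK a hainj ha
    have h3 : {k : ℕ | k < K ∧ ∃ H : ℝ, h k ≤ H ∧ H ≤ h k ^ B ∧
        Exceptional (ξ k) d H A C (fun i => ((Real.log (a i) : ℝ) : ℂ))} ⊆
        ((Finset.univ.biUnion (fun i : Fin n =>
          (Finset.range K).filter (fun k => a i ∈ E k)) : Finset ℕ) : Set ℕ) := by
      rintro k ⟨hkK, H, hH1, hH2, hexc⟩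
      by_contra hk
      refine hEa k a hainj (fun i => ⟨?_, (ha i).2⟩) H hH1 hH2 hexc
      intro hi
      apply hk
      rw [Finset.mem_coe, Finset.mem_biUnion]
      exact ⟨i, Finset.mem_univ _, Finset.mem_filter.2 ⟨Finset.mem_range.2 hkK, hi⟩⟩
    have h4 := Set.ncard_le_ncard h3 (Finset.finite_toSet _)
    rw [Set.ncard_coe_finset] at h4
    have h5 : (Finset.univ.biUnion (fun i : Fin n =>
        (Finset.range K).filter (fun k => a i ∈ E k))).card ≤ ∑ i : Fin n, cnt K (a i) :=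
      Finset.card_biUnion_le
    have h6 : ∀ i, (cnt K (a i) : ℝ) ≤ η * K := by
      intro i
      by_contra hlt
      push Not at hlt
      apply (ha i).1
      rw [← hK, hEK]
      refine Finset.mem_filter.2 ⟨?_, hlt⟩
      rw [hI, Finset.mem_Icc]
      exact ⟨(ha i).2.1, Nat.le_floor (ha i).2.2⟩
    calc (Set.ncard {k : ℕ | k < K ∧ ∃ H : ℝ, h k ≤ H ∧ H ≤ h k ^ B ∧
            Exceptional (ξ k) d H A C (fun i => ((Real.log (a i) : ℝ) : ℂ))} : ℝ)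
        ≤ ((∑ i : Fin n, cnt K (a i) : ℕ) : ℝ) := by exact_mod_cast h4.trans h5
      _ = ∑ i : Fin n, (cnt K (a i) : ℝ) := by push_cast; rfl
      _ ≤ ∑ _i : Fin n, η * K := Finset.sum_le_sum fun i _ => h6 i
      _ = n * η * K := by
          rw [Finset.sum_const, nsmul_eq_mul, Finset.card_univ, Fintype.card_fin]
          ring

end Pool.Agent.H72.PSV
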