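import Pool.Agent.H72.PSV.All

/-!
# Power saving for the measure of algebraic independence of logarithms of integers, relative form

One statement: for almost all tuples of integers the inequality of the problem holds for all heights
up to a doubly exponential bound, relative to arbitrary complex numbers `ξ 1, ..., ξ r`.
-/

set_option autoImplicit false

namespace Pool.Agent.H72.PSV.Rel

open MvPolynomial

/-- Some integer polynomial `P(X, Y)` in variables `X 1, ..., X r` and `Y 1, ..., Y n` of total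
degree at most `d` with coefficients of absolute value at most `H` has absolute value below
`H ^ (-B)` at the point `(ξ, y)`, although the polynomial `P(ξ, Y)` in `Y 1, ..., Y n` has a
coefficient of absolute value at least `H ^ (-A)`. -/
def Exceptional {r n : ℕ} (ξ : Fin r → ℂ) (d : ℕ) (H A B : ℝ) (y : Fin n → ℂ) : Prop :=
  ∃ P : MvPolynomial (Fin r ⊕ Fin n) ℤ, P.totalDegree ≤ d ∧
    (∀ e : Fin r ⊕ Fin n →₀ ℕ, |((coeff e P : ℤ) : ℝ)| ≤ H) ∧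
    ‖aeval (Sum.elim ξ y) P‖ < H ^ (-B) ∧
    ∃ e : Fin n →₀ ℕ, H ^ (-A) ≤ ‖coeff e (aeval (Sum.elim (fun i => C (ξ i)) X) P)‖

theorem append_equiv {r n : ℕ} {α : Type} (u : Fin r → α) (v : Fin n → α) :
    Fin.append u v ∘ finSumFinEquiv = Sum.elim u v := by
  funext i
  cases i with
  | inl i => simp
  | inr i => simp

theorem bad_of_exc {r n : ℕ} (ξ : Fin r → ℂ) (d : ℕ) (H A B : ℝ) (hH : 2 ≤ H) (y : Fin n → ℂ)
    (h : Exceptional ξ d H A B y) : Pool.Agent.H72.BF.badRN ξ d A B H y := by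
  have hpos : ∀ C : ℝ, (0 : ℝ) < H ^ C := fun C => Real.rpow_pos_of_pos (by linarith) C
  obtain ⟨P, h1, h2, h3, e, h4⟩ := h
  refine ⟨rename finSumFinEquiv P, (totalDegree_rename_le _ _).trans h1, ?_, ?_, e, ?_⟩
  · intro m
    have h5 : m = (m.mapDomain finSumFinEquiv.symm).mapDomain finSumFinEquiv := by
      rw [← Finsupp.mapDomain_comp]
      simp
    rw [h5, coeff_rename_mapDomain _ finSumFinEquiv.injective]
    exact h2 _
  · rw [aeval_rename, append_equiv]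
    rw [Real.rpow_neg (by linarith), ← one_div, lt_div_iff₀ (hpos B), mul_comm] at h3
    exact h3
  · rw [aeval_rename, append_equiv]
    rw [Real.rpow_neg (by linarith), ← one_div, div_le_iff₀ (hpos A), mul_comm] at h4
    exact h4

/-- If a point is exceptional at a height `H` between `h` and `h ^ B`, it is exceptional at the
height `h ^ B`, for another exponent. -/
theorem exc_up {r n : ℕ} (ξ : Fin r → ℂ) (d : ℕ) (h H A B C : ℝ) (hh : 2 ≤ h) (hH : h ≤ H)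
    (hHB : H ≤ h ^ B) (hB : 1 ≤ B) (hC : 0 ≤ C) (y : Fin n → ℂ)
    (hE : Exceptional ξ d H A (C * B) y) : Exceptional ξ d (h ^ B) (max A 0) C y := by
  have hh0 : (0 : ℝ) ≤ h := by linarith
  have hh1 : (1 : ℝ) ≤ h := by linarith
  have hH0 : (0 : ℝ) < H := by linarith
  obtain ⟨P, h1, h2, h3, e, h4⟩ := hE
  refine ⟨P, h1, fun m => (h2 m).trans hHB, ?_, e, ?_⟩
  · refine lt_of_lt_of_le h3 ?_
    have h5 : (h ^ B) ^ (-C) = h ^ (-(C * B)) := by
      rw [← Real.rpow_mul hh0]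
      congr 1
      ring
    rw [h5]
    refine Real.rpow_le_rpow_of_nonpos (by linarith) hH ?_
    have : 0 ≤ C * B := mul_nonneg hC (by linarith)
    linarith
  · refine le_trans ?_ h4
    calc (h ^ B) ^ (-(max A 0)) ≤ H ^ (-(max A 0)) := by
          refine Real.rpow_le_rpow_of_nonpos hH0 hHB ?_
          have : 0 ≤ max A 0 := le_max_right _ _
          linarith
      _ ≤ H ^ (-A) := by
          refine Real.rpow_le_rpow_of_exponent_le (by linarith) ?_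
          have : A ≤ max A 0 := le_max_left _ _
          linarith

theorem le_up (h B : ℝ) (hh : 2 ≤ h) : h ≤ h ^ (max B 1) := by
  calc h = h ^ (1 : ℝ) := (Real.rpow_one _).symm
    _ ≤ h ^ (max B 1) := Real.rpow_le_rpow_of_exponent_le (by linarith) (le_max_right _ _)

/-- the relative theorem for one range of heights -/
theorem single (hCNN : Pool.Agent.H72.PSV.T_CNN) (r n d : ℕ) : ∃ δ C₀ : ℝ, 0 < δ ∧ δ ≤ 1 ∧ 0 < C₀ ∧
    ∀ A B : ℝ, ∃ C : ℝ, 0 < C ∧ ∀ x : ℕ, 1 ≤ x → ∀ h : ℝ, 2 ≤ h → (x : ℝ) ≤ h ^ (max B 1) →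
    ∀ ξ : Fin r → ℂ, (∀ i, ‖ξ i‖ ≤ h ^ (max B 1)) →
    (Set.ncard {a : Fin n → ℕ | (∀ i, 1 ≤ a i ∧ a i ≤ x) ∧ ∃ H : ℝ, h ≤ H ∧ H ≤ h ^ B ∧
      Exceptional ξ d H A C (fun i => ((Real.log (a i) : ℝ) : ℂ))} : ℝ) ≤
      C₀ * (x : ℝ) ^ ((n : ℝ) - δ) := by
  obtain ⟨δ, C₀, hδ, hδ1, hC₀, h1⟩ := hCNN r n d
  refine ⟨δ, C₀, hδ, hδ1, hC₀, fun A B => ?_⟩
  obtain ⟨C, hC, h2⟩ := h1 (max A 0)
  refine ⟨C * max B 1, mul_pos hC (lt_max_of_lt_right one_pos), fun x hx h hh hxh ξ hξ => ?_⟩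
  refine le_trans ?_ (h2 x hx (h ^ (max B 1)) (hh.trans (le_up _ B hh)) hxh ξ hξ)
  have hfin : Set.Finite {a : Fin n → ℕ | (∀ i, 1 ≤ a i ∧ a i ≤ x) ∧
      Pool.Agent.H72.BF.badRN ξ d (max A 0) C (h ^ (max B 1))
        (fun i => ((Real.log (a i) : ℝ) : ℂ))} := by
    refine Set.Finite.subset (Fintype.piFinset (fun _ : Fin n => Finset.Icc 1 x)).finite_toSet ?_
    intro a ha
    rw [Finset.mem_coe, Fintype.mem_piFinset]
    intro i
    exact Finset.mem_Icc.2 (ha.1 i)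
  refine Nat.cast_le.2 (Set.ncard_le_ncard ?_ hfin)
  rintro a ⟨ha1, H, hH1, hH2, hexc⟩
  refine ⟨ha1, bad_of_exc _ _ _ _ _ (hh.trans (le_up _ B hh)) _ ?_⟩
  refine exc_up ξ d h H A (max B 1) C hh hH1 (hH2.trans ?_) (le_max_right _ _) hC.le _ hexc
  exact Real.rpow_le_rpow_of_exponent_le (by linarith) (le_max_left _ _)

theorem ncard_eq {n : ℕ} (x : ℕ) (p : (Fin n → ℕ) → Prop) [DecidablePred p] :
    Set.ncard {a : Fin n → ℕ | (∀ i, 1 ≤ a i ∧ a i ≤ x) ∧ p a} =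
      ((Fintype.piFinset (fun _ : Fin n => Finset.Icc 1 x)).filter p).card := by
  rw [← Set.ncard_coe_finset]
  congr 1
  ext a
  simp [Fintype.mem_piFinset]

theorem log_four_gt : (1 : ℝ) < Real.log 4 := by
  have h1 : Real.log 4 = 2 * Real.log 2 := by
    rw [show (4 : ℝ) = 2 ^ 2 by norm_num, Real.log_pow]
    norm_num
  have := Real.log_two_gt_d9
  linarith


theorem scale_of {y H T : ℝ} (hy : 4 ≤ y) (hyH : y ≤ H) (hT : Real.log (Real.log H) ≤ T)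
    (hT1 : 1 ≤ T) : ∃ j : ℕ, j < ⌊2 * T⌋₊ + 1 ∧ y ^ (2 ^ j : ℕ) ≤ H ∧
      H ≤ (y ^ (2 ^ j : ℕ)) ^ (2 : ℝ) := by
  have hlogy : 1 < Real.log y := log_four_gt.trans_le (Real.log_le_log (by norm_num) hy)
  have hlogH : Real.log y ≤ Real.log H := Real.log_le_log (by linarith) hyH
  have hlogH1 : 1 < Real.log H := hlogy.trans_le hlogH
  obtain ⟨j, hj1, hj2⟩ := exists_nat_pow_near
    ((one_le_div (by linarith)).2 hlogH : (1 : ℝ) ≤ Real.log H / Real.log y)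
    (by norm_num : (1 : ℝ) < 2)
  rw [le_div_iff₀ (by linarith)] at hj1
  rw [div_lt_iff₀ (by linarith)] at hj2
  have hyj : 0 < y ^ (2 ^ j : ℕ) := pow_pos (by linarith) _
  refine ⟨j, ?_, ?_, ?_⟩
  · have h6 : (2 : ℝ) ^ j ≤ Real.log H := by
      refine le_trans ?_ hj1
      nlinarith [pow_pos (by norm_num : (0 : ℝ) < 2) j]
    have h7 : (j : ℝ) * Real.log 2 ≤ Real.log (Real.log H) := by
      rw [← Real.log_pow]
      exact Real.log_le_log (by positivity) h6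
    have h8 := Real.log_two_gt_d9
    have h9 : (j : ℝ) ≤ 2 * T := by
      have : (0 : ℝ) ≤ j := Nat.cast_nonneg _
      nlinarith
    exact Nat.lt_succ_of_le (Nat.le_floor h9)
  · rw [← Real.log_le_log_iff hyj (by linarith), Real.log_pow]
    push_cast
    exact hj1
  · have h5 : (y ^ (2 ^ j : ℕ)) ^ (2 : ℝ) = y ^ (2 ^ (j + 1) : ℕ) := by
      rw [Real.rpow_two, ← pow_mul, pow_succ]
    rw [h5, ← Real.log_le_log_iff (by linarith) (by positivity), Real.log_pow]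
    push_cast
    exact hj2.le

theorem Exceptional.mono {r n : ℕ} {ξ : Fin r → ℂ} {d : ℕ} {H A A' B B' : ℝ} {y : Fin n → ℂ}
    (h : Exceptional ξ d H A B y) (hH : 2 ≤ H) (hA : A ≤ A') (hB : B' ≤ B) :
    Exceptional ξ d H A' B' y := by
  obtain ⟨P, h1, h2, h3, e, h4⟩ := h
  refine ⟨P, h1, h2, lt_of_lt_of_le h3 ?_, e, le_trans ?_ h4⟩
  · exact Real.rpow_le_rpow_of_exponent_le (by linarith) (by linarith)
  · exact Real.rpow_le_rpow_of_exponent_le (by linarith) (by linarith)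

/-- one dyadic range of tuples, all heights up to `exp (exp (X ^ δ))` -/
theorem dyadicR (hCNN : Pool.Agent.H72.PSV.T_CNN) (r n d : ℕ) : ∃ δ : ℝ, 0 < δ ∧ δ ≤ 1 ∧
    ∀ A : ℝ, 0 ≤ A → ∃ C₁ C : ℝ, 0 < C₁ ∧ 0 < C ∧ ∀ x : ℕ, 1 ≤ x → ∀ ξ : Fin r → ℂ,
    (Set.ncard {a : Fin n → ℕ | (∀ i, 1 ≤ a i ∧ a i ≤ x) ∧ ∃ H : ℝ, 2 ≤ H ∧ (x : ℝ) ≤ 2 * H ∧
      Real.log (Real.log H) ≤ (x : ℝ) ^ δ ∧ (∀ i, ‖ξ i‖ ≤ H ^ A) ∧
      Exceptional ξ d H A C (fun i => ((Real.log (a i) : ℝ) : ℂ))} : ℝ) ≤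
      C₁ * (x : ℝ) ^ ((n : ℝ) - δ) := by
  classical
  obtain ⟨δ₀, C₀, hδ₀, hδ₁, hC₀, h1⟩ := single hCNN r n d
  refine ⟨δ₀ / 2, by positivity, by linarith, fun A hA => ?_⟩
  set B : ℝ := max 2 (2 * A) with hB
  have hB2 : 2 ≤ B := le_max_left _ _
  have hBA : 2 * A ≤ B := le_max_right _ _
  obtain ⟨C, hC, h2⟩ := h1 A B
  have hmax : max B 1 = B := max_eq_left (by linarith)
  rw [hmax] at h2
  refine ⟨8 ^ (n + 1) + 3 * C₀, C, by positivity, hC, ?_⟩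
  intro x hx ξ
  have hx1 : (1 : ℝ) ≤ x := by exact_mod_cast hx
  have hx0 : (0 : ℝ) < x := by linarith
  set Ω : Finset (Fin n → ℕ) := Fintype.piFinset (fun _ : Fin n => Finset.Icc 1 x) with hΩ
  set p : (Fin n → ℕ) → Prop := fun a => ∃ H : ℝ, 2 ≤ H ∧ (x : ℝ) ≤ 2 * H ∧
      Real.log (Real.log H) ≤ (x : ℝ) ^ (δ₀ / 2) ∧ (∀ i, ‖ξ i‖ ≤ H ^ A) ∧
      Exceptional ξ d H A C (fun i => ((Real.log (a i) : ℝ) : ℂ)) with hp
  rw [ncard_eq x p]
  rcases lt_or_ge x 8 with hx8 | hx8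
  · -- small `x`
    have h3 : ((Ω.filter p).card : ℝ) ≤ (x : ℝ) ^ n := by
      have h4 : (Ω.filter p).card ≤ Ω.card := Finset.card_filter_le _ _
      have h5 : Ω.card = x ^ n := by simp [hΩ, Fintype.card_piFinset]
      rw [h5] at h4
      exact_mod_cast h4
    have hx8' : (x : ℝ) ≤ 8 := by exact_mod_cast hx8.le
    have h6 : (x : ℝ) ^ n ≤ 8 ^ n := pow_le_pow_left₀ hx0.le hx8' n
    have h7 : (8 : ℝ)⁻¹ ≤ (x : ℝ) ^ ((n : ℝ) - δ₀ / 2) := by
      calc (8 : ℝ)⁻¹ ≤ (x : ℝ)⁻¹ := inv_anti₀ hx0 hx8'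
        _ = (x : ℝ) ^ (-1 : ℝ) := (Real.rpow_neg_one _).symm
        _ ≤ (x : ℝ) ^ ((n : ℝ) - δ₀ / 2) := by
          refine Real.rpow_le_rpow_of_exponent_le hx1 ?_
          have : (0 : ℝ) ≤ n := Nat.cast_nonneg _
          linarith
    calc ((Ω.filter p).card : ℝ) ≤ 8 ^ n := h3.trans h6
      _ = 8 ^ (n + 1) * (8 : ℝ)⁻¹ := by rw [pow_succ]; field_simp
      _ ≤ 8 ^ (n + 1) * (x : ℝ) ^ ((n : ℝ) - δ₀ / 2) :=
          mul_le_mul_of_nonneg_left h7 (by positivity)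
      _ ≤ (8 ^ (n + 1) + 3 * C₀) * (x : ℝ) ^ ((n : ℝ) - δ₀ / 2) := by
          refine mul_le_mul_of_nonneg_right ?_ (Real.rpow_nonneg hx0.le _)
          linarith
  · -- large `x`
    have hx8' : (8 : ℝ) ≤ x := by exact_mod_cast hx8
    set y : ℝ := (x : ℝ) / 2 with hy
    have hy4 : (4 : ℝ) ≤ y := by rw [hy]; linarith
    have hxd : (1 : ℝ) ≤ (x : ℝ) ^ (δ₀ / 2) := Real.one_le_rpow hx1 (by positivity)
    set K : ℕ := ⌊2 * (x : ℝ) ^ (δ₀ / 2)⌋₊ + 1 with hK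
    have hK3 : (K : ℝ) ≤ 3 * (x : ℝ) ^ (δ₀ / 2) := by
      have h3 : ((⌊2 * (x : ℝ) ^ (δ₀ / 2)⌋₊ : ℕ) : ℝ) ≤ 2 * (x : ℝ) ^ (δ₀ / 2) :=
        Nat.floor_le (by positivity)
      rw [hK]
      push_cast
      linarith
    set h : ℕ → ℝ := fun j => y ^ (2 ^ j : ℕ) with hh
    have hh1 : ∀ j, y ≤ h j := by
      intro j
      calc y = y ^ 1 := (pow_one y).symm
        _ ≤ y ^ (2 ^ j : ℕ) := pow_le_pow_right₀ (by linarith) Nat.one_le_two_pow
    set q : ℕ → (Fin n → ℕ) → Prop := fun j a => (∀ i, ‖ξ i‖ ≤ h j ^ B) ∧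
      ∃ H : ℝ, h j ≤ H ∧ H ≤ h j ^ B ∧
      Exceptional ξ d H A C (fun i => ((Real.log (a i) : ℝ) : ℂ)) with hq
    have hqj : ∀ j, ((Ω.filter (q j)).card : ℝ) ≤ C₀ * (x : ℝ) ^ ((n : ℝ) - δ₀) := by
      intro j
      by_cases hξ : ∀ i, ‖ξ i‖ ≤ h j ^ B
      · have hj2 : 2 ≤ h j := by linarith [hh1 j]
        have h3 := h2 x hx (h j) hj2 (by
          have h4 := hh1 j
          have h5 : (h j) ^ (2 : ℝ) ≤ (h j) ^ B :=
            Real.rpow_le_rpow_of_exponent_le (by linarith) hB2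
          rw [Real.rpow_two] at h5
          nlinarith) ξ hξ
        rw [ncard_eq x (fun a => ∃ H : ℝ, h j ≤ H ∧ H ≤ h j ^ B ∧
          Exceptional ξ d H A C (fun i => ((Real.log (a i) : ℝ) : ℂ)))] at h3
        refine le_trans ?_ h3
        refine Nat.cast_le.2 (Finset.card_le_card ?_)
        intro a ha
        rw [Finset.mem_filter] at ha ⊢
        exact ⟨ha.1, ha.2.2⟩
      · have h3 : Ω.filter (q j) = ∅ := by
          refine Finset.filter_eq_empty_iff.2 ?_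
          rintro a - ⟨h4, -⟩
          exact hξ h4
        rw [h3]
        simp only [Finset.card_empty, Nat.cast_zero]
        exact mul_nonneg hC₀.le (Real.rpow_nonneg hx0.le _)
    have hsub : Ω.filter p ⊆ (Finset.range K).biUnion (fun j => Ω.filter (q j)) := by
      intro a ha
      rw [Finset.mem_filter] at ha
      obtain ⟨haΩ, H, hH2, hxH, hHx, hξH, hbad⟩ := ha
      have hyH : y ≤ H := by rw [hy]; linarith
      obtain ⟨j, hjK, hj1, hj2⟩ := scale_of hy4 hyH hHx hxd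
      have hj1' : h j ≤ H := hj1
      have hj2' : H ≤ h j ^ (2 : ℝ) := hj2
      have hjy : 2 ≤ h j := by linarith [hh1 j]
      have hj3 : H ≤ h j ^ B :=
        hj2'.trans (Real.rpow_le_rpow_of_exponent_le (by linarith) hB2)
      rw [Finset.mem_biUnion]
      refine ⟨j, Finset.mem_range.2 hjK, Finset.mem_filter.2 ⟨haΩ, fun i => ?_, H, hj1', hj3, hbad⟩⟩
      calc ‖ξ i‖ ≤ H ^ A := hξH i
        _ ≤ (h j ^ (2 : ℝ)) ^ A := Real.rpow_le_rpow (by linarith) hj2' hA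
        _ = h j ^ (2 * A) := by rw [← Real.rpow_mul (by linarith)]
        _ ≤ h j ^ B := Real.rpow_le_rpow_of_exponent_le (by linarith) hBA
    have h10 : ((Ω.filter p).card : ℝ) ≤ ∑ j ∈ Finset.range K, ((Ω.filter (q j)).card : ℝ) := by
      have := (Finset.card_le_card hsub).trans Finset.card_biUnion_le
      exact_mod_cast this
    calc ((Ω.filter p).card : ℝ) ≤ ∑ j ∈ Finset.range K, ((Ω.filter (q j)).card : ℝ) := h10
      _ ≤ ∑ _j ∈ Finset.range K, C₀ * (x : ℝ) ^ ((n : ℝ) - δ₀) :=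
          Finset.sum_le_sum fun j _ => hqj j
      _ = K * (C₀ * (x : ℝ) ^ ((n : ℝ) - δ₀)) := by
          rw [Finset.sum_const, Finset.card_range, nsmul_eq_mul]
      _ ≤ (3 * (x : ℝ) ^ (δ₀ / 2)) * (C₀ * (x : ℝ) ^ ((n : ℝ) - δ₀)) :=
          mul_le_mul_of_nonneg_right hK3 (by positivity)
      _ = 3 * C₀ * ((x : ℝ) ^ (δ₀ / 2) * (x : ℝ) ^ ((n : ℝ) - δ₀)) := by ring
      _ = 3 * C₀ * (x : ℝ) ^ ((n : ℝ) - δ₀ / 2) := by
          rw [← Real.rpow_add hx0]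
          congr 2
          ring
      _ ≤ (8 ^ (n + 1) + 3 * C₀) * (x : ℝ) ^ ((n : ℝ) - δ₀ / 2) := by
          refine mul_le_mul_of_nonneg_right ?_ (Real.rpow_nonneg hx0.le _)
          have : (0 : ℝ) < 8 ^ (n + 1) := by positivity
          linarith

/-- all tuples, one exceptional set -/
theorem absoluteR (hCNN : Pool.Agent.H72.PSV.T_CNN) (r n d : ℕ) : ∃ δ : ℝ, 0 < δ ∧
    ∀ A : ℝ, ∃ C : ℝ, 0 < C ∧ ∀ x : ℕ, 1 ≤ x → ∀ ξ : Fin r → ℂ,
    (Set.ncard {a : Fin n → ℕ | (∀ i, 1 ≤ a i ∧ a i ≤ x) ∧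
      ∃ H : ℝ, 2 ≤ H ∧ (∀ i, (a i : ℝ) ≤ H) ∧ (∃ i, Real.log (Real.log H) ≤ (a i : ℝ) ^ δ) ∧
        (∀ i, ‖ξ i‖ ≤ H ^ A) ∧
        Exceptional ξ d H A C (fun i => ((Real.log (a i) : ℝ) : ℂ))} : ℝ) ≤
      C * (x : ℝ) ^ ((n : ℝ) - δ) := by
  classical
  obtain ⟨δ, hδ, hδ1, h0⟩ := dyadicR hCNN r n d
  refine ⟨δ / 2, by positivity, fun A => ?_⟩
  obtain ⟨C₁, C, hC₁, hC, h1⟩ := h0 (max A 0) (le_max_right _ _)
  -- number of dyadic ranges
  set M : ℝ := 1 + 2 * (δ / 2)⁻¹ with hM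
  have hδ2 : 0 < δ / 2 := by positivity
  have hMpos : 0 < M := by positivity
  set C₂ : ℝ := M * C₁ * 2 ^ (n : ℝ) with hC₂
  have hC₂pos : 0 < C₂ := by positivity
  refine ⟨max C C₂, lt_max_of_lt_left hC, ?_⟩
  intro x hx ξ
  have hx1 : (1 : ℝ) ≤ x := by exact_mod_cast hx
  have hx0 : (0 : ℝ) < x := by linarith
  have hxpow : (0 : ℝ) ≤ (x : ℝ) ^ ((n : ℝ) - δ / 2) := Real.rpow_nonneg hx0.le _
  set Ω : ℕ → Finset (Fin n → ℕ) := fun x => Fintype.piFinset (fun _ : Fin n => Finset.Icc 1 x)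
    with hΩ
  set p : (Fin n → ℕ) → Prop := fun a => ∃ H : ℝ, 2 ≤ H ∧ (∀ i, (a i : ℝ) ≤ H) ∧
    (∃ i, Real.log (Real.log H) ≤ (a i : ℝ) ^ (δ / 2)) ∧ (∀ i, ‖ξ i‖ ≤ H ^ A) ∧
        Exceptional ξ d H A (max C C₂) (fun i => ((Real.log (a i) : ℝ) : ℂ)) with hp
  rw [ncard_eq x p]
  rcases Nat.eq_zero_or_pos n with hn | hn
  · have h3 : (Fintype.piFinset (fun _ : Fin n => Finset.Icc 1 x)).filter p = ∅ := by
      refine Finset.filter_eq_empty_iff.2 ?_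
      rintro a - ⟨H, -, -, ⟨i, -⟩, -⟩
      subst hn
      exact i.elim0
    rw [h3]
    simp only [Finset.card_empty, Nat.cast_zero]
    exact mul_nonneg (hC.le.trans (le_max_left _ _)) hxpow
  · set q : ℕ → (Fin n → ℕ) → Prop := fun k a => ∃ H : ℝ, 2 ≤ H ∧
      ((2 ^ (k + 1) : ℕ) : ℝ) ≤ 2 * H ∧
      Real.log (Real.log H) ≤ ((2 ^ (k + 1) : ℕ) : ℝ) ^ δ ∧ (∀ i, ‖ξ i‖ ≤ H ^ (max A 0)) ∧
      Exceptional ξ d H (max A 0) C (fun i => ((Real.log (a i) : ℝ) : ℂ)) with hq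
    have hqk : ∀ k, (((Ω (2 ^ (k + 1))).filter (q k)).card : ℝ) ≤
        C₁ * ((2 ^ (k + 1) : ℕ) : ℝ) ^ ((n : ℝ) - δ) := by
      intro k
      have h3 := h1 (2 ^ (k + 1)) Nat.one_le_two_pow ξ
      rw [ncard_eq (2 ^ (k + 1)) (q k)] at h3
      exact h3
    set K : ℕ := Nat.log 2 x + 1 with hK
    have hsub : (Ω x).filter p ⊆
        (Finset.range K).biUnion (fun k => (Ω (2 ^ (k + 1))).filter (q k)) := by
      intro a ha
      rw [Finset.mem_filter] at ha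
      obtain ⟨haΩ, H, hH2, haH, ⟨i₀, hi₀⟩, hξH, hbad⟩ := ha
      rw [hΩ, Fintype.mem_piFinset] at haΩ
      have : Nonempty (Fin n) := ⟨i₀⟩
      obtain ⟨i₁, hi₁⟩ := Finite.exists_max a
      set m : ℕ := a i₁ with hm
      have hm1 : 1 ≤ m := (Finset.mem_Icc.1 (haΩ i₁)).1
      have hmx : m ≤ x := (Finset.mem_Icc.1 (haΩ i₁)).2
      set k : ℕ := Nat.log 2 m with hk
      have hk1 : 2 ^ k ≤ m := Nat.pow_log_le_self 2 (by omega)
      have hk2 : m < 2 ^ (k + 1) := Nat.lt_pow_succ_log_self (by norm_num) m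
      have hkK : k < K := by
        have : k ≤ Nat.log 2 x := Nat.log_mono_right hmx
        omega
      rw [Finset.mem_biUnion]
      refine ⟨k, Finset.mem_range.2 hkK, Finset.mem_filter.2 ⟨?_, H, hH2, ?_, ?_, ?_, ?_⟩⟩
      · rw [hΩ, Fintype.mem_piFinset]
        intro i
        exact Finset.mem_Icc.2 ⟨(Finset.mem_Icc.1 (haΩ i)).1, (hi₁ i).trans hk2.le⟩
      · have h3 : ((2 ^ (k + 1) : ℕ) : ℝ) ≤ 2 * (m : ℝ) := by
          have : 2 ^ (k + 1) ≤ 2 * m := by rw [pow_succ]; omega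
          exact_mod_cast this
        have h4 := haH i₁
        linarith
      · refine hi₀.trans ?_
        have h5 : (a i₀ : ℝ) ≤ ((2 ^ (k + 1) : ℕ) : ℝ) := by
          exact_mod_cast (hi₁ i₀).trans hk2.le
        have h6 : (1 : ℝ) ≤ ((2 ^ (k + 1) : ℕ) : ℝ) := by
          exact_mod_cast (Nat.one_le_two_pow : 1 ≤ 2 ^ (k + 1))
        calc (a i₀ : ℝ) ^ (δ / 2) ≤ ((2 ^ (k + 1) : ℕ) : ℝ) ^ (δ / 2) :=
              Real.rpow_le_rpow (Nat.cast_nonneg _) h5 hδ2.le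
          _ ≤ ((2 ^ (k + 1) : ℕ) : ℝ) ^ δ :=
              Real.rpow_le_rpow_of_exponent_le h6 (by linarith)
      · intro i
        exact (hξH i).trans (Real.rpow_le_rpow_of_exponent_le (by linarith) (le_max_left _ _))
      · exact hbad.mono hH2 (le_max_left _ _) (le_max_left _ _)
    have hnd : (0 : ℝ) ≤ (n : ℝ) - δ := by
      have : (1 : ℝ) ≤ n := by exact_mod_cast hn
      linarith
    have hqk2 : ∀ k ∈ Finset.range K, (((Ω (2 ^ (k + 1))).filter (q k)).card : ℝ) ≤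
        C₁ * (2 ^ (n : ℝ) * (x : ℝ) ^ ((n : ℝ) - δ)) := by
      intro k hk
      refine (hqk k).trans (mul_le_mul_of_nonneg_left ?_ hC₁.le)
      have h3 : 2 ^ k ≤ x := by
        have h4 : k ≤ Nat.log 2 x := by
          have := Finset.mem_range.1 hk
          omega
        exact (Nat.pow_le_pow_right (by norm_num) h4).trans (Nat.pow_log_le_self 2 (by omega))
      have h5 : ((2 ^ (k + 1) : ℕ) : ℝ) ≤ 2 * (x : ℝ) := by
        have : 2 ^ (k + 1) ≤ 2 * x := by rw [pow_succ]; omega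
        exact_mod_cast this
      calc ((2 ^ (k + 1) : ℕ) : ℝ) ^ ((n : ℝ) - δ) ≤ (2 * (x : ℝ)) ^ ((n : ℝ) - δ) :=
            Real.rpow_le_rpow (Nat.cast_nonneg _) h5 hnd
        _ = 2 ^ ((n : ℝ) - δ) * (x : ℝ) ^ ((n : ℝ) - δ) :=
            Real.mul_rpow (by norm_num) hx0.le
        _ ≤ 2 ^ (n : ℝ) * (x : ℝ) ^ ((n : ℝ) - δ) := by
            refine mul_le_mul_of_nonneg_right ?_ (Real.rpow_nonneg hx0.le _)
            exact Real.rpow_le_rpow_of_exponent_le (by norm_num) (by linarith)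
    have hKM : (K : ℝ) ≤ M * (x : ℝ) ^ (δ / 2) := by
      have h3 : (Nat.log 2 x : ℝ) * Real.log 2 ≤ Real.log x := by
        have h4 : ((2 ^ Nat.log 2 x : ℕ) : ℝ) ≤ x := by
          exact_mod_cast Nat.pow_log_le_self 2 (by omega)
        have h5 := Real.log_le_log (by positivity) h4
        rw [Nat.cast_pow, Real.log_pow] at h5
        exact_mod_cast h5
      have h6 := Real.log_le_rpow_div hx0.le hδ2
      have h7 := Real.log_two_gt_d9
      have h8 : (0 : ℝ) ≤ (Nat.log 2 x : ℝ) := Nat.cast_nonneg _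
      have h9 : (1 : ℝ) ≤ (x : ℝ) ^ (δ / 2) := Real.one_le_rpow hx1 hδ2.le
      have h10 : (Nat.log 2 x : ℝ) ≤ 2 * ((x : ℝ) ^ (δ / 2) / (δ / 2)) := by nlinarith
      rw [hK, hM]
      push_cast
      have h11 : 2 * ((x : ℝ) ^ (δ / 2) / (δ / 2)) = 2 * (δ / 2)⁻¹ * (x : ℝ) ^ (δ / 2) := by
        rw [div_eq_mul_inv]
        ring
      rw [h11] at h10
      linarith
    have h12 : ((((Ω x).filter p)).card : ℝ) ≤
        ∑ k ∈ Finset.range K, (((Ω (2 ^ (k + 1))).filter (q k)).card : ℝ) := by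
      have := (Finset.card_le_card hsub).trans Finset.card_biUnion_le
      exact_mod_cast this
    calc ((((Ω x).filter p)).card : ℝ)
        ≤ ∑ k ∈ Finset.range K, (((Ω (2 ^ (k + 1))).filter (q k)).card : ℝ) := h12
      _ ≤ ∑ _k ∈ Finset.range K, C₁ * (2 ^ (n : ℝ) * (x : ℝ) ^ ((n : ℝ) - δ)) :=
          Finset.sum_le_sum hqk2
      _ = K * (C₁ * (2 ^ (n : ℝ) * (x : ℝ) ^ ((n : ℝ) - δ))) := by
          rw [Finset.sum_const, Finset.card_range, nsmul_eq_mul]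
      _ ≤ (M * (x : ℝ) ^ (δ / 2)) * (C₁ * (2 ^ (n : ℝ) * (x : ℝ) ^ ((n : ℝ) - δ))) :=
          mul_le_mul_of_nonneg_right hKM (by positivity)
      _ = C₂ * ((x : ℝ) ^ (δ / 2) * (x : ℝ) ^ ((n : ℝ) - δ)) := by rw [hC₂]; ring
      _ = C₂ * (x : ℝ) ^ ((n : ℝ) - δ / 2) := by
          rw [← Real.rpow_add hx0]
          congr 2
          ring
      _ ≤ max C C₂ * (x : ℝ) ^ ((n : ℝ) - δ / 2) :=
          mul_le_mul_of_nonneg_right (le_max_right _ _) hxpow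

end Pool.Agent.H72.PSV.Rel
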