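import Pool.Agent.H72.BF.AARN

open Finset Filter

namespace Pool.Agent.H72.PSV

open Pool.Agent.H72.BF (RelR badR badRN Pkg)

/-! Targets of the board psv_modules (MP_3cf473_nt, PowerSaving), parts A, B, D. -/

noncomputable section

/-- INPUT (part C, helper85): values of logarithms at points close to 1 -/
def T_GIN : Prop := ∀ s D : ℕ, ∃ (dl : ℝ) (N1 : ℕ) (C : ℝ), 0 < dl ∧ 0 < C ∧
  ∀ N : ℕ, N1 ≤ N → ∀ b : Fin s → ℕ, Function.Injective b → (∀ k, b k ≠ 0) →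
  (∀ k, (b k : ℝ) ≤ (N : ℝ) ^ dl) → ∀ H : ℝ, (N : ℝ) ≤ H →
  ∀ P : MvPolynomial (Fin s) ℤ, P ≠ 0 → P.totalDegree ≤ D →
  (∀ m : Fin s →₀ ℕ, |((P.coeff m : ℤ) : ℝ)| ≤ H) →
  1 ≤ H ^ C * ‖MvPolynomial.aeval (fun k => ((Real.log (1 + b k / N) : ℝ) : ℂ)) P‖

/-- ROW ELI: `r + 1` differences of elements which are algebraic of bounded degree over `K(t)`,
`t` of length `r`, satisfy a polynomial relation over `K` of bounded degree -/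
def T_ELI : Prop := ∀ r d : ℕ, ∃ D : ℕ, ∀ (K F : Type) [Field K] [Field F] [Algebra K F]
  (t : Fin r → F) (y : Fin (r + 2) → F), (∀ i, RelR K t d (y i)) →
  ∃ Q : MvPolynomial (Fin (r + 1)) K, Q ≠ 0 ∧ Q.totalDegree ≤ D ∧
    MvPolynomial.aeval (fun i : Fin (r + 1) => y i.succ - y 0) Q = 0

/-- ROW LOC: at every height at most `r + 1` exceptional integers in every short interval -/
def T_LOC : Prop := ∀ r d : ℕ, ∃ (dl : ℝ) (N1 : ℕ), 0 < dl ∧ ∀ A : ℝ, ∃ C : ℝ, 0 < C ∧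
  ∀ H : ℝ, 2 ≤ H → ∀ ξ : Fin r → ℂ, (∀ i, ‖ξ i‖ ≤ H) → ∀ N : ℕ, N1 ≤ N → 1 ≤ N → (N : ℝ) ≤ H →
  ∀ a : Fin (r + 2) → ℕ, StrictMono a → N ≤ a 0 → (∀ i, (a i : ℝ) ≤ N + (N : ℝ) ^ dl) →
  ∃ i, ¬ badR ξ d A C H ((Real.log (a i) : ℝ) : ℂ)

/-- ROW CN1: power saving for one integer, relative to arbitrary complex numbers -/
def T_CN1 : Prop := ∀ r d : ℕ, ∃ (dl C0 : ℝ), 0 < dl ∧ dl ≤ 1 ∧ 0 < C0 ∧ ∀ A : ℝ, ∃ C : ℝ, 0 < C ∧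
  ∀ x : ℕ, 1 ≤ x → ∀ H : ℝ, 2 ≤ H → (x : ℝ) ≤ H → ∀ ξ : Fin r → ℂ, (∀ i, ‖ξ i‖ ≤ H) →
  (Set.ncard {a : ℕ | 1 ≤ a ∧ a ≤ x ∧ badR ξ d A C H ((Real.log a : ℝ) : ℂ)} : ℝ) ≤
    C0 * (x : ℝ) ^ (1 - dl)

/-- ROW CNN: power saving for tuples, relative to arbitrary complex numbers -/
def T_CNN : Prop := ∀ r n d : ℕ, ∃ (dl C0 : ℝ), 0 < dl ∧ dl ≤ 1 ∧ 0 < C0 ∧ ∀ A : ℝ,
  ∃ C : ℝ, 0 < C ∧ ∀ x : ℕ, 1 ≤ x → ∀ H : ℝ, 2 ≤ H → (x : ℝ) ≤ H → ∀ ξ : Fin r → ℂ,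
  (∀ i, ‖ξ i‖ ≤ H) →
  (Set.ncard {a : Fin n → ℕ | (∀ i, 1 ≤ a i ∧ a i ≤ x) ∧
      badRN ξ d A C H (fun i => ((Real.log (a i) : ℝ) : ℂ))} : ℝ) ≤
    C0 * (x : ℝ) ^ ((n : ℝ) - dl)

end

end Pool.Agent.H72.PSV
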